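import Pool.Agent.Helper9.KumWA.Par

/-!
# p-adic preliminaries
-/

namespace KumWA

open IsUltrametricDist

variable {p : ℕ} [hp : Fact p.Prime]

/-! ### ultrametric helpers -/

theorem nadd_lt {x y : ℚ_[p]} {r : ℝ} (hx : ‖x‖ < r) (hy : ‖y‖ < r) : ‖x + y‖ < r :=
  lt_of_le_of_lt (norm_add_le_max x y) (max_lt hx hy)

theorem nsub_lt {x y : ℚ_[p]} {r : ℝ} (hx : ‖x‖ < r) (hy : ‖y‖ < r) : ‖x - y‖ < r := by
  rw [sub_eq_add_neg]
  exact nadd_lt hx (by rwa [norm_neg])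

theorem nadd_le {x y : ℚ_[p]} {r : ℝ} (hx : ‖x‖ ≤ r) (hy : ‖y‖ ≤ r) : ‖x + y‖ ≤ r :=
  (norm_add_le_max x y).trans (max_le hx hy)

theorem nsub_le {x y : ℚ_[p]} {r : ℝ} (hx : ‖x‖ ≤ r) (hy : ‖y‖ ≤ r) : ‖x - y‖ ≤ r := by
  rw [sub_eq_add_neg]
  exact nadd_le hx (by rwa [norm_neg])

/-- `‖y‖ < ‖x‖ → ‖x + y‖ = ‖x‖` -/
theorem nadd_eq {x y : ℚ_[p]} (h : ‖y‖ < ‖x‖) : ‖x + y‖ = ‖x‖ := by
  rw [norm_add_eq_max_of_norm_ne_norm (ne_of_gt h), max_eq_left h.le]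

theorem nsub_eq {x y : ℚ_[p]} (h : ‖y‖ < ‖x‖) : ‖x - y‖ = ‖x‖ := by
  rw [sub_eq_add_neg]
  exact nadd_eq (by rwa [norm_neg])

theorem nsub_eq' {x y : ℚ_[p]} (h : ‖x‖ < ‖y‖) : ‖x - y‖ = ‖y‖ := by
  rw [norm_sub_rev]; exact nsub_eq h

/-- close to something means same norm -/
theorem neq_of_sub_lt {x y : ℚ_[p]} (h : ‖x - y‖ < ‖y‖) : ‖x‖ = ‖y‖ := by
  have : x = y + (x - y) := by ring
  rw [this]; exact nadd_eq h

theorem p_pos : (0 : ℝ) < p := by exact_mod_cast hp.1.pos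

theorem one_lt_p : (1 : ℝ) < p := by exact_mod_cast hp.1.one_lt

/-- integers coprime to p have norm one -/
theorem norm_natCast_eq_one {n : ℕ} (h : ¬ p ∣ n) : ‖(n : ℚ_[p])‖ = 1 := by
  rw [Padic.norm_natCast_eq_one_iff]
  exact (Nat.Prime.coprime_iff_not_dvd hp.1).2 h

theorem norm_two (h2 : p ≠ 2) : ‖(2 : ℚ_[p])‖ = 1 := by
  have := norm_natCast_eq_one (p := p) (n := 2) (fun h => h2 ((Nat.prime_dvd_prime_iff_eq hp.1 Nat.prime_two).1 h))
  exact_mod_cast this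

/-! ### residue map -/

open scoped Classical in
/-- residue of a p-adic integer (0 for non-integral elements) -/
noncomputable def res (x : ℚ_[p]) : ZMod p := if h : ‖x‖ ≤ 1 then PadicInt.toZMod ⟨x, h⟩ else 0

theorem res_of_le {x : ℚ_[p]} (h : ‖x‖ ≤ 1) : res x = PadicInt.toZMod ⟨x, h⟩ := by
  rw [res, dif_pos h]

theorem res_add {x y : ℚ_[p]} (hx : ‖x‖ ≤ 1) (hy : ‖y‖ ≤ 1) : res (x + y) = res x + res y := by
  rw [res_of_le hx, res_of_le hy, res_of_le (nadd_le hx hy), ← map_add]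
  rfl

theorem res_mul {x y : ℚ_[p]} (hx : ‖x‖ ≤ 1) (hy : ‖y‖ ≤ 1) : res (x * y) = res x * res y := by
  have hxy : ‖x * y‖ ≤ 1 := by
    rw [norm_mul]; exact mul_le_one₀ hx (norm_nonneg _) hy
  rw [res_of_le hx, res_of_le hy, res_of_le hxy, ← map_mul]
  rfl

theorem res_sub {x y : ℚ_[p]} (hx : ‖x‖ ≤ 1) (hy : ‖y‖ ≤ 1) : res (x - y) = res x - res y := by
  rw [res_of_le hx, res_of_le hy, res_of_le (nsub_le hx hy), ← map_sub]
  rfl

theorem res_neg {x : ℚ_[p]} (hx : ‖x‖ ≤ 1) : res (-x) = - res x := by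
  rw [res_of_le hx, res_of_le (by rwa [norm_neg]), ← map_neg]
  rfl

theorem res_one : res (1 : ℚ_[p]) = 1 := by
  rw [res_of_le (by simp)]
  exact map_one _

theorem res_zero : res (0 : ℚ_[p]) = 0 := by
  rw [res_of_le (by simp)]
  exact map_zero _

theorem res_natCast (n : ℕ) : res (n : ℚ_[p]) = n := by
  have h : ‖(n : ℚ_[p])‖ ≤ 1 := by
    have := Padic.norm_int_le_one (p := p) n
    exact_mod_cast this
  rw [res_of_le h]
  exact map_natCast _ n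

theorem res_ofNat (n : ℕ) [n.AtLeastTwo] : res (OfNat.ofNat n : ℚ_[p]) = OfNat.ofNat n := by
  have := res_natCast (p := p) n
  exact_mod_cast this

theorem norm_pow_le_one {x : ℚ_[p]} (hx : ‖x‖ ≤ 1) (n : ℕ) : ‖x ^ n‖ ≤ 1 := by
  rw [norm_pow]; exact pow_le_one₀ (norm_nonneg _) hx

theorem norm_mul_le_one {x y : ℚ_[p]} (hx : ‖x‖ ≤ 1) (hy : ‖y‖ ≤ 1) : ‖x * y‖ ≤ 1 := by
  rw [norm_mul]; exact mul_le_one₀ hx (norm_nonneg _) hy

theorem res_pow {x : ℚ_[p]} (hx : ‖x‖ ≤ 1) (n : ℕ) : res (x ^ n) = res x ^ n := by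
  induction n with
  | zero => simp [res_one]
  | succ n ih => rw [pow_succ, pow_succ, res_mul (norm_pow_le_one hx n) hx, ih]

theorem toZMod_eq_zero_iff (x : ℤ_[p]) : PadicInt.toZMod x = 0 ↔ ‖x‖ < 1 := by
  rw [← RingHom.mem_ker, PadicInt.ker_toZMod, IsLocalRing.mem_maximalIdeal, PadicInt.mem_nonunits]

theorem res_eq_zero {x : ℚ_[p]} (h : ‖x‖ ≤ 1) : res x = 0 ↔ ‖x‖ < 1 := by
  rw [res_of_le h]
  exact toZMod_eq_zero_iff _

theorem res_eq_iff {x y : ℚ_[p]} (hx : ‖x‖ ≤ 1) (hy : ‖y‖ ≤ 1) : res x = res y ↔ ‖x - y‖ < 1 := by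
  rw [← res_eq_zero (nsub_le hx hy), res_sub hx hy, sub_eq_zero]

theorem exists_res (a : ZMod p) : ∃ x : ℚ_[p], ‖x‖ ≤ 1 ∧ res x = a := by
  refine ⟨(a.val : ℚ_[p]), ?_, ?_⟩
  · have := Padic.norm_int_le_one (p := p) a.val
    exact_mod_cast this
  · rw [res_natCast, ZMod.natCast_zmod_val]

theorem res_ne_zero {x : ℚ_[p]} (h : ‖x‖ ≤ 1) : res x ≠ 0 ↔ ‖x‖ = 1 := by
  rw [Ne, res_eq_zero h, not_lt]
  exact ⟨fun h' => le_antisymm h h', fun h' => h'.ge⟩

/-! ### squares -/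

theorem isSquare_of_res (h2 : p ≠ 2) {x : ℚ_[p]} (hx : ‖x‖ = 1) (h : IsSquare (res x)) :
    IsSquare x := by
  obtain ⟨a, ha⟩ := h
  obtain ⟨w, hw, hwa⟩ := exists_res a
  have hx1 : ‖x‖ ≤ 1 := hx.le
  have hclose : ‖x - w * w‖ < 1 := by
    rw [← res_eq_iff hx1 (norm_mul_le_one hw hw), res_mul hw hw, hwa, ha]
  have hw1 : ‖w‖ = 1 := by
    have : res x ≠ 0 := (res_ne_zero hx1).2 hx
    rw [ha] at this
    rw [← res_ne_zero hw, hwa]
    exact fun h => this (by rw [h, mul_zero])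
  set x' : ℤ_[p] := ⟨x, hx1⟩ with hx'
  set w' : ℤ_[p] := ⟨w, hw⟩ with hw'
  let F : Polynomial ℤ_[p] := Polynomial.X ^ 2 - Polynomial.C x'
  have hF : F.aeval w' = w' ^ 2 - x' := by simp [F]
  have hF' : F.derivative.aeval w' = 2 * w' := by
    simp [F]
    left; norm_num
  have hnorm : ‖F.aeval w'‖ < ‖F.derivative.aeval w'‖ ^ 2 := by
    rw [hF, hF', norm_mul]
    have e1 : ‖w'‖ = 1 := hw1
    have e2 : ‖(2 : ℤ_[p])‖ = 1 := by
      have := norm_two (p := p) h2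
      rw [PadicInt.norm_def]
      exact_mod_cast this
    rw [e1, e2]
    have e3 : ‖w' ^ 2 - x'‖ = ‖x - w * w‖ := by
      rw [← norm_neg, PadicInt.norm_def]
      congr 1
      push_cast
      simp only [x', w']
      ring
    rw [e3]
    simpa using hclose
  obtain ⟨z, hz, -⟩ := hensels_lemma hnorm
  have hz' : z ^ 2 - x' = 0 := by
    have : F.aeval z = z ^ 2 - x' := by simp [F]
    rw [← this]; exact hz
  refine ⟨(z : ℚ_[p]), ?_⟩
  have hz2 : x' = z * z := by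
    rw [← sub_eq_zero.1 hz', sq]
  have := congrArg (fun t : ℤ_[p] => (t : ℚ_[p])) hz2
  simpa [x'] using this

theorem isSquare_of_close (h2 : p ≠ 2) {x y : ℚ_[p]} (h : ‖x - y‖ < ‖y‖) (hy : IsSquare y) :
    IsSquare x := by
  have hy0 : y ≠ 0 := by
    rintro rfl
    simp only [sub_zero, norm_zero] at h
    exact absurd h (not_lt.2 (norm_nonneg _))
  have h1 : ‖x / y - 1‖ < 1 := by
    have : x / y - 1 = (x - y) / y := by field_simp
    rw [this, norm_div, div_lt_one (norm_pos_iff.2 hy0)]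
    exact h
  have h3 : ‖x / y‖ = 1 := by
    rw [norm_div, neq_of_sub_lt h, div_self (norm_ne_zero_iff.2 hy0)]
  have h4 : res (x / y) = 1 := by
    rw [← res_one, res_eq_iff h3.le (by simp)]
    exact h1
  have h5 : IsSquare (x / y) := isSquare_of_res h2 h3 (by rw [h4]; exact IsSquare.one)
  have := h5.mul hy
  rwa [div_mul_cancel₀ _ hy0] at this

theorem isSquare_iff_close (h2 : p ≠ 2) {x y : ℚ_[p]} (h : ‖x - y‖ < ‖y‖) :
    IsSquare x ↔ IsSquare y := by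
  refine ⟨fun hx => ?_, isSquare_of_close h2 h⟩
  apply isSquare_of_close h2 _ hx
  rw [norm_sub_rev, neq_of_sub_lt h]; exact h

theorem res_isSquare {x : ℚ_[p]} (hx : ‖x‖ ≤ 1) (h : IsSquare x) : IsSquare (res x) := by
  obtain ⟨w, rfl⟩ := h
  have hw : ‖w‖ ≤ 1 := by
    rw [norm_mul] at hx
    by_contra hlt
    push Not at hlt
    nlinarith [norm_nonneg w]
  rw [res_mul hw hw]
  exact ⟨_, rfl⟩

theorem isSquare_iff_res (h2 : p ≠ 2) {x : ℚ_[p]} (hx : ‖x‖ = 1) :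
    IsSquare x ↔ IsSquare (res x) :=
  ⟨res_isSquare hx.le, isSquare_of_res h2 hx⟩

/-- the norm of a nonzero square is an even power of p -/
theorem norm_of_isSquare {x : ℚ_[p]} (hx : x ≠ 0) (h : IsSquare x) :
    ∃ k : ℤ, ‖x‖ = (p : ℝ) ^ (2 * k) := by
  obtain ⟨w, rfl⟩ := h
  have hw : w ≠ 0 := by rintro rfl; simp at hx
  refine ⟨-w.valuation, ?_⟩
  rw [norm_mul, Padic.norm_eq_zpow_neg_valuation hw, ← zpow_add₀ (by exact_mod_cast hp.1.ne_zero)]
  congr 1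
  ring

section mod8

variable (h8 : p % 8 = 5)

include h8

theorem p_ne_two : p ≠ 2 := by rintro rfl; norm_num at h8

theorem zmod_two_nonsq : ¬ IsSquare (2 : ZMod p) := by
  rw [ZMod.exists_sq_eq_two_iff (p_ne_two h8)]
  omega

theorem zmod_neg_one_sq : IsSquare (-1 : ZMod p) := by
  rw [ZMod.exists_sq_eq_neg_one_iff]
  omega

theorem padic_two_nonsq : ¬ IsSquare (2 : ℚ_[p]) := by
  rw [isSquare_iff_res (p_ne_two h8) (norm_two (p_ne_two h8)), res_ofNat]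
  exact zmod_two_nonsq h8

theorem padic_neg_one_sq : IsSquare (-1 : ℚ_[p]) := by
  rw [isSquare_iff_res (p_ne_two h8) (by simp), res_neg (by simp), res_one]
  exact zmod_neg_one_sq h8

theorem zmod_sq_or {a : ZMod p} : IsSquare a ∨ IsSquare (2 * a) := by
  by_cases ha : a = 0
  · left; rw [ha]; exact IsSquare.zero
  by_contra hcon
  push Not at hcon
  have h1 := (quadraticChar_neg_one_iff_not_isSquare (F := ZMod p)).2 hcon.1
  have h2 := (quadraticChar_neg_one_iff_not_isSquare (F := ZMod p)).2 hcon.2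
  have h3 := (quadraticChar_neg_one_iff_not_isSquare (F := ZMod p)).2 (zmod_two_nonsq h8)
  rw [map_mul, h1, h3] at h2
  norm_num at h2

theorem unit_sq_or {x : ℚ_[p]} (hx : ‖x‖ = 1) : IsSquare x ∨ IsSquare (2 * x) := by
  have h2 := p_ne_two h8
  have h2x : ‖2 * x‖ = 1 := by rw [norm_mul, norm_two h2, hx, one_mul]
  rcases zmod_sq_or h8 (a := res x) with h | h
  · left; exact isSquare_of_res h2 hx h
  · right
    apply isSquare_of_res h2 h2x
    rw [res_mul (norm_two h2).le hx.le, res_ofNat]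
    exact h

theorem even_norm_sq_or {x : ℚ_[p]} {k : ℤ} (hx : ‖x‖ = (p : ℝ) ^ (2 * k)) :
    IsSquare x ∨ IsSquare (2 * x) := by
  have hp0 : (p : ℚ_[p]) ≠ 0 := by exact_mod_cast hp.1.ne_zero
  have hu : ‖x * ((p : ℚ_[p]) ^ k) ^ 2‖ = 1 := by
    rw [norm_mul, norm_pow, Padic.norm_p_zpow, hx, ← zpow_natCast, ← zpow_mul,
      ← zpow_add₀ (by exact_mod_cast hp.1.ne_zero)]
    have : 2 * k + -k * ((2 : ℕ) : ℤ) = 0 := by push_cast; ring
    rw [this, zpow_zero]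
  have hs : IsSquare (((p : ℚ_[p]) ^ k) ^ 2) := IsSquare.sq _
  have hne : ((p : ℚ_[p]) ^ k) ^ 2 ≠ 0 := pow_ne_zero _ (zpow_ne_zero _ hp0)
  rcases unit_sq_or h8 hu with h | h
  · left
    have := h.div hs
    rwa [mul_div_assoc, div_self hne, mul_one] at this
  · right
    have := h.div hs
    rwa [← mul_assoc, mul_div_assoc, div_self hne, mul_one] at this

/-- values of the norm form of ℚ_p(√2) -/
theorem norm_form (u v : ℚ_[p]) : ‖u ^ 2 - 2 * v ^ 2‖ = max (‖u‖ ^ 2) (‖v‖ ^ 2) := by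
  have h2 := p_ne_two h8
  have hn2 := norm_two (p := p) h2
  rcases lt_trichotomy ‖u‖ ‖v‖ with h | h | h
  · have h1 : ‖u‖ ^ 2 < ‖v‖ ^ 2 := pow_lt_pow_left₀ h (norm_nonneg _) two_ne_zero
    rw [max_eq_right h1.le, nsub_eq']
    · rw [norm_mul, hn2, one_mul, norm_pow]
    · rw [norm_mul, hn2, one_mul, norm_pow, norm_pow]; exact h1
  · rw [h, max_self]
    by_cases hv : v = 0
    · subst hv
      have : u = 0 := by
        rw [norm_zero] at h; exact norm_eq_zero.1 h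
      subst this
      simp
    have hvn : ‖v‖ ≠ 0 := norm_ne_zero_iff.2 hv
    have hz : ‖u / v‖ = 1 := by rw [norm_div, h, div_self hvn]
    have e : u ^ 2 - 2 * v ^ 2 = v ^ 2 * ((u / v) ^ 2 - 2) := by field_simp
    rw [e, norm_mul, norm_pow]
    have : ‖(u / v) ^ 2 - 2‖ = 1 := by
      have hle : ‖(u / v) ^ 2 - 2‖ ≤ 1 := nsub_le (norm_pow_le_one hz.le 2) hn2.le
      rw [← res_ne_zero hle, res_sub (norm_pow_le_one hz.le 2) hn2.le, res_pow hz.le, res_ofNat]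
      intro h0
      apply zmod_two_nonsq h8
      rw [← sub_eq_zero.1 h0]
      exact IsSquare.sq _
    rw [this, mul_one]
  · have h1 : ‖v‖ ^ 2 < ‖u‖ ^ 2 := pow_lt_pow_left₀ h (norm_nonneg _) two_ne_zero
    rw [max_eq_left h1.le, nsub_eq]
    · rw [norm_pow]
    · rw [norm_mul, hn2, one_mul, norm_pow, norm_pow]; exact h1

theorem kHyp_padic : KHyp ℚ_[p] where
  two := padic_two_nonsq h8
  nrm := by
    intro u v
    by_cases h0 : u ^ 2 - 2 * v ^ 2 = 0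
    · left; rw [h0]; exact IsSquare.zero
    have hn := norm_form h8 u v
    have hpos : 0 < ‖u ^ 2 - 2 * v ^ 2‖ := norm_pos_iff.2 h0
    have : ∃ w : ℚ_[p], w ≠ 0 ∧ ‖u ^ 2 - 2 * v ^ 2‖ = ‖w‖ ^ 2 := by
      rcases max_choice (‖u‖ ^ 2) (‖v‖ ^ 2) with h | h
      · refine ⟨u, ?_, by rw [hn, h]⟩
        rintro rfl
        rw [hn, h, norm_zero] at hpos
        norm_num at hpos
      · refine ⟨v, ?_, by rw [hn, h]⟩
        rintro rfl
        rw [hn, h, norm_zero] at hpos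
        norm_num at hpos
    obtain ⟨w, hw0, hw⟩ := this
    apply even_norm_sq_or h8 (k := -w.valuation)
    rw [hw, Padic.norm_eq_zpow_neg_valuation hw0, ← zpow_natCast, ← zpow_mul]
    congr 1
    push_cast; ring

end mod8

end KumWA
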