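import Pool.Agent.Helper9.KumWA.Fil

/-!
# Levels and topological generation of the formal part
-/

namespace KumWA

open IsUltrametricDist

variable {p : ℕ} [hp : Fact p.Prime]

theorem inv_pow_anti {a b : ℕ} (h : a ≤ b) : ((p : ℝ) ^ b)⁻¹ ≤ ((p : ℝ) ^ a)⁻¹ := by
  apply inv_anti₀ (pow_pos (p_pos (p := p)) _)
  exact pow_le_pow_right₀ (one_lt_p (p := p)).le h

theorem inv_pow_lt {a b : ℕ} (h : a < b) : ((p : ℝ) ^ b)⁻¹ < ((p : ℝ) ^ a)⁻¹ := by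
  apply inv_strictAnti₀ (pow_pos (p_pos (p := p)) _)
  exact pow_lt_pow_right₀ (one_lt_p (p := p)) h

variable [DecidableEq ℚ_[p]]

omit [DecidableEq ℚ_[p]] in
/-- bound used for corrections -/
theorem corr_le {d : ℚ_[p]} {n : ℕ} (h : okl d n) {a b c : ℚ_[p]}
    (ha : ‖a‖ ≤ ((p : ℝ) ^ n)⁻¹) (hb : ‖b‖ ≤ ((p : ℝ) ^ n)⁻¹) (hc : ‖c‖ ≤ ((p : ℝ) ^ (n + 1))⁻¹) :
    ‖4 * d * (a * b * c)‖ ≤ ((p : ℝ) ^ (n + 2))⁻¹ := by
  have hp1 := one_lt_p (p := p)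
  rw [mul_assoc]
  refine (norm_nat_mul_le 4 _).trans ?_
  rw [norm_mul, norm_mul, norm_mul]
  rcases h.2 with h' | h'
  · calc ‖d‖ * (‖a‖ * ‖b‖ * ‖c‖)
        ≤ 1 * (((p : ℝ) ^ n)⁻¹ * ((p : ℝ) ^ n)⁻¹ * ((p : ℝ) ^ (n + 1))⁻¹) := by
          have := h.1
          gcongr
      _ = ((p : ℝ) ^ (n + n + (n + 1)))⁻¹ := by
          rw [one_mul, pow_add _ (n + n), pow_add _ n n, mul_inv, mul_inv]
      _ ≤ ((p : ℝ) ^ (n + 2))⁻¹ := inv_pow_anti (by omega)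
  · calc ‖d‖ * (‖a‖ * ‖b‖ * ‖c‖)
        ≤ (p : ℝ)⁻¹ * (((p : ℝ) ^ n)⁻¹ * ((p : ℝ) ^ n)⁻¹ * ((p : ℝ) ^ (n + 1))⁻¹) := by
          gcongr
      _ = ((p : ℝ) ^ (1 + (n + n + (n + 1))))⁻¹ := by
          rw [pow_add _ 1, pow_add _ (n + n), pow_add _ n n, mul_inv, mul_inv, mul_inv, pow_one]
      _ ≤ ((p : ℝ) ^ (n + 2))⁻¹ := inv_pow_anti (by omega)

theorem tt_nsmul_rough {d : ℚ_[p]} {n : ℕ} (h : okl d n) {W : E d} (hW : fil n W) (j : ℕ) :
    ‖tt (j • W) - j * tt W‖ ≤ ((p : ℝ) ^ (n + 1))⁻¹ := by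
  induction j with
  | zero => simp [tt_zero]
  | succ j ih =>
    have h1 := tt_add' h (fil_nsmul h hW j) hW
    rw [succ_nsmul]
    have e : tt (j • W + W) - ((j + 1 : ℕ) : ℚ_[p]) * tt W =
        (tt (j • W + W) - (tt (j • W) + tt W)) + (tt (j • W) - j * tt W) := by
      push_cast; ring
    rw [e]
    exact nadd_le h1 ih

omit [DecidableEq ℚ_[p]] in
theorem norm_three (h3 : p ≠ 3) : ‖(3 : ℚ_[p])‖ = 1 := by
  have := norm_natCast_eq_one (p := p) (n := 3)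
    (fun h => h3 ((Nat.prime_dvd_prime_iff_eq hp.1 Nat.prime_three).1 h))
  exact_mod_cast this

theorem tt_nsmul {d : ℚ_[p]} {n : ℕ} (h : okl d n) {W : E d} (hW : fil n W)
    (j : ℕ) : ‖tt (j • W) - (j * tt W - 4 * d * tt W ^ 3 * (((j : ℚ_[p]) ^ 3 - j) / 3))‖ ≤
      ((p : ℝ) ^ (n + 2))⁻¹ := by
  induction j with
  | zero => simp [tt_zero]
  | succ j ih =>
    have h1 := tt_add h (fil_nsmul h hW j) hW
    have h2 := tt_nsmul_rough h hW j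
    have hW' := norm_tt_le h hW
    have hjW' := norm_tt_le h (fil_nsmul h hW j)
    rw [succ_nsmul]
    set a := tt (j • W) with ha
    set t := tt W with ht
    have e : tt (j • W + W) - (((j + 1 : ℕ) : ℚ_[p]) * t -
        4 * d * t ^ 3 * ((((j + 1 : ℕ) : ℚ_[p]) ^ 3 - ((j + 1 : ℕ) : ℚ_[p])) / 3)) =
        (tt (j • W + W) - (a + t - 4 * d * (a * t * (a + t)))) +
        (a - (j * t - 4 * d * t ^ 3 * (((j : ℚ_[p]) ^ 3 - j) / 3))) -
        4 * d * (a * t * (a - j * t)) - 4 * d * (((j : ℚ_[p]) * t + t) * t * (a - j * t)) := by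
      push_cast
      field_simp
      ring
    rw [e]
    refine nsub_le (nsub_le (nadd_le h1 ih) (corr_le h hjW' hW' h2)) (corr_le h ?_ hW' h2)
    apply nadd_le _ hW'
    rw [norm_mul]
    exact (mul_le_of_le_one_left (norm_nonneg _) (norm_nat_le_one j)).trans hW'

/-- exact level `n` -/
def lev {d : ℚ_[p]} (n : ℕ) (W : E d) : Prop := fil n W ∧ ‖tt W‖ = ((p : ℝ) ^ n)⁻¹

theorem lev_p (h3 : p ≠ 3) {d : ℚ_[p]} {n : ℕ} (h : okl d n) {W : E d} (hW : lev n W) :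
    lev (n + 1) (p • W) := by
  have h1 := tt_nsmul h hW.1 p
  set t := tt W with ht
  have hp1 := one_lt_p (p := p)
  have hpn : ‖(p : ℚ_[p])‖ = (p : ℝ)⁻¹ := Padic.norm_p
  have hpt : ‖(p : ℚ_[p]) * t‖ = ((p : ℝ) ^ (n + 1))⁻¹ := by
    rw [norm_mul, hpn, hW.2, pow_succ, mul_inv, mul_comm]
  have hcorr : ‖4 * d * t ^ 3 * (((p : ℚ_[p]) ^ 3 - p) / 3)‖ ≤ ((p : ℝ) ^ (n + 2))⁻¹ := by
    have e : 4 * d * t ^ 3 * (((p : ℚ_[p]) ^ 3 - p) / 3) =
        (((p : ℚ_[p]) ^ 2 - 1) / 3) * (4 * d * (t * t * (p * t))) := by ring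
    rw [e, norm_mul]
    refine (mul_le_of_le_one_left (norm_nonneg _) ?_).trans
      (corr_le h hW.2.le hW.2.le hpt.le)
    rw [norm_div, norm_three h3, div_one]
    exact nsub_le (norm_pow_le_one (norm_nat_le_one p) 2) (by simp)
  have hclose : ‖tt (p • W) - p * t‖ ≤ ((p : ℝ) ^ (n + 2))⁻¹ := by
    have e : tt (p • W) - p * t =
        (tt (p • W) - (p * t - 4 * d * t ^ 3 * (((p : ℚ_[p]) ^ 3 - p) / 3))) -
          4 * d * t ^ 3 * (((p : ℚ_[p]) ^ 3 - p) / 3) := by ring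
    rw [e]
    exact nsub_le h1 hcorr
  have hnorm : ‖tt (p • W)‖ = ((p : ℝ) ^ (n + 1))⁻¹ := by
    rw [← hpt]
    apply neq_of_sub_lt
    rw [hpt]
    exact lt_of_le_of_lt hclose (inv_pow_lt (by omega))
  refine ⟨?_, hnorm⟩
  exact fil_of_tt h (fil_nsmul h hW.1 p) hnorm.le

/-- one step of approximation -/
theorem lev_step {d : ℚ_[p]} {n : ℕ} (h : okl d n) {W R : E d} (hW : lev n W) (hR : fil n R) :
    ∃ j : ℕ, fil (n + 1) (R - j • W) := by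
  have hp1 := one_lt_p (p := p)
  have hR' := norm_tt_le h hR
  have ht0 : 0 < ‖tt W‖ := by rw [hW.2]; positivity
  have hq : ‖tt R / tt W‖ ≤ 1 := by
    rw [norm_div, div_le_one ht0, hW.2]; exact hR'
  obtain ⟨j, hj⟩ : ∃ j : ℕ, res (tt R / tt W) = j := ⟨(res (tt R / tt W)).val, by
    rw [ZMod.natCast_zmod_val]⟩
  refine ⟨j, ?_⟩
  have h1 : ‖tt R / tt W - j‖ < 1 := by
    rw [← res_eq_iff hq (norm_nat_le_one j), hj, res_natCast]
  have h1' : ‖tt R / tt W - j‖ ≤ (p : ℝ)⁻¹ := by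
    have := (Padic.norm_lt_pow_iff_norm_le_pow_sub_one (tt R / tt W - (j : ℚ_[p])) 0).1 (by simpa using h1)
    simpa using this
  have hne : tt W ≠ 0 := norm_pos_iff.1 ht0
  have h2 : ‖tt R - j * tt W‖ ≤ ((p : ℝ) ^ (n + 1))⁻¹ := by
    have e : tt R - j * tt W = (tt R / tt W - j) * tt W := by field_simp
    rw [e, norm_mul, hW.2, pow_succ, mul_inv, mul_comm]
    gcongr
  have h3 := tt_nsmul_rough h hW.1 j
  have h4 := tt_sub' h hR (fil_nsmul h hW.1 j)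
  apply fil_of_tt h (fil_sub h hR (fil_nsmul h hW.1 j))
  have e : tt (R - j • W) = (tt (R - j • W) - (tt R - tt (j • W))) - (tt (j • W) - j * tt W) +
      (tt R - j * tt W) := by ring
  rw [e]
  exact nadd_le (nsub_le h4 h3) h2

theorem lev_gen (h3 : p ≠ 3) {d : ℚ_[p]} (k : ℕ) : ∀ {n : ℕ} (_ : okl d n) {W R : E d}
    (_ : lev n W) (_ : fil n R), ∃ j : ℕ, fil (n + k) (R - j • W) := by
  induction k with
  | zero =>
    intro n h W R hW hR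
    exact ⟨0, by simpa using hR⟩
  | succ k ih =>
    intro n h W R hW hR
    obtain ⟨j0, hj0⟩ := lev_step h hW hR
    obtain ⟨j1, hj1⟩ := ih (okl_succ h) (lev_p h3 h hW) hj0
    refine ⟨j0 + j1 * p, ?_⟩
    have e : R - (j0 + j1 * p) • W = R - j0 • W - j1 • (p • W) := by
      rw [add_nsmul, mul_nsmul']; abel
    rw [e]
    have : n + (k + 1) = n + 1 + k := by ring
    rwa [this]

end KumWA
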