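import Pool.Agent.Helper9.KumWA.Colour

/-!
# Weak approximation for the diagonal, and the infinite product
-/

namespace KumWA

open Topology

theorem not_padic_isEquiv {p q : ℕ} [hp : Fact p.Prime] [hq : Fact q.Prime] (h : p ≠ q) :
    ¬ (Rat.AbsoluteValue.padic p).IsEquiv (Rat.AbsoluteValue.padic q) := by
  intro H
  have h1 : Rat.AbsoluteValue.padic p (p : ℚ) < 1 := by
    rw [Rat.AbsoluteValue.padic_eq_padicNorm]
    have := padicNorm.padicNorm_p_lt_one_of_prime (p := p)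
    exact_mod_cast this
  have h2 := H.lt_one_iff.1 h1
  rw [Rat.AbsoluteValue.padic_eq_padicNorm] at h2
  have h3 : padicNorm q (p : ℚ) = 1 := by
    apply padicNorm.padicNorm_of_prime_of_ne (p := q) (q := p)
    exact fun h' => h h'.symm
  rw [h3] at h2
  norm_num at h2

theorem padic_isNontrivial (p : ℕ) [hp : Fact p.Prime] :
    (Rat.AbsoluteValue.padic p).IsNontrivial := by
  refine ⟨(p : ℚ), by exact_mod_cast hp.out.ne_zero, ?_⟩
  rw [Rat.AbsoluteValue.padic_eq_padicNorm]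
  have := padicNorm.padicNorm_p_lt_one_of_prime (p := p)
  intro h
  have h' : padicNorm p (p : ℚ) = 1 := by exact_mod_cast h
  rw [h'] at this
  exact lt_irrefl _ this

/-- weak approximation for finitely many primes -/
theorem weak_approx {ι : Type*} [Finite ι] (q : ι → ℕ) [hq : ∀ i, Fact (q i).Prime]
    (hinj : Function.Injective q) (x : ∀ i, ℚ_[q i]) (ε : ι → ℝ) (hε : ∀ i, 0 < ε i) :
    ∃ t : ℚ, ∀ i, ‖emb (q i) t - x i‖ < ε i := by
  have hr : ∀ i, ∃ r : ℚ, ‖x i - r‖ < ε i := fun i => Padic.rat_dense (q i) (x i) (hε i)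
  choose r hr using hr
  have D := AbsoluteValue.denseRange_algebraMap_pi (F := ℚ) (ι := ι)
    (v := fun i => Rat.AbsoluteValue.padic (q i)) (fun i => padic_isNontrivial (q i))
    (fun i j hij => not_padic_isEquiv (fun h => hij (hinj h)))
  have key := D.exists_mem_open (s := Set.univ.pi fun i => Metric.ball
    ((WithAbs.equiv (Rat.AbsoluteValue.padic (q i))).symm (r i)) (ε i))
    (isOpen_set_pi Set.finite_univ (fun i _ => Metric.isOpen_ball))
    ⟨fun i => (WithAbs.equiv (Rat.AbsoluteValue.padic (q i))).symm (r i), fun i _ =>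
      Metric.mem_ball_self (hε i)⟩
  obtain ⟨t, ht⟩ := key
  refine ⟨t, fun i => ?_⟩
  have h1 := ht i (Set.mem_univ _)
  rw [Metric.mem_ball, dist_eq_norm] at h1
  have h2 : ‖((t - r i : ℚ) : ℚ_[q i])‖ < ε i := by
    rw [Padic.eq_padicNorm]
    exact h1
  have e1 : emb (q i) t - x i = ((t - r i : ℚ) : ℚ_[q i]) + (((r i : ℚ) : ℚ_[q i]) - x i) := by
    have : emb (q i) t = ((t : ℚ) : ℚ_[q i]) := rfl
    rw [this]
    push_cast
    ring
  rw [e1]
  apply lt_of_le_of_lt (Padic.nonarchimedean _ _)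
  apply max_lt h2
  rw [norm_sub_rev]
  exact hr i

/-- density for the diagonal points `(t, t, ff t)` -/
theorem near_diag {ι : Type*} [Finite ι] (q : ι → ℕ) [hq : ∀ i, Fact (q i).Prime]
    (hinj : Function.Injective q) (v : ∀ i, Pt ℚ_[q i])
    (hv : ∀ i, (v i).y = (v i).x ∧ (v i).z = ff (v i).x) : Near q v := by
  intro U hU
  -- the diagonal map
  have key : ∀ i, ∃ ε : ℝ, 0 < ε ∧ ∀ t : ℚ_[q i], ‖t - (v i).x‖ < ε →
      ff t ≠ 0 ∧ ∀ u : Pt ℚ_[q i], u.1 = (t, t, ff t) → u ∈ U i := by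
    intro i
    have h1 : U i ∈ Filter.comap (Subtype.val : Pt ℚ_[q i] → ℚ_[q i] × ℚ_[q i] × ℚ_[q i])
        (𝓝 (v i).1) := by
      have := hU i
      rwa [show 𝓝 (v i) = Filter.comap (Subtype.val : Pt ℚ_[q i] → ℚ_[q i] × ℚ_[q i] × ℚ_[q i])
        (𝓝 (v i).1) from nhds_induced _ _] at this
    obtain ⟨V, hV, hVU⟩ := Filter.mem_comap.1 h1
    have hc : Continuous fun t : ℚ_[q i] => ((t, t, ff t) : ℚ_[q i] × ℚ_[q i] × ℚ_[q i]) := by
      unfold ff
      fun_prop
    have hc2 : Continuous fun t : ℚ_[q i] => ff t := by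
      unfold ff
      fun_prop
    have hvi : (v i).1 = ((v i).x, (v i).x, ff (v i).x) := by
      have : (v i).1 = ((v i).x, (v i).y, (v i).z) := rfl
      rw [this, (hv i).1, (hv i).2]
    rw [hvi] at hV
    have h2 : ∀ᶠ t in 𝓝 (v i).x, ((t, t, ff t) : ℚ_[q i] × ℚ_[q i] × ℚ_[q i]) ∈ V :=
      hc.continuousAt.eventually hV
    have h3 : ∀ᶠ t in 𝓝 (v i).x, ff t ≠ 0 := hc2.continuousAt.eventually_ne (v i).hfx
    obtain ⟨ε, hε, h⟩ := Metric.eventually_nhds_iff.1 (h2.and h3)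
    refine ⟨ε, hε, fun t ht => ?_⟩
    have := h (by rwa [dist_eq_norm] : dist t (v i).x < ε)
    refine ⟨this.2, fun u hu => hVU ?_⟩
    change u.1 ∈ V
    rw [hu]
    exact this.1
  choose ε hε h using key
  obtain ⟨t, ht⟩ := weak_approx q hinj (fun i => (v i).x) ε hε
  by_cases hf : ff t = 0
  · -- then the index type is empty
    have : ∀ i : ι, False := by
      intro i
      apply (h i _ (ht i)).1
      rw [← map_ff, hf, map_zero]
    refine ⟨⟨(1, 1, ff 1), pow_two _, by norm_num [ff]⟩, fun i => (this i).elim⟩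
  · refine ⟨⟨(t, t, ff t), by ring, hf⟩, fun i => ?_⟩
    apply (h i _ (ht i)).2
    change (emb (q i) t, emb (q i) t, emb (q i) (ff t)) = _
    rw [map_ff]

/-- density in the product over an arbitrary set of primes follows from finite sets -/
theorem dense_of_near (S : Set Nat.Primes)
    (h : ∀ F : Finset S, ∀ v : ∀ p : F, Pt ℚ_[((p : S) : Nat.Primes)],
      Near (fun p : F => (((p : S) : Nat.Primes) : ℕ)) v) :
    DenseRange (fun (u : Pt ℚ) (p : S) => Pt.map (emb ((p : Nat.Primes) : ℕ)) u) := by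
  intro v
  rw [mem_closure_iff_nhds]
  intro N hN
  rw [nhds_pi, Filter.mem_pi] at hN
  obtain ⟨I, hI, U, hU, hUN⟩ := hN
  obtain ⟨u, hu⟩ := h hI.toFinset (fun p => v p) (fun p => U p) (fun p => hU p)
  refine ⟨_, hUN ?_, u, rfl⟩
  intro p hp
  exact hu ⟨p, hI.mem_toFinset.2 hp⟩

end KumWA
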