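import Pool.Agent.Helper9.KumWA.Topo

/-!
# Approximable systems
-/

namespace KumWA

open Topology

/-- a representation of a point of the surface by two points of `E d` -/
def Rep {K : Type*} [Field K] (u : Pt K) (d : K) (P Q : E d) : Prop :=
  d ≠ 0 ∧ P ≠ 0 ∧ Q ≠ 0 ∧ u.x * d = xc P ∧ u.y * d = xc Q ∧ u.z * d ^ 3 = yc P * yc Q

section field

variable {K : Type*} [Field K]

theorem yc_sq_ff {d : K} (hd : d ≠ 0) (P : E d) : yc P ^ 2 = d ^ 3 * ff (xc P / d) := by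
  rw [curve_eq, ff]; field_simp

theorem Rep.yc_ne {u : Pt K} {d : K} {P Q : E d} (h : Rep u d P Q) : yc P ≠ 0 ∧ yc Q ≠ 0 := by
  obtain ⟨hd, -, -, -, -, hz⟩ := h
  have h0 : u.z * d ^ 3 ≠ 0 := mul_ne_zero u.hz (pow_ne_zero _ hd)
  rw [hz] at h0
  exact ⟨left_ne_zero_of_mul h0, right_ne_zero_of_mul h0⟩

theorem Rep.ffx {u : Pt K} {d : K} {P Q : E d} (h : Rep u d P Q) :
    d ^ 3 * ff u.x = yc P ^ 2 := by
  rw [yc_sq_ff h.1, ← h.2.2.2.1, mul_div_cancel_right₀ _ h.1]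

theorem Rep.ffy {u : Pt K} {d : K} {P Q : E d} (h : Rep u d P Q) :
    d ^ 3 * ff u.y = yc Q ^ 2 := by
  rw [yc_sq_ff h.1, ← h.2.2.2.2.1, mul_div_cancel_right₀ _ h.1]

/-- the point of the surface given by two points of `E d` -/
def mkPt {d : K} (hd : d ≠ 0) (P Q : E d) (hyP : yc P ≠ 0) (hyQ : yc Q ≠ 0) : Pt K :=
  ⟨(xc P / d, xc Q / d, yc P * yc Q / d ^ 3), by
    refine ⟨?_, ?_⟩
    · change (yc P * yc Q / d ^ 3) ^ 2 = ff (xc P / d) * ff (xc Q / d)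
      have h1 := yc_sq_ff hd P
      have h2 := yc_sq_ff hd Q
      rw [div_pow, mul_pow, h1, h2]
      field_simp
    · exact div_ne_zero (mul_ne_zero hyP hyQ) (pow_ne_zero _ hd)⟩

theorem rep_mkPt {d : K} (hd : d ≠ 0) {P Q : E d} (hyP : yc P ≠ 0) (hyQ : yc Q ≠ 0) :
    Rep (mkPt hd P Q hyP hyQ) d P Q := by
  refine ⟨hd, ?_, ?_, ?_, ?_, ?_⟩
  · rintro rfl; exact hyP yc_zero
  · rintro rfl; exact hyQ yc_zero
  · change xc P / d * d = xc P; field_simp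
  · change xc Q / d * d = xc Q; field_simp
  · change yc P * yc Q / d ^ 3 * d ^ 3 = _; field_simp

theorem Rep.ext {u v : Pt K} {d : K} {P Q : E d} (h : Rep u d P Q) (h' : Rep v d P Q) : u = v := by
  have hd := h.1
  apply Pt.ext
  · exact mul_right_cancel₀ hd (h.2.2.2.1.trans h'.2.2.2.1.symm)
  · exact mul_right_cancel₀ hd (h.2.2.2.2.1.trans h'.2.2.2.2.1.symm)
  · exact mul_right_cancel₀ (pow_ne_zero 3 hd) (h.2.2.2.2.2.trans h'.2.2.2.2.2.symm)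

end field

/-- square roots close to one -/
theorem sqrt_close {p : ℕ} [Fact p.Prime] (h2 : p ≠ 2) {r : ℚ_[p]} (h : ‖r - 1‖ < 1) :
    ∃ w : ℚ_[p], w ^ 2 = r ∧ ‖w - 1‖ ≤ ‖r - 1‖ ∧ ‖w‖ = 1 := by
  have hr : IsSquare r := isSquare_of_close h2 (by simpa using h) IsSquare.one
  obtain ⟨w, hw⟩ := hr
  have hr1 : ‖r‖ = 1 := by
    have : ‖r - 1‖ < ‖(1 : ℚ_[p])‖ := by simpa using h
    rw [neq_of_sub_lt this, norm_one]
  have hw1 : ‖w‖ = 1 := by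
    rw [hw, norm_mul] at hr1
    nlinarith [norm_nonneg w]
  have hprod : ‖w - 1‖ * ‖w + 1‖ = ‖r - 1‖ := by
    rw [← norm_mul, hw]; congr 1; ring
  have hm : ‖w - 1‖ ≤ 1 := nsub_le hw1.le (by simp)
  have hp' : ‖w + 1‖ ≤ 1 := nadd_le hw1.le (by simp)
  by_cases h1 : ‖w + 1‖ = 1
  · refine ⟨w, by rw [hw, sq], ?_, hw1⟩
    rw [h1, mul_one] at hprod
    exact hprod.le
  · have h3 : ‖w + 1‖ < 1 := lt_of_le_of_ne hp' h1
    have h4 : ‖w - 1‖ = 1 := by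
      have e : w - 1 = -(2 - (w + 1)) := by ring
      rw [e, norm_neg, nsub_eq (by rw [norm_two h2]; exact h3), norm_two h2]
    refine ⟨-w, by rw [hw]; ring, ?_, by rw [norm_neg, hw1]⟩
    rw [h4, one_mul] at hprod
    have e : -w - 1 = -(w + 1) := by ring
    rw [e, norm_neg]
    exact hprod.le

section local_

variable {p : ℕ} [hp : Fact p.Prime] [DecidableEq ℚ_[p]]

omit [DecidableEq ℚ_[p]] in
theorem continuous_ptx : Continuous (fun u : Pt ℚ_[p] => u.x) :=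
  continuous_fst.comp continuous_subtype_val

omit [DecidableEq ℚ_[p]] in
theorem continuous_pty : Continuous (fun u : Pt ℚ_[p] => u.y) :=
  (continuous_fst.comp continuous_snd).comp continuous_subtype_val

omit [DecidableEq ℚ_[p]] in
theorem continuous_ptz : Continuous (fun u : Pt ℚ_[p] => u.z) :=
  (continuous_snd.comp continuous_snd).comp continuous_subtype_val

omit [DecidableEq ℚ_[p]] in
theorem continuous_ff : Continuous (ff : ℚ_[p] → ℚ_[p]) := by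
  unfold ff; fun_prop

omit [DecidableEq ℚ_[p]] in
/-- neighbourhoods in `Pt` -/
theorem pt_nhds {v : Pt ℚ_[p]} {U : Set (Pt ℚ_[p])} (hU : U ∈ 𝓝 v) :
    ∃ ε : ℝ, 0 < ε ∧ ∀ u : Pt ℚ_[p], ‖u.x - v.x‖ < ε → ‖u.y - v.y‖ < ε → ‖u.z - v.z‖ < ε → u ∈ U := by
  obtain ⟨V, hV, hVU⟩ := mem_nhds_subtype _ _ _ |>.1 hU
  obtain ⟨ε, hε, hball⟩ := Metric.mem_nhds_iff.1 hV
  refine ⟨ε, hε, fun u h1 h2 h3 => hVU ?_⟩
  apply hball
  rw [Metric.mem_ball, Prod.dist_eq, Prod.dist_eq, max_lt_iff, max_lt_iff, dist_eq_norm,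
    dist_eq_norm, dist_eq_norm]
  exact ⟨h1, h2, h3⟩

/-- f2, local statement -/
theorem loc_f2 (h2 : p ≠ 2) {v : Pt ℚ_[p]} {d : ℚ_[p]} {P Q : E d} (hrep : Rep v d P Q) (n : ℕ) :
    ∀ᶠ u : Pt ℚ_[p] in 𝓝 v, ∃ c : ℚ_[p], c ≠ 0 ∧ ff u.x = d * c ^ 2 ∧
      ∀ A B : E d, A ≠ 0 → B ≠ 0 → xc A = d * u.x → yc A = d ^ 2 * c → xc B = d * u.y →
        yc B = d * u.z / c → fil n (A - P) ∧ fil n (B - Q) := by
  obtain ⟨hd, hP, hQ, hx, hy, hz⟩ := id hrep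
  obtain ⟨hyP, hyQ⟩ := hrep.yc_ne
  obtain ⟨ε₁, hε₁, H1⟩ := fil_of_close h2 hP hyP n
  obtain ⟨ε₂, hε₂, H2⟩ := fil_of_close h2 hQ hyQ n
  have hfx := hrep.ffx
  have hfv : ff v.x ≠ 0 := v.hfx
  -- small quantities
  have c1 : Continuous (fun u : Pt ℚ_[p] => ‖ff u.x / ff v.x - 1‖) := by
    have := (continuous_ff.comp (continuous_ptx (p := p)))
    exact ((this.div_const _).sub continuous_const).norm
  have c2 : Continuous (fun u : Pt ℚ_[p] => ‖d * u.x - xc P‖) :=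
    ((continuous_const.mul continuous_ptx).sub continuous_const).norm
  have c3 : Continuous (fun u : Pt ℚ_[p] => ‖d * u.y - xc Q‖) :=
    ((continuous_const.mul continuous_pty).sub continuous_const).norm
  have c4 : Continuous (fun u : Pt ℚ_[p] => ‖d ^ 3 / yc P‖ * ‖u.z - v.z‖) :=
    continuous_const.mul (continuous_ptz.sub continuous_const).norm
  have z1 : ‖ff v.x / ff v.x - 1‖ = 0 := by rw [div_self hfv]; simp
  have z2 : ‖d * v.x - xc P‖ = 0 := by rw [← hx]; simp [mul_comm]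
  have z3 : ‖d * v.y - xc Q‖ = 0 := by rw [← hy]; simp [mul_comm]
  have z4 : ‖d ^ 3 / yc P‖ * ‖v.z - v.z‖ = 0 := by simp
  have e0 : ∀ᶠ u : Pt ℚ_[p] in 𝓝 v, ‖ff u.x / ff v.x - 1‖ < 1 :=
    c1.continuousAt.eventually_lt continuousAt_const (by rw [z1]; exact one_pos)
  have hyPn : 0 < ‖yc P‖ := norm_pos_iff.2 hyP
  have e1 : ∀ᶠ u : Pt ℚ_[p] in 𝓝 v, ‖ff u.x / ff v.x - 1‖ < ε₁ / ‖yc P‖ :=
    c1.continuousAt.eventually_lt continuousAt_const (by rw [z1]; positivity)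
  have e2 : ∀ᶠ u : Pt ℚ_[p] in 𝓝 v, ‖d * u.x - xc P‖ < ε₁ :=
    c2.continuousAt.eventually_lt continuousAt_const (by rw [z2]; exact hε₁)
  have e3 : ∀ᶠ u : Pt ℚ_[p] in 𝓝 v, ‖d * u.y - xc Q‖ < ε₂ :=
    c3.continuousAt.eventually_lt continuousAt_const (by rw [z3]; exact hε₂)
  have e4 : ∀ᶠ u : Pt ℚ_[p] in 𝓝 v, ‖d ^ 3 / yc P‖ * ‖u.z - v.z‖ < ε₂ :=
    c4.continuousAt.eventually_lt continuousAt_const (by rw [z4]; exact hε₂)
  have hvz : 0 < ‖d ^ 3 / yc P * v.z‖ :=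
    norm_pos_iff.2 (mul_ne_zero (div_ne_zero (pow_ne_zero _ hd) hyP) v.hz)
  have e5 : ∀ᶠ u : Pt ℚ_[p] in 𝓝 v, ‖ff u.x / ff v.x - 1‖ < ε₂ / ‖d ^ 3 / yc P * v.z‖ :=
    c1.continuousAt.eventually_lt continuousAt_const (by rw [z1]; positivity)
  filter_upwards [e0, e1, e2, e3, e4, e5] with u h0 h1 h2' h3 h4 h5
  obtain ⟨w, hw, hw1, hwn⟩ := sqrt_close h2 h0
  have hw0 : w ≠ 0 := by rintro rfl; simp at hwn
  refine ⟨w * yc P / d ^ 2, ?_, ?_, ?_⟩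
  · exact div_ne_zero (mul_ne_zero hw0 hyP) (pow_ne_zero _ hd)
  · have : ff u.x = w ^ 2 * ff v.x := by rw [hw]; field_simp
    rw [this]
    have h6 : ff v.x = yc P ^ 2 / d ^ 3 := by rw [eq_div_iff (pow_ne_zero _ hd)]; linear_combination hfx
    rw [h6]; field_simp
  · intro A B hA hB xA yA xB yB
    constructor
    · apply H1 A hA
      · rw [xA]; exact h2'
      · rw [yA]
        have e : d ^ 2 * (w * yc P / d ^ 2) - yc P = (w - 1) * yc P := by field_simp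
        rw [e, norm_mul]
        calc ‖w - 1‖ * ‖yc P‖ ≤ ‖ff u.x / ff v.x - 1‖ * ‖yc P‖ := by gcongr
          _ < ε₁ := by rwa [lt_div_iff₀ hyPn] at h1
    · apply H2 B hB
      · rw [xB]; exact h3
      · rw [yB]
        have hQz : yc Q = d ^ 3 / yc P * v.z := by
          field_simp; linear_combination -hz
        have e : d * u.z / (w * yc P / d ^ 2) - yc Q =
            (1 / w) * (d ^ 3 / yc P * (u.z - v.z)) - ((w - 1) / w) * (d ^ 3 / yc P * v.z) := by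
          rw [hQz]; field_simp; ring
        rw [e]
        apply nsub_lt
        · rw [norm_mul, norm_div, hwn, norm_one, div_one, one_mul, norm_mul]
          exact h4
        · rw [norm_mul, norm_div, hwn, div_one]
          calc ‖w - 1‖ * ‖d ^ 3 / yc P * v.z‖ ≤ ‖ff u.x / ff v.x - 1‖ * ‖d ^ 3 / yc P * v.z‖ := by
                gcongr
            _ < ε₂ := by rwa [lt_div_iff₀ hvz] at h5

/-- f1, local statement -/
theorem loc_f1 {v : Pt ℚ_[p]} {d : ℚ_[p]} (hd0 : okl d 0) {P Q : E d} (hrep : Rep v d P Q)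
    {U : Set (Pt ℚ_[p])} (hU : U ∈ 𝓝 v) :
    ∃ n : ℕ, ∀ A B : E d, fil n (A - P) → fil n (B - Q) → A ≠ 0 ∧ B ≠ 0 ∧ yc A ≠ 0 ∧ yc B ≠ 0 ∧
      ∀ u : Pt ℚ_[p], Rep u d A B → u ∈ U := by
  obtain ⟨hd, hP, hQ, hx, hy, hz⟩ := id hrep
  obtain ⟨hyP, hyQ⟩ := hrep.yc_ne
  obtain ⟨ε, hε, H⟩ := pt_nhds hU
  have hdn : 0 < ‖d‖ := norm_pos_iff.2 hd
  have hyPn : 0 < ‖yc P‖ := norm_pos_iff.2 hyP
  have hyQn : 0 < ‖yc Q‖ := norm_pos_iff.2 hyQ
  set M : ℝ := max ‖yc P‖ ‖yc Q‖ with hM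
  have hMpos : 0 < M := lt_max_of_lt_left hyPn
  set η : ℝ := min (min (ε * ‖d‖) (ε * ‖d‖ ^ 3 / M)) (min ‖yc P‖ ‖yc Q‖) with hη
  have hηpos : 0 < η := by
    apply lt_min
    · apply lt_min <;> positivity
    · exact lt_min hyPn hyQn
  obtain ⟨n₁, H1⟩ := close_of_fil hd0 hP hηpos
  obtain ⟨n₂, H2⟩ := close_of_fil hd0 hQ hηpos
  refine ⟨max n₁ n₂, ?_⟩
  intro A B hA hB
  obtain ⟨a1, a2, a3⟩ := H1 A (fil_mono (le_max_left _ _) hA)
  obtain ⟨b1, b2, b3⟩ := H2 B (fil_mono (le_max_right _ _) hB)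
  have η1 : η ≤ ε * ‖d‖ := (min_le_left _ _).trans (min_le_left _ _)
  have η2 : η ≤ ε * ‖d‖ ^ 3 / M := (min_le_left _ _).trans (min_le_right _ _)
  have η3 : η ≤ ‖yc P‖ := (min_le_right _ _).trans (min_le_left _ _)
  have η4 : η ≤ ‖yc Q‖ := (min_le_right _ _).trans (min_le_right _ _)
  have hA' := neq_of_sub_lt (lt_of_lt_of_le a3 η3)
  have hB' := neq_of_sub_lt (lt_of_lt_of_le b3 η4)
  refine ⟨a1, b1, ?_, ?_, ?_⟩
  · rw [← norm_pos_iff, hA']; exact hyPn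
  · rw [← norm_pos_iff, hB']; exact hyQn
  intro u hu
  obtain ⟨-, -, -, ux, uy, uz⟩ := hu
  apply H
  · have e : u.x - v.x = (xc A - xc P) / d := by
      rw [← ux, ← hx]; field_simp
    rw [e, norm_div, div_lt_iff₀ hdn]
    exact lt_of_lt_of_le a2 η1
  · have e : u.y - v.y = (xc B - xc Q) / d := by
      rw [← uy, ← hy]; field_simp
    rw [e, norm_div, div_lt_iff₀ hdn]
    exact lt_of_lt_of_le b2 η1
  · have e : u.z - v.z = ((yc A - yc P) * yc B + yc P * (yc B - yc Q)) / d ^ 3 := by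
      have : (yc A - yc P) * yc B + yc P * (yc B - yc Q) = yc A * yc B - yc P * yc Q := by ring
      rw [this, ← uz, ← hz]; field_simp
    rw [e, norm_div, norm_pow, div_lt_iff₀ (by positivity)]
    have hηM : η * M ≤ ε * ‖d‖ ^ 3 := by rwa [le_div_iff₀ hMpos] at η2
    apply nadd_lt
    · rw [norm_mul, hB']
      calc ‖yc A - yc P‖ * ‖yc Q‖ < η * ‖yc Q‖ := by gcongr
        _ ≤ η * M := by gcongr; exact le_max_right _ _
        _ ≤ _ := hηM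
    · rw [norm_mul, mul_comm]
      calc ‖yc B - yc Q‖ * ‖yc P‖ < η * ‖yc P‖ := by gcongr
        _ ≤ η * M := by gcongr; exact le_max_left _ _
        _ ≤ _ := hηM

end local_

end KumWA
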