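import Pool.Agent.Helper9.KumWA.Kappa

/-!
# Changing the colours one place at a time
-/

namespace KumWA

open Topology Classical

variable {ι : Type*} [Fintype ι] (q : ι → ℕ) [hq : ∀ i, Fact (q i).Prime]

/-- every system with colours `c` is approximable -/
def RR (c : ι → Bool × Bool) : Prop :=
  ∀ (d : ∀ i, ℚ_[q i]) (P Q : ∀ i, E (d i)), (∀ i, nd (d i)) →
    (∀ i, par (P i) ↔ (c i).1 = false) → (∀ i, par (Q i) ↔ (c i).2 = false) → App q d P Q

/-- standing hypotheses -/
structure Hyp : Prop where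
  h8 : ∀ i, q i % 8 = 5
  hco : ∀ i j, i ≠ j → Nat.Coprime (q i * (q i + 1) / 2) (q j * (q j + 1) / 2)
  diag : ∀ v : ∀ i, Pt ℚ_[q i], (∀ i, (v i).y = (v i).x ∧ (v i).z = ff (v i).x) → Near q v

variable {q}

omit [Fintype ι] in
theorem Hyp.expo (H : Hyp q) {d : ∀ i, ℚ_[q i]} (hd : ∀ i, nd (d i)) (i : ι) : Expo (d i) :=
  fun P n => loc_exp (H.h8 i) (hd i) P n

/-- moving from a primitive system to an arbitrary one of the same colours -/
theorem Hyp.move (H : Hyp q) {d : ∀ i, ℚ_[q i]} (hd : ∀ i, nd (d i)) {A B P Q : ∀ i, E (d i)}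
    (hA : ∀ i, Gen (A i)) (hP : ∀ i, par (P i) ↔ par (A i)) (hQ : ∀ i, par (Q i) ↔ par (B i))
    (h : App q d A B) : App q d P Q := by
  have hok : ∀ i, okl (d i) 0 := fun i => nd_okl (hd i) 0
  apply App.closed hok
  intro n
  have h1 : ∀ i, ∃ j : ℤ, fil n (P i - A i - (2 * j) • A i) := fun i =>
    hA i n _ ((par_sub_iff (kHyp_padic (H.h8 i)) (nd_ne (hd i)) _ _).2 (hP i))
  have h2 : ∀ i, ∃ j : ℤ, fil n (Q i - B i - (2 * j) • A i) := fun i =>
    hA i n _ ((par_sub_iff (kHyp_padic (H.h8 i)) (nd_ne (hd i)) _ _).2 (hQ i))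
  choose j hj using h1
  choose k hk using h2
  refine ⟨_, _, App.crt hok (H.expo hd) H.h8 H.hco h (fun i => 1 + 2 * j i) (fun _ => 0)
    (fun i => 2 * k i) (fun _ => 1) 1 0 0 1 (fun i => ⟨j i, by ring⟩) (fun i => ⟨0, by ring⟩)
    (fun i => ⟨k i, by ring⟩) (fun i => ⟨0, by ring⟩), fun i => ⟨?_, ?_⟩⟩
  · have e : P i - ((1 + 2 * j i) • A i + (0 : ℤ) • B i) = P i - A i - (2 * j i) • A i := by
      rw [add_zsmul, one_zsmul, zero_zsmul]; abel
    rw [e]; exact hj i
  · have e : Q i - ((2 * k i) • A i + (1 : ℤ) • B i) = Q i - B i - (2 * k i) • A i := by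
      rw [one_zsmul]; abel
    rw [e]; exact hk i

/-- the base colouring -/
theorem Hyp.base (H : Hyp q) : RR q (fun _ => (false, false)) := by
  intro d P Q hd hP hQ
  have hok : ∀ i, okl (d i) 0 := fun i => nd_okl (hd i) 0
  choose A hA hApar hA0 hAy using fun i => loc_gen (H.h8 i) (hd i) True
  have hdiag : App q d A A := by
    refine app_of_near (fun i => p_ne_two (H.h8 i)) (H.diag
      (fun i => mkPt (nd_ne (hd i)) (A i) (A i) (hAy i) (hAy i)) (fun i => ⟨rfl, ?_⟩))
      (fun i => rep_mkPt (nd_ne (hd i)) (hAy i) (hAy i))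
    change yc (A i) * yc (A i) / d i ^ 3 = ff (xc (A i) / d i)
    have hd0 := nd_ne (hd i)
    rw [← sq, yc_sq_ff hd0]
    field_simp
  apply App.closed hok
  intro n
  have h1 : ∀ i, ∃ j : ℤ, fil n (P i - (2 * j) • A i) := fun i =>
    hA i n _ ((hP i).2 rfl)
  have h2 : ∀ i, ∃ j : ℤ, fil n (Q i - (2 * j) • A i) := fun i =>
    hA i n _ ((hQ i).2 rfl)
  choose j hj using h1
  choose k hk using h2
  refine ⟨_, _, App.crt hok (H.expo hd) H.h8 H.hco hdiag (fun i => 2 * j i) (fun _ => 0)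
    (fun i => 2 * k i) (fun _ => 0) 0 0 0 0 (fun i => ⟨j i, by ring⟩) (fun i => ⟨0, by ring⟩)
    (fun i => ⟨k i, by ring⟩) (fun i => ⟨0, by ring⟩), fun i => ⟨?_, ?_⟩⟩
  · have e : P i - ((2 * j i) • A i + (0 : ℤ) • A i) = P i - (2 * j i) • A i := by
      rw [zero_zsmul, add_zero]
    rw [e]; exact hj i
  · have e : Q i - ((2 * k i) • A i + (0 : ℤ) • A i) = Q i - (2 * k i) • A i := by
      rw [zero_zsmul, add_zero]
    rw [e]; exact hk i

section moves

variable (H : Hyp q)

include H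

omit [Fintype ι] in
theorem Hyp.m1 {c : ι → Bool × Bool} (h : RR q c) : RR q (fun i => (!(c i).1, (c i).2)) := by
  intro d P Q hd hP hQ
  have hd0 : ∀ i, d i ≠ 0 := fun i => nd_ne (hd i)
  have h1 : App q d (fun i => P i + T (hd0 i)) Q := by
    apply h d _ _ hd _ hQ
    intro i
    have hPi := hP i
    simp only [] at hPi
    rw [par_add_T_iff (kHyp_padic (H.h8 i)) (hd0 i), hPi]
    rcases c i with ⟨a, b⟩
    cases a <;> cases b <;> simp
  have h2 := h1.addT hd0
  have e : (fun i => P i + T (hd0 i) + T (hd0 i)) = P := by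
    funext i; rw [add_assoc, T_add_T, add_zero]
  rwa [e] at h2

omit [Fintype ι] in
theorem Hyp.m2 {c : ι → Bool × Bool} (h : RR q c) : RR q (fun i => ((c i).1, !(c i).2)) := by
  intro d P Q hd hP hQ
  have hd0 : ∀ i, d i ≠ 0 := fun i => nd_ne (hd i)
  have h1 : App q d P (fun i => Q i + T (hd0 i)) := by
    apply h d _ _ hd hP
    intro i
    have hQi := hQ i
    simp only [] at hQi
    rw [par_add_T_iff (kHyp_padic (H.h8 i)) (hd0 i), hQi]
    rcases c i with ⟨a, b⟩
    cases a <;> cases b <;> simp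
  have h2 := h1.addT' hd0
  have e : (fun i => Q i + T (hd0 i) + T (hd0 i)) = Q := by
    funext i; rw [add_assoc, T_add_T, add_zero]
  rwa [e] at h2

omit [Fintype ι] in
theorem Hyp.m3 {c : ι → Bool × Bool} (h : RR q c) :
    RR q (fun i => (xor (c i).1 (c i).2, (c i).2)) := by
  intro d P Q hd hP hQ
  have hd0 : ∀ i, d i ≠ 0 := fun i => nd_ne (hd i)
  have h1 : App q d (fun i => P i - Q i) Q := by
    apply h d _ _ hd _ hQ
    intro i
    have hPi := hP i
    have hQi := hQ i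
    simp only [] at hPi hQi
    rw [par_sub_iff (kHyp_padic (H.h8 i)) (hd0 i), hPi, hQi]
    rcases c i with ⟨a, b⟩
    cases a <;> cases b <;> simp
  have h2 := h1.lin (fun i => nd_okl (hd i) 0) 1 1 0 1
  have e : (fun i => (1 : ℤ) • (P i - Q i) + (1 : ℤ) • Q i) = P := by
    funext i; rw [one_zsmul, one_zsmul]; abel
  have e' : (fun i => (0 : ℤ) • (P i - Q i) + (1 : ℤ) • Q i) = Q := by
    funext i; rw [one_zsmul, zero_zsmul, zero_add]
  rwa [e, e'] at h2

omit [Fintype ι] in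
theorem Hyp.m4 {c : ι → Bool × Bool} (h : RR q c) :
    RR q (fun i => ((c i).1, xor (c i).1 (c i).2)) := by
  intro d P Q hd hP hQ
  have hd0 : ∀ i, d i ≠ 0 := fun i => nd_ne (hd i)
  have h1 : App q d P (fun i => Q i - P i) := by
    apply h d _ _ hd hP
    intro i
    have hPi := hP i
    have hQi := hQ i
    simp only [] at hPi hQi
    rw [par_sub_iff (kHyp_padic (H.h8 i)) (hd0 i), hPi, hQi]
    rcases c i with ⟨a, b⟩
    cases a <;> cases b <;> simp
  have h2 := h1.lin (fun i => nd_okl (hd i) 0) 1 0 1 1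
  have e : (fun i => (1 : ℤ) • P i + (0 : ℤ) • (Q i - P i)) = P := by
    funext i; rw [one_zsmul, zero_zsmul, add_zero]
  have e' : (fun i => (1 : ℤ) • P i + (1 : ℤ) • (Q i - P i)) = Q := by
    funext i; rw [one_zsmul, one_zsmul]; abel
  rwa [e, e'] at h2

/-- core step: at the place `i₀` the system `(d, P, Q)` has the colour of a kappa = 1 pair -/
theorem Hyp.core {c : ι → Bool × Bool} (h : RR q c) (i₀ : ι) (d : ∀ i, ℚ_[q i])
    (hd : ∀ i, nd (d i)) (A₀ B₀ : E (d i₀)) (hA₀ : Gen A₀) (hyA₀ : yc A₀ ≠ 0) (hyB₀ : yc B₀ ≠ 0)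
    (hk : Dn (xc A₀ / d i₀) (xc B₀ / d i₀) ≠ 0 ∧ xc A₀ / d i₀ + xc B₀ / d i₀ + 4 ≠ 0 ∧
      qn (xc A₀ / d i₀) (xc B₀ / d i₀) ≠ 0 ∧ IsSquare (qn (xc A₀ / d i₀) (xc B₀ / d i₀)))
    (hc1 : par A₀ ↔ ¬ (c i₀).1 = false) (hc2 : par B₀ ↔ ¬ (c i₀).2 = false)
    (P Q : ∀ i, E (d i)) (hP₀ : par (P i₀) ↔ par A₀) (hQ₀ : par (Q i₀) ↔ par B₀)
    (hP : ∀ i, i ≠ i₀ → (par (P i) ↔ (c i).1 = false))
    (hQ : ∀ i, i ≠ i₀ → (par (Q i) ↔ (c i).2 = false)) : App q d P Q := by
  -- choose primitive systems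
  have hex : ∀ i, ∃ A B : E (d i), Gen A ∧ (par (P i) ↔ par A) ∧ (par (Q i) ↔ par B) ∧
      ∃ (hyA : yc A ≠ 0) (hyB : yc B ≠ 0), ∃ hI : IOK (mkPt (nd_ne (hd i)) A B hyA hyB),
      (IsSquare (gg (iota _ hI).x) ↔ (c i).1 = false) ∧
      (IsSquare (gg (iota _ hI).y) ↔ (c i).2 = false) := by
    intro i
    have hK := kHyp_padic (H.h8 i)
    have hd0 := nd_ne (hd i)
    by_cases hi : i = i₀
    · subst hi
      refine ⟨A₀, B₀, hA₀, hP₀, hQ₀, hyA₀, hyB₀, ⟨hk.1, hk.2.1, hk.2.2.1⟩, ?_, ?_⟩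
      · change IsSquare (gg (rho (xc A₀ / d i) (xc B₀ / d i) * (xc A₀ / d i))) ↔ _
        rw [gg_rho hk.1, ← not_iff_not, ← hc1, par_iff_gg hd0 hyA₀]
        have e : 2 * qn (xc A₀ / d i) (xc B₀ / d i) * gg (xc A₀ / d i) /
            Dn (xc A₀ / d i) (xc B₀ / d i) ^ 2 = 2 * (qn (xc A₀ / d i) (xc B₀ / d i) /
            Dn (xc A₀ / d i) (xc B₀ / d i) ^ 2) * gg (xc A₀ / d i) := by ring
        rw [e, flip_iff hK (div_ne_zero hk.2.2.1 (pow_ne_zero _ hk.1)) (hk.2.2.2.div (IsSquare.sq _))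
          (hK.gg_ne _) (hK.gg_cases _), not_not]
      · change IsSquare (gg (rho (xc A₀ / d i) (xc B₀ / d i) * (xc B₀ / d i))) ↔ _
        rw [gg_rho' hk.1, ← not_iff_not, ← hc2, par_iff_gg hd0 hyB₀]
        have e : 2 * qn (xc A₀ / d i) (xc B₀ / d i) * gg (xc B₀ / d i) /
            Dn (xc A₀ / d i) (xc B₀ / d i) ^ 2 = 2 * (qn (xc A₀ / d i) (xc B₀ / d i) /
            Dn (xc A₀ / d i) (xc B₀ / d i) ^ 2) * gg (xc B₀ / d i) := by ring
        rw [e, flip_iff hK (div_ne_zero hk.2.2.1 (pow_ne_zero _ hk.1)) (hk.2.2.2.div (IsSquare.sq _))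
          (hK.gg_ne _) (hK.gg_cases _), not_not]
    · obtain ⟨A, hA, hAc, hA0, hyA⟩ := loc_gen (H.h8 i) (hd i) (par (P i))
      obtain ⟨B, hBc, hyB, k1, k2, k3, k4⟩ := kappa0 (H.h8 i) (hd i) hyA (par (Q i))
      refine ⟨A, B, hA, hAc.symm, hBc.symm, hyA, hyB, ⟨k1, k2, k3⟩, ?_, ?_⟩
      · change IsSquare (gg (rho (xc A / d i) (xc B / d i) * (xc A / d i))) ↔ _
        rw [gg_rho k1]
        have e : 2 * qn (xc A / d i) (xc B / d i) * gg (xc A / d i) /
            Dn (xc A / d i) (xc B / d i) ^ 2 = (2 * qn (xc A / d i) (xc B / d i) /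
            Dn (xc A / d i) (xc B / d i) ^ 2) * gg (xc A / d i) := by ring
        rw [e, isSquare_mul_iff (div_ne_zero (mul_ne_zero two_ne_zero k3) (pow_ne_zero _ k1))
          (k4.div (IsSquare.sq _)), ← par_iff_gg hd0 hyA, hAc, hP i hi]
      · change IsSquare (gg (rho (xc A / d i) (xc B / d i) * (xc B / d i))) ↔ _
        rw [gg_rho' k1]
        have e : 2 * qn (xc A / d i) (xc B / d i) * gg (xc B / d i) /
            Dn (xc A / d i) (xc B / d i) ^ 2 = (2 * qn (xc A / d i) (xc B / d i) /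
            Dn (xc A / d i) (xc B / d i) ^ 2) * gg (xc B / d i) := by ring
        rw [e, isSquare_mul_iff (div_ne_zero (mul_ne_zero two_ne_zero k3) (pow_ne_zero _ k1))
          (k4.div (IsSquare.sq _)), ← par_iff_gg hd0 hyB, hBc, hQ i hi]
  choose A B hA hPA hQB hyA hyB hI hcol1 hcol2 using hex
  apply H.move hd hA hPA hQB
  -- `App q d A B` through the involution
  set w : ∀ i, Pt ℚ_[q i] := fun i => mkPt (nd_ne (hd i)) (A i) (B i) (hyA i) (hyB i) with hw
  apply app_of_near (fun i => p_ne_two (H.h8 i)) (v := w) _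
    (fun i => rep_mkPt (nd_ne (hd i)) (hyA i) (hyB i))
  apply near_of_iota hI
  choose d' P' Q' hd' hrep using fun i => exists_rep (iota (w i) (hI i))
  apply near_of_app (fun i => nd_okl (hd' i) 0) _ hrep
  apply h d' P' Q' hd'
  · intro i
    rw [(hrep i).par₁]; exact hcol1 i
  · intro i
    rw [(hrep i).par₂]; exact hcol2 i

/-- flipping both colours at one place -/
theorem Hyp.m11 {c : ι → Bool × Bool} (h : RR q c) (i₀ : ι) :
    RR q (Function.update c i₀ (!(c i₀).1, !(c i₀).2)) := by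
  intro d P Q hd hP hQ
  have hK := kHyp_padic (H.h8 i₀)
  have hd0 : ∀ i, d i ≠ 0 := fun i => nd_ne (hd i)
  obtain ⟨A, hA, hAc, hA0, hyA⟩ := loc_gen (H.h8 i₀) (hd i₀) False
  have hApar : ¬ par A := fun h' => hAc.1 h'
  obtain ⟨B, hyB, k⟩ := kappa1 hK (padic_neg_one_sq (H.h8 i₀)) (hd0 i₀) hApar hyA
  have hP₀ := hP i₀
  have hQ₀ := hQ i₀
  rw [Function.update_self] at hP₀ hQ₀
  have hPi : ∀ i, i ≠ i₀ → (par (P i) ↔ (c i).1 = false) := fun i hi => by
    have := hP i; rwa [Function.update_of_ne hi] at this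
  have hQi : ∀ i, i ≠ i₀ → (par (Q i) ↔ (c i).2 = false) := fun i hi => by
    have := hQ i; rwa [Function.update_of_ne hi] at this
  -- translation cases
  have eT : ∀ X : ∀ i, E (d i), (fun i => X i + T (hd0 i) + T (hd0 i)) = X := by
    intro X; funext i; rw [add_assoc, T_add_T, add_zero]
  have pT : ∀ (X : ∀ i, E (d i)) (i : ι), par (X i + T (hd0 i)) ↔ ¬ par (X i) :=
    fun X i => par_add_T_iff (kHyp_padic (H.h8 i)) (hd0 i) _
  have bn : ∀ b : Bool, (¬ b = false) ↔ ((!b) = false) := by decide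
  have bn' : ∀ b : Bool, ((!b) = false) ↔ ¬ b = false := by decide
  by_cases h1 : par (P i₀) ↔ par A
  · by_cases h2 : par (Q i₀) ↔ par B
    · refine H.core h i₀ d hd A B hA hyA hyB k ?_ ?_ P Q h1 h2 hPi hQi
      · rw [← h1, hP₀]; exact bn' _
      · rw [← h2, hQ₀]; exact bn' _
    · have h2' := _root_.not_iff.1 h2
      have := H.core (H.m2 h) i₀ d hd A B hA hyA hyB k (by rw [← h1, hP₀]; exact bn' _)
        (by rw [← h2', hQ₀]) P (fun i => Q i + T (hd0 i)) h1 ((pT Q i₀).trans h2') hPi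
        (fun i hi => by rw [pT, hQi i hi]; exact bn _)
      have h3 := this.addT' hd0
      rwa [eT] at h3
  · have h1' := _root_.not_iff.1 h1
    by_cases h2 : par (Q i₀) ↔ par B
    · have := H.core (H.m1 h) i₀ d hd A B hA hyA hyB k (by rw [← h1', hP₀])
        (by rw [← h2, hQ₀]; exact bn' _) (fun i => P i + T (hd0 i)) Q ((pT P i₀).trans h1') h2
        (fun i hi => by rw [pT, hPi i hi]; exact bn _) hQi
      have h3 := this.addT hd0
      rwa [eT] at h3
    · have h2' := _root_.not_iff.1 h2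
      have := H.core (H.m2 (H.m1 h)) i₀ d hd A B hA hyA hyB k (by rw [← h1', hP₀])
        (by rw [← h2', hQ₀]) (fun i => P i + T (hd0 i)) (fun i => Q i + T (hd0 i))
        ((pT P i₀).trans h1') ((pT Q i₀).trans h2')
        (fun i hi => by rw [pT, hPi i hi]; exact bn _)
        (fun i hi => by rw [pT, hQi i hi]; exact bn _)
      have h3 := (this.addT hd0).addT' hd0
      rwa [eT, eT] at h3

/-- flipping the first colour at one place -/
theorem Hyp.f1 {c : ι → Bool × Bool} (h : RR q c) (i₀ : ι) :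
    RR q (Function.update c i₀ (!(c i₀).1, (c i₀).2)) := by
  have h1 := H.m4 (H.m11 (H.m4 h) i₀)
  have e : (fun i => ((Function.update (fun i => ((c i).1, xor (c i).1 (c i).2)) i₀
      (!(c i₀).1, !(xor (c i₀).1 (c i₀).2)) i).1,
      xor (Function.update (fun i => ((c i).1, xor (c i).1 (c i).2)) i₀
      (!(c i₀).1, !(xor (c i₀).1 (c i₀).2)) i).1
      (Function.update (fun i => ((c i).1, xor (c i).1 (c i).2)) i₀
      (!(c i₀).1, !(xor (c i₀).1 (c i₀).2)) i).2)) =
      Function.update c i₀ (!(c i₀).1, (c i₀).2) := by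
    funext i
    by_cases hi : i = i₀
    · subst hi
      simp only [Function.update_self]
      cases (c i).1 <;> cases (c i).2 <;> rfl
    · simp only [Function.update_of_ne hi]
      rcases hci : c i with ⟨a, b⟩
      cases a <;> cases b <;> rfl
  rwa [e] at h1

/-- flipping the second colour at one place -/
theorem Hyp.f2 {c : ι → Bool × Bool} (h : RR q c) (i₀ : ι) :
    RR q (Function.update c i₀ ((c i₀).1, !(c i₀).2)) := by
  have h1 := H.f1 (H.m11 h i₀) i₀
  have e : Function.update (Function.update c i₀ (!(c i₀).1, !(c i₀).2)) i₀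
      (!(Function.update c i₀ (!(c i₀).1, !(c i₀).2) i₀).1,
        (Function.update c i₀ (!(c i₀).1, !(c i₀).2) i₀).2) =
      Function.update c i₀ ((c i₀).1, !(c i₀).2) := by
    rw [Function.update_idem, Function.update_self, Bool.not_not]
  rwa [e] at h1

theorem Hyp.upd {c : ι → Bool × Bool} (h : RR q c) (i₀ : ι) (a : Bool × Bool) :
    RR q (Function.update c i₀ a) := by
  rcases hc : c i₀ with ⟨x, y⟩
  rcases a with ⟨a, b⟩
  have g0 := h
  have g1 := H.f1 h i₀
  have g2 := H.f2 h i₀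
  have g3 := H.m11 h i₀
  rw [hc] at g1 g2 g3
  have e0 : Function.update c i₀ (x, y) = c := by rw [← hc, Function.update_eq_self]
  rw [← e0] at g0
  cases x <;> cases y <;> cases a <;> cases b <;>
    first
      | exact g0
      | exact g1
      | exact g2
      | exact g3

theorem Hyp.all (c : ι → Bool × Bool) : RR q c := by
  have key : ∀ s : Finset ι, RR q (fun i => if i ∈ s then c i else (false, false)) := by
    intro s
    induction s using Finset.induction_on with
    | empty => simpa using H.base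
    | insert i s hi ih =>
      have := H.upd ih i (c i)
      have e : Function.update (fun i => if i ∈ s then c i else (false, false)) i (c i) =
          fun j => if j ∈ insert i s then c j else (false, false) := by
        funext j
        by_cases hj : j = i
        · subst hj; simp
        · simp [Finset.mem_insert, hj]
      rwa [e] at this
  have := key Finset.univ
  simpa using this

/-- every family of local points is a limit of rational points -/
theorem Hyp.near (v : ∀ i, Pt ℚ_[q i]) : Near q v := by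
  choose d P Q hd hrep using fun i => exists_rep (v i)
  apply near_of_app (fun i => nd_okl (hd i) 0) _ hrep
  apply H.all (fun i => (!decide (par (P i)), !decide (par (Q i)))) d P Q hd
  · intro i; simp
  · intro i; simp

end moves

end KumWA
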