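import Pool.Agent.Helper9.KumWA.Defs

/-!
# Elementary group law facts on `W d`
-/

namespace KumWA

open WeierstrassCurve WeierstrassCurve.Affine

variable {K : Type*} [Field K]

theorem W_eq (d x y : K) :
    (W d).Equation x y ↔ y ^ 2 = x ^ 3 + 4 * d * x ^ 2 + 2 * d ^ 2 * x := by
  rw [equation_iff]
  simp [W]

@[simp] theorem W_negY (d x y : K) : (W d).negY x y = -y := by
  simp [negY, W]

theorem W_disc (d : K) : (W d).Δ = 512 * d ^ 6 := by
  simp only [WeierstrassCurve.Δ, WeierstrassCurve.b₂, WeierstrassCurve.b₄, WeierstrassCurve.b₆,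
    WeierstrassCurve.b₈, W]
  ring

theorem W_nonsing [CharZero K] {d : K} (hd : d ≠ 0) {x y : K}
    (h : y ^ 2 = x ^ 3 + 4 * d * x ^ 2 + 2 * d ^ 2 * x) : (W d).Nonsingular x y := by
  rw [← equation_iff_nonsingular_of_Δ_ne_zero]
  · exact (W_eq d x y).2 h
  · rw [W_disc]
    exact mul_ne_zero (by norm_num) (pow_ne_zero _ hd)

/-- constructor of affine points -/
def mkP [CharZero K] {d : K} (hd : d ≠ 0) (x y : K)
    (h : y ^ 2 = x ^ 3 + 4 * d * x ^ 2 + 2 * d ^ 2 * x) : E d :=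
  .some x y (W_nonsing hd h)

@[simp] theorem xc_mkP [CharZero K] {d : K} (hd : d ≠ 0) (x y : K)
    (h : y ^ 2 = x ^ 3 + 4 * d * x ^ 2 + 2 * d ^ 2 * x) : xc (mkP hd x y h) = x := rfl

@[simp] theorem yc_mkP [CharZero K] {d : K} (hd : d ≠ 0) (x y : K)
    (h : y ^ 2 = x ^ 3 + 4 * d * x ^ 2 + 2 * d ^ 2 * x) : yc (mkP hd x y h) = y := rfl

theorem mkP_ne [CharZero K] {d : K} (hd : d ≠ 0) (x y : K)
    (h : y ^ 2 = x ^ 3 + 4 * d * x ^ 2 + 2 * d ^ 2 * x) : mkP hd x y h ≠ 0 :=
  Point.some_ne_zero _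

/-- the 2-torsion point (0,0) -/
def T [CharZero K] {d : K} (hd : d ≠ 0) : E d := mkP hd 0 0 (by ring)

@[simp] theorem xc_T [CharZero K] {d : K} (hd : d ≠ 0) : xc (T hd) = 0 := rfl

@[simp] theorem yc_T [CharZero K] {d : K} (hd : d ≠ 0) : yc (T hd) = 0 := rfl

theorem T_ne [CharZero K] {d : K} (hd : d ≠ 0) : T hd ≠ 0 := Point.some_ne_zero _

@[simp] theorem xc_zero {d : K} : xc (0 : E d) = 0 := rfl

@[simp] theorem yc_zero {d : K} : yc (0 : E d) = 0 := rfl

@[simp] theorem xc_neg {d : K} (P : E d) : xc (-P) = xc P := by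
  cases P <;> rfl

@[simp] theorem yc_neg {d : K} (P : E d) : yc (-P) = - yc P := by
  cases P with
  | zero => exact neg_zero.symm
  | some x y h =>
    change (W d).negY x y = - y
    exact W_negY d x y

theorem curve_eq {d : K} (P : E d) :
    yc P ^ 2 = xc P ^ 3 + 4 * d * xc P ^ 2 + 2 * d ^ 2 * xc P := by
  cases P with
  | zero => change (0 : K) ^ 2 = 0 ^ 3 + 4 * d * 0 ^ 2 + 2 * d ^ 2 * 0; ring
  | some x y h => exact (W_eq d x y).1 h.1

theorem pt_ext {d : K} {P Q : E d} (hP : P ≠ 0) (hQ : Q ≠ 0) (hx : xc P = xc Q)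
    (hy : yc P = yc Q) : P = Q := by
  cases P with
  | zero => exact absurd rfl hP
  | some x y h =>
    cases Q with
    | zero => exact absurd rfl hQ
    | some x' y' h' =>
      have h1 : x = x' := hx
      have h2 : y = y' := hy
      subst h1 h2
      rfl

theorem xc_eq_iff {d : K} {P Q : E d} (hP : P ≠ 0) (hQ : Q ≠ 0) :
    xc P = xc Q ↔ P = Q ∨ P = -Q := by
  cases P with
  | zero => exact absurd rfl hP
  | some x y h =>
    cases Q with
    | zero => exact absurd rfl hQ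
    | some x' y' h' => exact Point.X_eq_iff

theorem neg_ne {d : K} {P : E d} (hP : P ≠ 0) : -P ≠ 0 := by
  intro h
  apply hP
  have : - - P = - 0 := by rw [h]
  simpa using this

variable [DecidableEq K]

/-- The fundamental collinearity statement. -/
theorem line_of_add_eq_zero {d : K} {P Q R : E d} (hP : P ≠ 0) (hQ : Q ≠ 0) (hR : R ≠ 0)
    (h : P + Q + R = 0) : ∃ L c : K, yc P = L * xc P + c ∧ yc Q = L * xc Q + c ∧
      yc R = L * xc R + c ∧ xc P + xc Q + xc R = L ^ 2 - 4 * d ∧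
      xc P * xc Q + xc P * xc R + xc Q * xc R = 2 * d ^ 2 - 2 * L * c ∧
      xc P * xc Q * xc R = c ^ 2 := by
  have hR' : R = -(P + Q) := by
    rw [eq_neg_iff_add_eq_zero, add_comm]; exact h
  cases P with
  | zero => exact absurd rfl hP
  | some x₁ y₁ h₁ =>
    cases Q with
    | zero => exact absurd rfl hQ
    | some x₂ y₂ h₂ =>
      by_cases hxy : x₁ = x₂ ∧ y₁ = (W d).negY x₂ y₂
      · exfalso
        apply hR
        rw [hR', Point.add_of_Y_eq hxy.1 hxy.2]
        rfl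
      · set L := (W d).slope x₁ x₂ y₁ y₂ with hL
        have hadd : Point.some x₁ y₁ h₁ + Point.some x₂ y₂ h₂ = -Point.some _ _ (nonsingular_negAdd h₁ h₂ hxy) := by
          rw [Point.add_some hxy]
          rfl
        have hRR : R = Point.some _ _ (nonsingular_negAdd h₁ h₂ hxy) := by
          rw [hR', hadd, neg_neg]
        have hpoly := addPolynomial_slope h₁.1 h₂.1 hxy
        have hpoly2 := (W d).addPolynomial_eq x₁ y₁ L
        rw [← hL] at hpoly
        set x₃ := (W d).addX x₁ x₂ L with hx₃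
        have hx₃' : x₃ = L ^ 2 - 4 * d - x₁ - x₂ := by
          rw [hx₃, addX]; simp [W]
        have hev : ∀ t : K, -((t - x₁) * (t - x₂) * (t - x₃)) =
            -(t ^ 3 + (- L ^ 2 + 4 * d) * t ^ 2 + (2 * x₁ * L ^ 2 + (- 2 * y₁) * L + 2 * d ^ 2) * t
              + (- x₁ ^ 2 * L ^ 2 + 2 * x₁ * y₁ * L - y₁ ^ 2)) := by
          intro t
          have := congrArg (Polynomial.eval t) (hpoly.symm.trans hpoly2)
          simp only [Cubic.toPoly, Polynomial.eval_neg, Polynomial.eval_mul, Polynomial.eval_sub,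
            Polynomial.eval_X, Polynomial.eval_C, Polynomial.eval_add, Polynomial.eval_pow] at this
          rw [this]
          simp only [W]
          ring
        have h0 := hev 0
        have h1 := hev 1
        refine ⟨L, y₁ - L * x₁, ?_, ?_, ?_, ?_, ?_, ?_⟩
        · change y₁ = L * x₁ + (y₁ - L * x₁)
          ring
        · change y₂ = L * x₂ + (y₁ - L * x₁)
          by_cases hx : x₁ = x₂
          · have hy : y₁ ≠ (W d).negY x₂ y₂ := fun hy => hxy ⟨hx, hy⟩
            have := Y_eq_of_Y_ne h₁.1 h₂.1 hx hy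
            rw [hx, this]; ring
          · rw [hL, slope_of_X_ne hx]
            have : x₁ - x₂ ≠ 0 := sub_ne_zero.2 hx
            field_simp
            ring
        · rw [hRR]
          change (W d).negAddY x₁ x₂ y₁ L = L * x₃ + (y₁ - L * x₁)
          rw [negAddY, ← hx₃]
          ring
        · rw [hRR]
          change x₁ + x₂ + x₃ = _
          rw [hx₃']; ring
        · rw [hRR]
          change x₁ * x₂ + x₁ * x₃ + x₂ * x₃ = _
          rw [hx₃'] at h0 h1 ⊢
          linear_combination h0 - h1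
        · rw [hRR]
          change x₁ * x₂ * x₃ = _
          linear_combination h0

theorem two_tors_eq [CharZero K] {d : K} {P : E d} (h : P + P = 0) : yc P = 0 := by
  have h1 : P = -P := eq_neg_iff_add_eq_zero.2 h
  have h2 : yc P = - yc P := by
    conv_lhs => rw [h1]
    exact yc_neg P
  have : 2 * yc P = 0 := by linear_combination h2
  simpa using this

theorem add_self_of_yc {d : K} {P : E d} (h : yc P = 0) : P + P = 0 := by
  cases P with
  | zero => exact add_zero _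
  | some x y h' =>
    have : y = 0 := h
    apply Point.add_self_of_Y_eq
    rw [W_negY, this, neg_zero]

/-- if `P + Q ≠ 0`, both affine, we get the line through `P`, `Q`, `-(P+Q)` -/
theorem line_add {d : K} {P Q : E d} (hP : P ≠ 0) (hQ : Q ≠ 0) (hR : P + Q ≠ 0) :
    ∃ L c : K, yc P = L * xc P + c ∧ yc Q = L * xc Q + c ∧
      yc (P + Q) = -(L * xc (P + Q) + c) ∧ xc P + xc Q + xc (P + Q) = L ^ 2 - 4 * d ∧
      xc P * xc Q + xc P * xc (P + Q) + xc Q * xc (P + Q) = 2 * d ^ 2 - 2 * L * c ∧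
      xc P * xc Q * xc (P + Q) = c ^ 2 := by
  obtain ⟨L, c, h1, h2, h3, h4, h5, h6⟩ := line_of_add_eq_zero hP hQ (neg_ne hR)
    (add_neg_cancel (P + Q))
  rw [yc_neg] at h3
  rw [xc_neg] at h3 h4 h5 h6
  refine ⟨L, c, h1, h2, ?_, h4, h5, h6⟩
  rw [← h3, neg_neg]

omit [DecidableEq K] in
theorem sing_of_line [CharZero K] {d : K} (hd : d ≠ 0) {x L c x3 : K} (h0 : L * x + c = 0)
    (h1 : 2 * x + x3 = L ^ 2 - 4 * d) (h2 : x ^ 2 + 2 * x * x3 = 2 * d ^ 2 - 2 * L * c)
    (h3 : x ^ 2 * x3 = c ^ 2) : False := by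
  have f0 : x * (x ^ 2 + 4 * d * x + 2 * d ^ 2) = 0 := by
    linear_combination (L * x + c) * h0 + x ^ 2 * h1 - x * h2 + h3
  have f1 : 3 * x ^ 2 + 8 * d * x + 2 * d ^ 2 = 0 := by
    linear_combination 2 * L * h0 + 2 * x * h1 - h2
  rcases mul_eq_zero.1 f0 with hx | hg
  · rw [hx] at f1
    have : d ^ 2 = 0 := by
      have : 2 * d ^ 2 = 0 := by linear_combination f1
      simpa using this
    exact hd (pow_eq_zero_iff two_ne_zero |>.1 this)
  · have h4 : x * (x + 2 * d) = 0 := by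
      have : 2 * (x * (x + 2 * d)) = 0 := by linear_combination f1 - hg
      simpa using this
    rcases mul_eq_zero.1 h4 with hx | hx
    · rw [hx] at hg
      have : d ^ 2 = 0 := by
        have : 2 * d ^ 2 = 0 := by linear_combination hg
        simpa using this
      exact hd (pow_eq_zero_iff two_ne_zero |>.1 this)
    · have hx' : x = - (2 * d) := eq_neg_of_add_eq_zero_left hx
      rw [hx'] at hg
      have : d ^ 2 = 0 := by
        have : 2 * d ^ 2 = 0 := by linear_combination - hg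
        simpa using this
      exact hd (pow_eq_zero_iff two_ne_zero |>.1 this)

/-- three affine points cut out by a line add up to zero -/
theorem add_eq_zero_of_line [CharZero K] {d : K} (hd : d ≠ 0) {P Q R : E d} (hP : P ≠ 0)
    (hQ : Q ≠ 0) (hR : R ≠ 0) {L c : K} (h1 : yc P = L * xc P + c) (h2 : yc Q = L * xc Q + c)
    (h3 : yc R = L * xc R + c) (h4 : xc P + xc Q + xc R = L ^ 2 - 4 * d)
    (h5 : xc P * xc Q + xc P * xc R + xc Q * xc R = 2 * d ^ 2 - 2 * L * c)
    (h6 : xc P * xc Q * xc R = c ^ 2) : P + Q + R = 0 := by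
  by_cases hPQ : P + Q = 0
  · exfalso
    have hQP : Q = -P := (neg_eq_of_add_eq_zero_right hPQ).symm
    have hx : xc Q = xc P := by rw [hQP, xc_neg]
    have hy : yc Q = - yc P := by rw [hQP, yc_neg]
    rw [hx] at h2 h4 h5 h6
    rw [hy] at h2
    have hy0 : L * xc P + c = 0 := by
      have : 2 * (L * xc P + c) = 0 := by linear_combination -h1 - h2
      simpa using this
    exact sing_of_line (x3 := xc R) hd hy0 (by linear_combination h4) (by linear_combination h5)
      (by linear_combination h6)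
  · obtain ⟨L', c', g1, g2, g3, g4, g5, g6⟩ := line_add hP hQ hPQ
    have hLL : L = L' ∧ c = c' := by
      by_cases hx : xc P = xc Q
      · -- tangent case
        have hPQ' : P = Q := by
          rcases (xc_eq_iff hP hQ).1 hx with h | h
          · exact h
          · exfalso; apply hPQ; rw [h]; exact neg_add_cancel Q
        have hy0 : yc P ≠ 0 := by
          intro hy
          apply hPQ
          rw [← hPQ']
          exact add_self_of_yc hy
        rw [← hx] at h4 h5 h6 g4 g5 g6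
        have e1 : 2 * L * yc P = 3 * xc P ^ 2 + 8 * d * xc P + 2 * d ^ 2 := by
          linear_combination 2 * L * h1 - 2 * xc P * h4 + h5
        have e2 : 2 * L' * yc P = 3 * xc P ^ 2 + 8 * d * xc P + 2 * d ^ 2 := by
          linear_combination 2 * L' * g1 - 2 * xc P * g4 + g5
        have e3 : L = L' := by
          have : 2 * yc P * (L - L') = 0 := by linear_combination e1 - e2
          have h2y : 2 * yc P ≠ 0 := by simpa using hy0
          exact sub_eq_zero.1 ((mul_eq_zero.1 this).resolve_left h2y)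
        refine ⟨e3, ?_⟩
        rw [e3] at h1
        linear_combination g1 - h1
      · have e3 : L = L' := by
          have : (xc P - xc Q) * (L - L') = 0 := by linear_combination - h1 + h2 + g1 - g2
          exact sub_eq_zero.1 ((mul_eq_zero.1 this).resolve_left (sub_ne_zero.2 hx))
        refine ⟨e3, ?_⟩
        rw [e3] at h1
        linear_combination g1 - h1
    obtain ⟨rfl, rfl⟩ := hLL
    have hxR : xc (P + Q) = xc R := by linear_combination g4 - h4
    have hyR : yc (P + Q) = - yc R := by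
      rw [g3, h3, hxR]
    have : P + Q = -R := by
      apply pt_ext hPQ (neg_ne hR)
      · rw [xc_neg, hxR]
      · rw [yc_neg, hyR]
    rw [this]
    exact neg_add_cancel R

/-- maps preserving zero, negation and collinearity are additive -/
theorem additive_of_line {L : Type*} [Field L] [DecidableEq L] {d : K} {e : L} (f : E d → E e)
    (h0 : f 0 = 0) (hneg : ∀ P, f (-P) = - f P)
    (hline : ∀ P Q R : E d, P ≠ 0 → Q ≠ 0 → R ≠ 0 → P + Q + R = 0 → f P + f Q + f R = 0)
    (P Q : E d) : f (P + Q) = f P + f Q := by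
  by_cases hP : P = 0
  · rw [hP, h0, zero_add, zero_add]
  by_cases hQ : Q = 0
  · rw [hQ, h0, add_zero, add_zero]
  by_cases hPQ : P + Q = 0
  · have hQP : Q = -P := (neg_eq_of_add_eq_zero_right hPQ).symm
    rw [hPQ, hQP, hneg, h0]
    exact (add_neg_cancel (f P)).symm
  · have := hline P Q (-(P + Q)) hP hQ (neg_ne hPQ) (add_neg_cancel (P + Q))
    rw [hneg] at this
    exact (add_neg_eq_zero.1 this).symm

/-! ### translation by `T` -/

theorem T_add_T [CharZero K] {d : K} (hd : d ≠ 0) : T hd + T hd = 0 :=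
  add_self_of_yc rfl

theorem neg_T [CharZero K] {d : K} (hd : d ≠ 0) : - T hd = T hd :=
  neg_eq_of_add_eq_zero_left (T_add_T hd)

omit [DecidableEq K] in
theorem eq_T_of_xc [CharZero K] {d : K} (hd : d ≠ 0) {P : E d} (hP : P ≠ 0) (h : xc P = 0) :
    P = T hd := by
  apply pt_ext hP (T_ne hd) h
  have := curve_eq P
  rw [h] at this
  have h2 : yc P ^ 2 = 0 := by linear_combination this
  exact pow_eq_zero_iff two_ne_zero |>.1 h2

theorem add_T [CharZero K] {d : K} (hd : d ≠ 0) {P : E d} (hP : P ≠ 0) (hPT : P ≠ T hd) :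
    P + T hd ≠ 0 ∧ xc P ≠ 0 ∧ xc (P + T hd) = 2 * d ^ 2 / xc P ∧
      yc (P + T hd) = - (2 * d ^ 2) * yc P / xc P ^ 2 := by
  have hx : xc P ≠ 0 := fun h => hPT (eq_T_of_xc hd hP h)
  have hne : P + T hd ≠ 0 := by
    intro h
    apply hPT
    rw [eq_neg_of_add_eq_zero_left h, neg_T]
  obtain ⟨L, c, h1, h2, h3, h4, h5, h6⟩ := line_add hP (T_ne hd) hne
  rw [xc_T] at h2 h4 h5 h6
  rw [yc_T] at h2
  have hc : c = 0 := by linear_combination -h2
  subst hc
  have e1 : xc (P + T hd) = 2 * d ^ 2 / xc P := by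
    rw [eq_div_iff hx]
    linear_combination h5
  refine ⟨hne, hx, e1, ?_⟩
  rw [h3, e1]
  have hL : L = yc P / xc P := by
    rw [eq_div_iff hx]; linear_combination -h1
  rw [hL]
  field_simp
  ring

/-! ### chord formulas -/

theorem xc_add_mul {d : K} {P Q : E d} (hP : P ≠ 0) (hQ : Q ≠ 0)
    (hx : xc P ≠ xc Q) : P + Q ≠ 0 ∧ xc (P + Q) * (xc P - xc Q) ^ 2 =
      (xc P * xc Q + 2 * d ^ 2) * (xc P + xc Q) + 8 * d * (xc P * xc Q) - 2 * yc P * yc Q := by
  have hne : P + Q ≠ 0 := by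
    intro h
    apply hx
    rw [eq_neg_of_add_eq_zero_left h, xc_neg]
  refine ⟨hne, ?_⟩
  obtain ⟨L, c, h1, h2, h3, h4, h5, h6⟩ := line_add hP hQ hne
  have hL : L * (xc P - xc Q) = yc P - yc Q := by linear_combination h2 - h1
  have e := curve_eq P
  have e' := curve_eq Q
  have h4' : xc (P + Q) = L ^ 2 - 4 * d - xc P - xc Q := by linear_combination h4
  have : xc (P + Q) * (xc P - xc Q) ^ 2 =
      (yc P - yc Q) ^ 2 - (4 * d + xc P + xc Q) * (xc P - xc Q) ^ 2 := by
    rw [h4', ← hL]; ring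
  rw [this]
  linear_combination e + e'

theorem xc_sub_mul {d : K} {P Q : E d} (hP : P ≠ 0) (hQ : Q ≠ 0)
    (hx : xc P ≠ xc Q) : P - Q ≠ 0 ∧ xc (P - Q) * (xc P - xc Q) ^ 2 =
      (xc P * xc Q + 2 * d ^ 2) * (xc P + xc Q) + 8 * d * (xc P * xc Q) + 2 * yc P * yc Q := by
  have := xc_add_mul hP (neg_ne hQ) (by rwa [xc_neg])
  rw [xc_neg, yc_neg] at this
  refine ⟨by rw [sub_eq_add_neg]; exact this.1, ?_⟩
  rw [sub_eq_add_neg, this.2]
  ring

theorem xc_add_sub {d : K} {P Q : E d} (hP : P ≠ 0) (hQ : Q ≠ 0)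
    (hx : xc P ≠ xc Q) : xc (P + Q) * xc (P - Q) * (xc P - xc Q) ^ 2 =
      (xc P * xc Q - 2 * d ^ 2) ^ 2 := by
  have h1 := (xc_add_mul hP hQ hx).2
  have h2 := (xc_sub_mul hP hQ hx).2
  have e := curve_eq P
  have e' := curve_eq Q
  have hd : (xc P - xc Q) ^ 2 ≠ 0 := pow_ne_zero _ (sub_ne_zero.2 hx)
  apply mul_right_cancel₀ hd
  have : xc (P + Q) * xc (P - Q) * (xc P - xc Q) ^ 2 * (xc P - xc Q) ^ 2 =
    (xc (P + Q) * (xc P - xc Q) ^ 2) * (xc (P - Q) * (xc P - xc Q) ^ 2) := by ring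
  rw [this, h1, h2]
  linear_combination (-4 * yc Q ^ 2) * e + (-4 * (xc P ^ 3 + 4 * d * xc P ^ 2 + 2 * d ^ 2 * xc P)) * e'

theorem xc_double [CharZero K] {d : K} {P : E d} (hP : P ≠ 0) (hy : yc P ≠ 0) :
    P + P ≠ 0 ∧ xc (P + P) * (4 * yc P ^ 2) = (xc P ^ 2 - 2 * d ^ 2) ^ 2 := by
  have hne : P + P ≠ 0 := fun h => hy (two_tors_eq h)
  refine ⟨hne, ?_⟩
  obtain ⟨L, c, h1, h2, h3, h4, h5, h6⟩ := line_add hP hP hne
  have e := curve_eq P
  have e1 : 2 * L * yc P = 3 * xc P ^ 2 + 8 * d * xc P + 2 * d ^ 2 := by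
    linear_combination 2 * L * h1 - 2 * xc P * h4 + h5
  have h4' : xc (P + P) = L ^ 2 - 4 * d - xc P - xc P := by linear_combination h4
  have : xc (P + P) * (4 * yc P ^ 2) = (2 * L * yc P) ^ 2 - 4 * (4 * d + 2 * xc P) * yc P ^ 2 := by
    rw [h4']; ring
  rw [this, e1, e]
  ring

/-! ### base change and scaling -/

section Trans

variable {L : Type*} [Field L] [DecidableEq L] [CharZero K] [CharZero L]

omit [DecidableEq K] [DecidableEq L] in
theorem tr_eqn (φ : K →+* L) {c : L} (hc : c ≠ 0) {d : K} {e : L} (h : φ d = e * c ^ 2) {x y : K}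
    (hxy : y ^ 2 = x ^ 3 + 4 * d * x ^ 2 + 2 * d ^ 2 * x) :
    (φ y / c ^ 3) ^ 2 = (φ x / c ^ 2) ^ 3 + 4 * e * (φ x / c ^ 2) ^ 2 + 2 * e ^ 2 * (φ x / c ^ 2) := by
  have h1 := congrArg φ hxy
  simp only [map_pow, map_add, map_mul, map_ofNat, h] at h1
  field_simp
  linear_combination h1

open Classical in
/-- underlying function of `tr` -/
noncomputable def trFun (φ : K →+* L) {c : L} (hc : c ≠ 0) {d : K} {e : L} (he : e ≠ 0)
    (h : φ d = e * c ^ 2) (P : E d) : E e :=
  if P = 0 then 0 else mkP he (φ (xc P) / c ^ 2) (φ (yc P) / c ^ 3) (tr_eqn φ hc h (curve_eq P))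

omit [DecidableEq L] in
theorem trFun_zero (φ : K →+* L) {c : L} (hc : c ≠ 0) {d : K} {e : L} (he : e ≠ 0)
    (h : φ d = e * c ^ 2) : trFun φ hc he h 0 = 0 := by
  rw [trFun, if_pos rfl]

omit [DecidableEq L] in
theorem trFun_ne (φ : K →+* L) {c : L} (hc : c ≠ 0) {d : K} {e : L} (he : e ≠ 0)
    (h : φ d = e * c ^ 2) {P : E d} (hP : P ≠ 0) : trFun φ hc he h P ≠ 0 := by
  rw [trFun, if_neg hP]
  exact mkP_ne _ _ _ _

omit [DecidableEq L] in
theorem xc_trFun (φ : K →+* L) {c : L} (hc : c ≠ 0) {d : K} {e : L} (he : e ≠ 0)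
    (h : φ d = e * c ^ 2) (P : E d) : xc (trFun φ hc he h P) = φ (xc P) / c ^ 2 := by
  by_cases hP : P = 0
  · rw [hP, trFun_zero]; simp
  · rw [trFun, if_neg hP]; simp

omit [DecidableEq L] in
theorem yc_trFun (φ : K →+* L) {c : L} (hc : c ≠ 0) {d : K} {e : L} (he : e ≠ 0)
    (h : φ d = e * c ^ 2) (P : E d) : yc (trFun φ hc he h P) = φ (yc P) / c ^ 3 := by
  by_cases hP : P = 0
  · rw [hP, trFun_zero]; simp
  · rw [trFun, if_neg hP]; simp

/-- base change followed by scaling: `(X, Y) ↦ (φ X / c ^ 2, φ Y / c ^ 3)` -/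
noncomputable def tr (φ : K →+* L) {c : L} (hc : c ≠ 0) {d : K} {e : L} (he : e ≠ 0)
    (h : φ d = e * c ^ 2) : E d →+ E e where
  toFun := trFun φ hc he h
  map_zero' := trFun_zero φ hc he h
  map_add' := by
    apply additive_of_line
    · exact trFun_zero φ hc he h
    · intro P
      by_cases hP : P = 0
      · rw [hP, trFun_zero]
        exact trFun_zero φ hc he h
      · apply pt_ext (trFun_ne φ hc he h (neg_ne hP)) (neg_ne (trFun_ne φ hc he h hP))
        · rw [xc_neg, xc_trFun, xc_trFun, xc_neg]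
        · rw [yc_neg, yc_trFun, yc_trFun, yc_neg, map_neg, neg_div]
    · intro P Q R hP hQ hR hPQR
      obtain ⟨l, c0, h1, h2, h3, h4, h5, h6⟩ := line_of_add_eq_zero hP hQ hR hPQR
      have hPn := trFun_ne φ hc he h hP
      have hQn := trFun_ne φ hc he h hQ
      have hRn := trFun_ne φ hc he h hR
      have g1 := congrArg φ h1
      have g2 := congrArg φ h2
      have g3 := congrArg φ h3
      have g4 := congrArg φ h4
      have g5 := congrArg φ h5
      have g6 := congrArg φ h6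
      simp only [map_pow, map_add, map_sub, map_mul, map_ofNat, h] at g1 g2 g3 g4 g5 g6
      apply add_eq_zero_of_line he hPn hQn hRn (L := φ l / c) (c := φ c0 / c ^ 3)
      · rw [xc_trFun, yc_trFun, g1]; field_simp
      · rw [xc_trFun, yc_trFun, g2]; field_simp
      · rw [xc_trFun, yc_trFun, g3]; field_simp
      · rw [xc_trFun, xc_trFun, xc_trFun]; field_simp; linear_combination g4
      · rw [xc_trFun, xc_trFun, xc_trFun]; field_simp; linear_combination g5
      · rw [xc_trFun, xc_trFun, xc_trFun]; field_simp; linear_combination g6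

theorem xc_tr (φ : K →+* L) {c : L} (hc : c ≠ 0) {d : K} {e : L} (he : e ≠ 0)
    (h : φ d = e * c ^ 2) (P : E d) : xc (tr φ hc he h P) = φ (xc P) / c ^ 2 :=
  xc_trFun φ hc he h P

theorem yc_tr (φ : K →+* L) {c : L} (hc : c ≠ 0) {d : K} {e : L} (he : e ≠ 0)
    (h : φ d = e * c ^ 2) (P : E d) : yc (tr φ hc he h P) = φ (yc P) / c ^ 3 :=
  yc_trFun φ hc he h P

theorem tr_ne (φ : K →+* L) {c : L} (hc : c ≠ 0) {d : K} {e : L} (he : e ≠ 0)
    (h : φ d = e * c ^ 2) {P : E d} (hP : P ≠ 0) : tr φ hc he h P ≠ 0 :=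
  trFun_ne φ hc he h hP

theorem tr_injective (φ : K →+* L) {c : L} (hc : c ≠ 0) {d : K} {e : L} (he : e ≠ 0)
    (h : φ d = e * c ^ 2) : Function.Injective (tr φ hc he h) := by
  rw [injective_iff_map_eq_zero]
  intro P hP
  by_contra hne
  exact tr_ne φ hc he h hne hP

end Trans

/-! ### the 2-isogeny `E d → E (-2 d)` -/

section Isog

variable [CharZero K]

omit [DecidableEq K] [CharZero K] in
theorem isog_eqn {d : K} {x y : K} (hx : x ≠ 0)
    (hxy : y ^ 2 = x ^ 3 + 4 * d * x ^ 2 + 2 * d ^ 2 * x) :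
    (y * (x ^ 2 - 2 * d ^ 2) / x ^ 2) ^ 2 = (y ^ 2 / x ^ 2) ^ 3 + 4 * (-2 * d) * (y ^ 2 / x ^ 2) ^ 2
      + 2 * (-2 * d) ^ 2 * (y ^ 2 / x ^ 2) := by
  have h2 : y ^ 2 / x ^ 2 = (x ^ 2 + 4 * d * x + 2 * d ^ 2) / x := by
    rw [hxy]; field_simp
  have h3 : (y * (x ^ 2 - 2 * d ^ 2) / x ^ 2) ^ 2 = (y ^ 2 / x ^ 2) * ((x ^ 2 - 2 * d ^ 2) / x) ^ 2 := by
    field_simp
  rw [h3, h2]
  field_simp
  ring

omit [DecidableEq K] in
theorem m2d_ne {d : K} (hd : d ≠ 0) : -2 * d ≠ 0 := mul_ne_zero (by norm_num) hd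

open Classical in
/-- underlying function of the isogeny -/
noncomputable def isogFun {d : K} (hd : d ≠ 0) (P : E d) : E (-2 * d) :=
  if hx : xc P = 0 then 0 else mkP (m2d_ne hd) (yc P ^ 2 / xc P ^ 2)
    (yc P * (xc P ^ 2 - 2 * d ^ 2) / xc P ^ 2) (isog_eqn hx (curve_eq P))

theorem isogFun_of_xc {d : K} (hd : d ≠ 0) {P : E d} (hx : xc P = 0) : isogFun hd P = 0 := by
  rw [isogFun, dif_pos hx]

theorem isogFun_ne {d : K} (hd : d ≠ 0) {P : E d} (hx : xc P ≠ 0) : isogFun hd P ≠ 0 := by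
  rw [isogFun, dif_neg hx]; exact mkP_ne _ _ _ _

theorem xc_isogFun {d : K} (hd : d ≠ 0) {P : E d} (hx : xc P ≠ 0) :
    xc (isogFun hd P) = yc P ^ 2 / xc P ^ 2 := by
  rw [isogFun, dif_neg hx]; rfl

theorem yc_isogFun {d : K} (hd : d ≠ 0) {P : E d} (hx : xc P ≠ 0) :
    yc (isogFun hd P) = yc P * (xc P ^ 2 - 2 * d ^ 2) / xc P ^ 2 := by
  rw [isogFun, dif_neg hx]; rfl

theorem xc_isogFun' {d : K} (hd : d ≠ 0) {P : E d} (hx : xc P ≠ 0) :
    xc (isogFun hd P) = xc P + 4 * d + 2 * d ^ 2 / xc P := by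
  rw [xc_isogFun hd hx, curve_eq]; field_simp

theorem isogFun_neg {d : K} (hd : d ≠ 0) (P : E d) : isogFun hd (-P) = - isogFun hd P := by
  by_cases hx : xc P = 0
  · rw [isogFun_of_xc hd hx, isogFun_of_xc hd (by rwa [xc_neg])]; rfl
  · have hx' : xc (-P) ≠ 0 := by rwa [xc_neg]
    apply pt_ext (isogFun_ne hd hx') (neg_ne (isogFun_ne hd hx))
    · rw [xc_neg, xc_isogFun hd hx', xc_isogFun hd hx, xc_neg, yc_neg]; ring
    · rw [yc_neg, yc_isogFun hd hx', yc_isogFun hd hx, xc_neg, yc_neg]; ring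

theorem isogFun_add_T {d : K} (hd : d ≠ 0) (P : E d) : isogFun hd (P + T hd) = isogFun hd P := by
  by_cases hP : P = 0
  · rw [hP, zero_add, isogFun_of_xc hd (xc_T hd), isogFun_of_xc hd xc_zero]
  by_cases hPT : P = T hd
  · rw [hPT, T_add_T, isogFun_of_xc hd (xc_T hd), isogFun_of_xc hd xc_zero]
  obtain ⟨h1, h2, h3, h4⟩ := add_T hd hP hPT
  have hx' : xc (P + T hd) ≠ 0 := by
    rw [h3]
    exact div_ne_zero (mul_ne_zero two_ne_zero (pow_ne_zero _ hd)) h2
  apply pt_ext (isogFun_ne hd hx') (isogFun_ne hd h2)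
  · rw [xc_isogFun' hd hx', xc_isogFun' hd h2, h3]; field_simp; ring
  · rw [yc_isogFun hd hx', yc_isogFun hd h2, h3, h4]; field_simp; ring

theorem isogFun_line {d : K} (hd : d ≠ 0) (P Q R : E d) (hP : P ≠ 0) (hQ : Q ≠ 0) (hR : R ≠ 0)
    (h : P + Q + R = 0) : isogFun hd P + isogFun hd Q + isogFun hd R = 0 := by
  by_cases hRT : R = T hd
  · have hQP : Q = -P + T hd := by
      have : Q = -(P + R) := by
        rw [eq_neg_iff_add_eq_zero, ← h]; abel
      rw [this, hRT, neg_add, neg_T]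
    rw [hRT, hQP, isogFun_add_T, isogFun_neg, isogFun_of_xc hd (xc_T hd), add_zero]
    exact add_neg_cancel _
  by_cases hQT : Q = T hd
  · have hQP : R = -P + T hd := by
      have : R = -(P + Q) := by
        rw [eq_neg_iff_add_eq_zero, ← h]; abel
      rw [this, hQT, neg_add, neg_T]
    rw [hQT, hQP, isogFun_add_T, isogFun_neg, isogFun_of_xc hd (xc_T hd), add_zero]
    exact add_neg_cancel _
  by_cases hPT : P = T hd
  · have hQP : R = -Q + T hd := by
      have : R = -(P + Q) := by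
        rw [eq_neg_iff_add_eq_zero, ← h]; abel
      rw [this, hPT, neg_add, neg_T]; abel
    rw [hPT, hQP, isogFun_add_T, isogFun_neg, isogFun_of_xc hd (xc_T hd), zero_add]
    exact add_neg_cancel _
  have hxP : xc P ≠ 0 := fun h => hPT (eq_T_of_xc hd hP h)
  have hxQ : xc Q ≠ 0 := fun h => hQT (eq_T_of_xc hd hQ h)
  have hxR : xc R ≠ 0 := fun h => hRT (eq_T_of_xc hd hR h)
  obtain ⟨l, c, h1, h2, h3, h4, h5, h6⟩ := line_of_add_eq_zero hP hQ hR h
  have hc : c ≠ 0 := by
    rintro rfl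
    have : xc P * xc Q * xc R = 0 := by linear_combination h6
    rcases mul_eq_zero.1 this with h | h
    · rcases mul_eq_zero.1 h with h | h
      · exact hxP h
      · exact hxQ h
    · exact hxR h
  -- cubic satisfied by each of the x-coordinates
  have key : ∀ S : E d, xc S ≠ 0 → yc S = l * xc S + c →
      yc (isogFun hd S) = (l - 2 * d ^ 2 / c) * xc (isogFun hd S) +
        (c - 2 * d ^ 2 * (4 * d - l ^ 2) / c - 4 * d * (l - 2 * d ^ 2 / c)) := by
    intro S hxS hS
    have e := curve_eq S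
    rw [yc_isogFun hd hxS, xc_isogFun' hd hxS]
    rw [hS] at e ⊢
    field_simp
    linear_combination (-2 * d ^ 2) * e
  refine add_eq_zero_of_line (m2d_ne hd) (isogFun_ne hd hxP) (isogFun_ne hd hxQ)
    (isogFun_ne hd hxR) (key P hxP h1) (key Q hxQ h2) (key R hxR h3) ?_ ?_ ?_
  · rw [xc_isogFun' hd hxP, xc_isogFun' hd hxQ, xc_isogFun' hd hxR]
    have e : xc P + 4 * d + 2 * d ^ 2 / xc P + (xc Q + 4 * d + 2 * d ^ 2 / xc Q) +
        (xc R + 4 * d + 2 * d ^ 2 / xc R) = (xc P + xc Q + xc R) + 12 * d +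
        2 * d ^ 2 * (xc P * xc Q + xc P * xc R + xc Q * xc R) / (xc P * xc Q * xc R) := by
      field_simp; ring
    rw [e, h4, h5, h6]
    field_simp; ring
  · rw [xc_isogFun' hd hxP, xc_isogFun' hd hxQ, xc_isogFun' hd hxR]
    have e : (xc P + 4 * d + 2 * d ^ 2 / xc P) * (xc Q + 4 * d + 2 * d ^ 2 / xc Q) +
        (xc P + 4 * d + 2 * d ^ 2 / xc P) * (xc R + 4 * d + 2 * d ^ 2 / xc R) +
        (xc Q + 4 * d + 2 * d ^ 2 / xc Q) * (xc R + 4 * d + 2 * d ^ 2 / xc R) =
        ((xc P * xc Q * xc R) * (xc P * xc Q + xc P * xc R + xc Q * xc R)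
          + 8 * d * (xc P * xc Q * xc R) * (xc P + xc Q + xc R)
          + 2 * d ^ 2 * ((xc P + xc Q + xc R) * (xc P * xc Q + xc P * xc R + xc Q * xc R)
            - 3 * (xc P * xc Q * xc R)) + 48 * d ^ 2 * (xc P * xc Q * xc R)
          + 8 * d * (2 * d ^ 2) * (xc P * xc Q + xc P * xc R + xc Q * xc R)
          + (2 * d ^ 2) ^ 2 * (xc P + xc Q + xc R)) / (xc P * xc Q * xc R) := by
      field_simp; ring
    rw [e, h4, h5, h6]
    field_simp; ring
  · rw [xc_isogFun' hd hxP, xc_isogFun' hd hxQ, xc_isogFun' hd hxR]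
    have e : (xc P + 4 * d + 2 * d ^ 2 / xc P) * (xc Q + 4 * d + 2 * d ^ 2 / xc Q) *
        (xc R + 4 * d + 2 * d ^ 2 / xc R) =
        ((xc P * xc Q * xc R) ^ 2 + 4 * d * (xc P * xc Q * xc R) *
            (xc P * xc Q + xc P * xc R + xc Q * xc R)
          + 2 * d ^ 2 * ((xc P * xc Q + xc P * xc R + xc Q * xc R) ^ 2
            - 2 * (xc P + xc Q + xc R) * (xc P * xc Q * xc R))
          + 16 * d ^ 2 * (xc P * xc Q * xc R) * (xc P + xc Q + xc R)
          + 8 * d ^ 3 * ((xc P + xc Q + xc R) * (xc P * xc Q + xc P * xc R + xc Q * xc R)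
            - 3 * (xc P * xc Q * xc R))
          + 4 * d ^ 4 * ((xc P + xc Q + xc R) ^ 2
            - 2 * (xc P * xc Q + xc P * xc R + xc Q * xc R))
          + 64 * d ^ 3 * (xc P * xc Q * xc R)
          + 32 * d ^ 4 * (xc P * xc Q + xc P * xc R + xc Q * xc R)
          + 16 * d ^ 5 * (xc P + xc Q + xc R) + 8 * d ^ 6) / (xc P * xc Q * xc R) := by
      field_simp; ring
    rw [e, h4, h5, h6]
    field_simp; ring

/-- the isogeny as a homomorphism -/
noncomputable def isog {d : K} (hd : d ≠ 0) : E d →+ E (-2 * d) where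
  toFun := isogFun hd
  map_zero' := isogFun_of_xc hd xc_zero
  map_add' := additive_of_line (isogFun hd) (isogFun_of_xc hd xc_zero) (isogFun_neg hd)
    (isogFun_line hd)

theorem isog_of_xc {d : K} (hd : d ≠ 0) {P : E d} (hx : xc P = 0) : isog hd P = 0 :=
  isogFun_of_xc hd hx

theorem isog_ne {d : K} (hd : d ≠ 0) {P : E d} (hx : xc P ≠ 0) : isog hd P ≠ 0 :=
  isogFun_ne hd hx

theorem xc_isog {d : K} (hd : d ≠ 0) {P : E d} (hx : xc P ≠ 0) :
    xc (isog hd P) = xc P + 4 * d + 2 * d ^ 2 / xc P := xc_isogFun' hd hx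

end Isog

end KumWA
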