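import Mathlib

/-!
# The Kummer surface of E x E, E : y^2 = x^3 + 4 x^2 + 2 x : basic definitions

`ff t = t^3 + 4 t^2 + 2 t`.  `Pt K` is the set of `K`-points `(x, y, z)` of the affine surface
`z^2 = ff x * ff y` with `z ≠ 0`, with the subspace topology of `K × K × K`.
-/

namespace KumWA

/-- primality as an instance -/
instance instFactPrimes (p : Nat.Primes) : Fact (Nat.Prime (p : ℕ)) := ⟨p.2⟩

/-- the cubic polynomial `t^3 + 4 t^2 + 2 t` -/
def ff {K : Type*} [Field K] (t : K) : K := t ^ 3 + 4 * t ^ 2 + 2 * t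

/-- `K`-points `(x, y, z)` of the surface `z^2 = ff x * ff y` with `z ≠ 0`. -/
def Pt (K : Type*) [Field K] : Type _ :=
  {u : K × K × K // u.2.2 ^ 2 = ff u.1 * ff u.2.1 ∧ u.2.2 ≠ 0}

instance (K : Type*) [Field K] [TopologicalSpace K] : TopologicalSpace (Pt K) :=
  inferInstanceAs (TopologicalSpace
    {u : K × K × K // u.2.2 ^ 2 = ff u.1 * ff u.2.1 ∧ u.2.2 ≠ 0})

namespace Pt

variable {K : Type*} [Field K]

/-- first coordinate -/
def x (u : Pt K) : K := u.1.1

/-- second coordinate -/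
def y (u : Pt K) : K := u.1.2.1

/-- third coordinate -/
def z (u : Pt K) : K := u.1.2.2

theorem eqn (u : Pt K) : u.z ^ 2 = ff u.x * ff u.y := u.2.1

theorem hz (u : Pt K) : u.z ≠ 0 := u.2.2

theorem hfx (u : Pt K) : ff u.x ≠ 0 := by
  intro h
  have := u.eqn
  rw [h, zero_mul] at this
  exact u.hz (pow_eq_zero_iff (two_ne_zero) |>.1 this)

theorem hfy (u : Pt K) : ff u.y ≠ 0 := by
  intro h
  have := u.eqn
  rw [h, mul_zero] at this
  exact u.hz (pow_eq_zero_iff (two_ne_zero) |>.1 this)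

theorem hx (u : Pt K) : u.x ≠ 0 := by
  intro h
  apply u.hfx
  simp [ff, h]

theorem hy (u : Pt K) : u.y ≠ 0 := by
  intro h
  apply u.hfy
  simp [ff, h]

@[ext] theorem ext {u v : Pt K} (hx : u.x = v.x) (hy : u.y = v.y) (hz : u.z = v.z) : u = v := by
  apply Subtype.ext
  exact Prod.ext hx (Prod.ext hy hz)

end Pt

theorem map_ff {K L : Type*} [Field K] [Field L] (φ : K →+* L) (t : K) : φ (ff t) = ff (φ t) := by
  simp [ff, map_ofNat]

/-- the map on points induced by a homomorphism of fields -/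
def Pt.map {K L : Type*} [Field K] [Field L] (φ : K →+* L) (u : Pt K) : Pt L :=
  ⟨(φ u.1.1, φ u.1.2.1, φ u.1.2.2), by
    refine ⟨?_, ?_⟩
    · change φ u.1.2.2 ^ 2 = ff (φ u.1.1) * ff (φ u.1.2.1)
      rw [← map_ff, ← map_ff, ← map_mul, ← map_pow, u.2.1]
    · exact (map_ne_zero φ).2 u.2.2⟩

@[simp] theorem Pt.map_x {K L : Type*} [Field K] [Field L] (φ : K →+* L) (u : Pt K) :
    (Pt.map φ u).x = φ u.x := rfl

@[simp] theorem Pt.map_y {K L : Type*} [Field K] [Field L] (φ : K →+* L) (u : Pt K) :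
    (Pt.map φ u).y = φ u.y := rfl

@[simp] theorem Pt.map_z {K L : Type*} [Field K] [Field L] (φ : K →+* L) (u : Pt K) :
    (Pt.map φ u).z = φ u.z := rfl

/-! ### the curves `W d` -/

/-- the curve `Y^2 = X^3 + 4 d X^2 + 2 d^2 X` -/
def W {K : Type*} [Field K] (d : K) : WeierstrassCurve.Affine K := ⟨0, 4 * d, 0, 2 * d ^ 2, 0⟩

/-- the group of points of `W d` -/
abbrev E {K : Type*} [Field K] (d : K) : Type _ := (W d).Point

/-- x-coordinate (0 at the point at infinity) -/
def xc {K : Type*} [Field K] {d : K} : E d → K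
  | .zero => 0
  | .some x _ _ => x

/-- y-coordinate (0 at the point at infinity) -/
def yc {K : Type*} [Field K] {d : K} : E d → K
  | .zero => 0
  | .some _ y _ => y

end KumWA
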