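import Pool.Agent.Helper9.KumWA.Padic

/-!
# The filtration of `E d` over `ℚ_[p]`
-/

namespace KumWA

open IsUltrametricDist

variable {p : ℕ} [hp : Fact p.Prime]

theorem norm_nat_le_one (n : ℕ) : ‖(n : ℚ_[p])‖ ≤ 1 := by
  have := Padic.norm_int_le_one (p := p) n
  exact_mod_cast this

theorem norm_ofNat_le_one (n : ℕ) [n.AtLeastTwo] : ‖(OfNat.ofNat n : ℚ_[p])‖ ≤ 1 := by
  have := norm_nat_le_one (p := p) n
  exact_mod_cast this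

theorem norm_nat_mul_le (n : ℕ) [n.AtLeastTwo] (x : ℚ_[p]) :
    ‖(OfNat.ofNat n : ℚ_[p]) * x‖ ≤ ‖x‖ := by
  rw [norm_mul]
  exact mul_le_of_le_one_left (norm_nonneg _) (norm_ofNat_le_one n)

theorem norm_yc_sq {d : ℚ_[p]} {P : E d} (h : ‖d‖ < ‖xc P‖) : ‖yc P‖ ^ 2 = ‖xc P‖ ^ 3 := by
  have hx : 0 < ‖xc P‖ := lt_of_le_of_lt (norm_nonneg _) h
  rw [← norm_pow, curve_eq, add_assoc, nadd_eq, norm_pow]
  rw [norm_pow]
  apply nadd_lt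
  · have h1 : ‖4 * d * xc P ^ 2‖ ≤ ‖d‖ * ‖xc P‖ ^ 2 := by
      rw [mul_assoc]
      refine (norm_nat_mul_le 4 _).trans ?_
      rw [norm_mul, norm_pow]
    refine lt_of_le_of_lt h1 ?_
    have : ‖xc P‖ ^ 3 = ‖xc P‖ * ‖xc P‖ ^ 2 := by ring
    rw [this]
    exact mul_lt_mul_of_pos_right h (by positivity)
  · have h1 : ‖2 * d ^ 2 * xc P‖ ≤ ‖d‖ ^ 2 * ‖xc P‖ := by
      rw [mul_assoc]
      refine (norm_nat_mul_le 2 _).trans ?_
      rw [norm_mul, norm_pow]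
    refine lt_of_le_of_lt h1 ?_
    have : ‖xc P‖ ^ 3 = ‖xc P‖ ^ 2 * ‖xc P‖ := by ring
    rw [this]
    exact mul_lt_mul_of_pos_right (pow_lt_pow_left₀ h (norm_nonneg _) two_ne_zero) hx

theorem norm_yc_sq_lt {d : ℚ_[p]} {P : E d} {r : ℝ} (hd : ‖d‖ < r) (h : ‖xc P‖ < r) :
    ‖yc P‖ ^ 2 < r ^ 3 := by
  have hr : 0 < r := lt_of_le_of_lt (norm_nonneg _) hd
  rw [← norm_pow, curve_eq]
  have e1 : ‖xc P ^ 3‖ < r ^ 3 := by
    rw [norm_pow]; exact pow_lt_pow_left₀ h (norm_nonneg _) (by norm_num)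
  have e2 : ‖4 * d * xc P ^ 2‖ < r ^ 3 := by
    rw [mul_assoc]
    refine lt_of_le_of_lt (norm_nat_mul_le 4 _) ?_
    rw [norm_mul, norm_pow]
    have : r ^ 3 = r * r ^ 2 := by ring
    rw [this]
    exact mul_lt_mul'' hd (pow_lt_pow_left₀ h (norm_nonneg _) two_ne_zero) (norm_nonneg _) (by positivity)
  have e3 : ‖2 * d ^ 2 * xc P‖ < r ^ 3 := by
    rw [mul_assoc]
    refine lt_of_le_of_lt (norm_nat_mul_le 2 _) ?_
    rw [norm_mul, norm_pow]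
    have : r ^ 3 = r ^ 2 * r := by ring
    rw [this]
    exact mul_lt_mul'' (pow_lt_pow_left₀ hd (norm_nonneg _) two_ne_zero) h (by positivity) (norm_nonneg _)
  exact nadd_lt (nadd_lt e1 e2) e3

variable [DecidableEq ℚ_[p]]

/-- adding a large point to a small point gives a small point -/
theorem small_add_large {d : ℚ_[p]} {r : ℝ} (hd : ‖d‖ < r) {P Q : E d} (hP : P ≠ 0) (hQ : Q ≠ 0)
    (hP' : ‖xc P‖ < r) (hQ' : r ≤ ‖xc Q‖) : P + Q ≠ 0 ∧ ‖xc (P + Q)‖ < r := by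
  have hr : 0 < r := lt_of_le_of_lt (norm_nonneg _) hd
  have hPQ : ‖xc P‖ < ‖xc Q‖ := lt_of_lt_of_le hP' hQ'
  have hxQ : 0 < ‖xc Q‖ := lt_of_lt_of_le hr hQ'
  have hne : xc P ≠ xc Q := fun h => by rw [h] at hPQ; exact lt_irrefl _ hPQ
  obtain ⟨h1, h2⟩ := xc_add_mul hP hQ hne
  refine ⟨h1, ?_⟩
  have hsub : ‖xc P - xc Q‖ = ‖xc Q‖ := nsub_eq' hPQ
  have h3 : ‖xc (P + Q)‖ * ‖xc Q‖ ^ 2 < r * ‖xc Q‖ ^ 2 := by
    rw [← hsub, ← norm_pow, ← norm_mul, h2, norm_pow, hsub]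
    have t1 : ‖(xc P * xc Q + 2 * d ^ 2) * (xc P + xc Q)‖ < r * ‖xc Q‖ ^ 2 := by
      rw [norm_mul]
      have a1 : ‖xc P + xc Q‖ = ‖xc Q‖ := by rw [add_comm]; exact nadd_eq hPQ
      have a2 : ‖xc P * xc Q + 2 * d ^ 2‖ < r * ‖xc Q‖ := by
        apply nadd_lt
        · rw [norm_mul]; exact mul_lt_mul_of_pos_right hP' hxQ
        · refine lt_of_le_of_lt (norm_nat_mul_le 2 _) ?_
          rw [norm_pow, sq]
          exact lt_of_lt_of_le (mul_lt_mul'' hd hd (norm_nonneg _) (norm_nonneg _))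
            (mul_le_mul_of_nonneg_left hQ' hr.le)
      have a3 : r * ‖xc Q‖ ^ 2 = r * ‖xc Q‖ * ‖xc Q‖ := by ring
      rw [a1, a3]
      exact mul_lt_mul_of_pos_right a2 hxQ
    have t2 : ‖8 * d * (xc P * xc Q)‖ < r * ‖xc Q‖ ^ 2 := by
      rw [mul_assoc]
      refine lt_of_le_of_lt (norm_nat_mul_le 8 _) ?_
      rw [norm_mul, norm_mul]
      have b1 : ‖d‖ * (‖xc P‖ * ‖xc Q‖) ≤ ‖xc Q‖ * (‖xc P‖ * ‖xc Q‖) :=
        mul_le_mul_of_nonneg_right (hd.le.trans hQ') (by positivity)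
      have b2 : ‖xc Q‖ * (‖xc P‖ * ‖xc Q‖) = ‖xc P‖ * ‖xc Q‖ ^ 2 := by ring
      rw [b2] at b1
      exact lt_of_le_of_lt b1 (mul_lt_mul_of_pos_right hP' (by positivity))
    have t3 : ‖2 * yc P * yc Q‖ < r * ‖xc Q‖ ^ 2 := by
      rw [mul_assoc]
      refine lt_of_le_of_lt (norm_nat_mul_le 2 _) ?_
      rw [norm_mul]
      have c1 := norm_yc_sq_lt hd hP'
      have c2 := norm_yc_sq (P := Q) (lt_of_lt_of_le hd hQ')
      apply lt_of_pow_lt_pow_left₀ 2 (by positivity)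
      rw [mul_pow, c2]
      have c3 : ‖yc P‖ ^ 2 * ‖xc Q‖ ^ 3 < r ^ 3 * ‖xc Q‖ ^ 3 :=
        mul_lt_mul_of_pos_right c1 (by positivity)
      have c4 : r ^ 3 * ‖xc Q‖ ^ 3 ≤ (r * ‖xc Q‖ ^ 2) ^ 2 := by
        have : (r * ‖xc Q‖ ^ 2) ^ 2 = r ^ 2 * ‖xc Q‖ ^ 3 * ‖xc Q‖ := by ring
        have h5 : r ^ 3 * ‖xc Q‖ ^ 3 = r ^ 2 * ‖xc Q‖ ^ 3 * r := by ring
        rw [this, h5]
        exact mul_le_mul_of_nonneg_left hQ' (by positivity)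
      exact lt_of_lt_of_le c3 c4
    exact nsub_lt (nadd_lt t1 t2) t3
  exact lt_of_mul_lt_mul_right h3 (by positivity)

/-- filtration, real radius -/
def filr {d : ℚ_[p]} (r : ℝ) (P : E d) : Prop := P = 0 ∨ r ≤ ‖xc P‖

omit [DecidableEq ℚ_[p]] in
theorem filr_neg {d : ℚ_[p]} {r : ℝ} {P : E d} (h : filr r P) : filr r (-P) := by
  rcases h with h | h
  · left; rw [h]; rfl
  · right; rwa [xc_neg]

theorem filr_add {d : ℚ_[p]} {r : ℝ} (hd : ‖d‖ < r) {P Q : E d} (hP : filr r P) (hQ : filr r Q) :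
    filr r (P + Q) := by
  by_contra hcon
  have h1 : P + Q ≠ 0 := fun h => hcon (Or.inl h)
  have h2 : ‖xc (P + Q)‖ < r := by
    by_contra h; exact hcon (Or.inr (not_lt.1 h))
  rcases hQ with hQ | hQ
  · rw [hQ, add_zero] at hcon; exact hcon hP
  have hQ0 : Q ≠ 0 := by
    rintro rfl
    rw [xc_zero, norm_zero] at hQ
    exact absurd (lt_of_le_of_lt (norm_nonneg _) hd) (not_lt.2 hQ)
  obtain ⟨h3, h4⟩ := small_add_large hd h1 (neg_ne hQ0) h2 (by rwa [xc_neg])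
  rw [add_neg_cancel_right] at h3 h4
  rcases hP with hP | hP
  · exact h3 hP
  · exact absurd h4 (not_lt.2 hP)

/-- The filtration. -/
def fil {d : ℚ_[p]} (n : ℕ) (P : E d) : Prop := P = 0 ∨ (p : ℝ) ^ (2 * n) ≤ ‖xc P‖

omit [DecidableEq ℚ_[p]] in
theorem fil_zero' {d : ℚ_[p]} (n : ℕ) : fil n (0 : E d) := Or.inl rfl

omit [DecidableEq ℚ_[p]] in
theorem fil_neg {d : ℚ_[p]} {n : ℕ} {P : E d} (h : fil n P) : fil n (-P) := filr_neg h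

omit [DecidableEq ℚ_[p]] in
theorem fil_neg_iff {d : ℚ_[p]} {n : ℕ} {P : E d} : fil n (-P) ↔ fil n P := by
  refine ⟨fun h => ?_, fil_neg⟩
  have := fil_neg h
  rwa [neg_neg] at this

/-- admissible levels -/
def okl (d : ℚ_[p]) (n : ℕ) : Prop := ‖d‖ ≤ 1 ∧ (1 ≤ n ∨ ‖d‖ ≤ (p : ℝ)⁻¹)

omit [DecidableEq ℚ_[p]] in
theorem okl_succ {d : ℚ_[p]} {n : ℕ} (h : okl d n) : okl d (n + 1) := ⟨h.1, Or.inl (by omega)⟩

omit [DecidableEq ℚ_[p]] in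
theorem okl_mono {d : ℚ_[p]} {n m : ℕ} (h : okl d n) (hm : n ≤ m) : okl d m := by
  refine ⟨h.1, ?_⟩
  rcases h.2 with h | h
  · left; omega
  · right; exact h

omit [DecidableEq ℚ_[p]] in
theorem okl_of_one_le {d : ℚ_[p]} {n : ℕ} (h : ‖d‖ ≤ 1) (hn : 1 ≤ n) : okl d n := ⟨h, Or.inl hn⟩

omit [DecidableEq ℚ_[p]] in
theorem okl_lt {d : ℚ_[p]} {n : ℕ} (h : okl d n) : ‖d‖ < (p : ℝ) ^ (2 * n) := by
  have h1 := one_lt_p (p := p)
  rcases h.2 with h' | h'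
  · refine lt_of_le_of_lt h.1 (one_lt_pow₀ h1 (by omega))
  · refine lt_of_le_of_lt h' ?_
    calc (p : ℝ)⁻¹ < 1 := inv_lt_one_of_one_lt₀ h1
      _ ≤ (p : ℝ) ^ (2 * n) := one_le_pow₀ h1.le

theorem fil_add {d : ℚ_[p]} {n : ℕ} (h : okl d n) {P Q : E d} (hP : fil n P) (hQ : fil n Q) :
    fil n (P + Q) := filr_add (okl_lt h) hP hQ

theorem fil_sub {d : ℚ_[p]} {n : ℕ} (h : okl d n) {P Q : E d} (hP : fil n P) (hQ : fil n Q) :
    fil n (P - Q) := by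
  rw [sub_eq_add_neg]; exact fil_add h hP (fil_neg hQ)

/-- as a subgroup -/
def Fil {d : ℚ_[p]} {n : ℕ} (h : okl d n) : AddSubgroup (E d) where
  carrier := {P | fil n P}
  zero_mem' := fil_zero' n
  add_mem' := fil_add h
  neg_mem' := fil_neg

theorem fil_zsmul {d : ℚ_[p]} {n : ℕ} (h : okl d n) {P : E d} (hP : fil n P) (j : ℤ) :
    fil n (j • P) := (Fil h).zsmul_mem hP j

theorem fil_nsmul {d : ℚ_[p]} {n : ℕ} (h : okl d n) {P : E d} (hP : fil n P) (j : ℕ) :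
    fil n (j • P) := (Fil h).nsmul_mem hP j

omit [DecidableEq ℚ_[p]] in
theorem fil_mono {d : ℚ_[p]} {n m : ℕ} (h : n ≤ m) {P : E d} (hP : fil m P) : fil n P := by
  rcases hP with hP | hP
  · exact Or.inl hP
  · right
    refine le_trans (pow_le_pow_right₀ (one_lt_p (p := p)).le (by omega)) hP

theorem fil_add_iff {d : ℚ_[p]} {n : ℕ} (h : okl d n) {P Q : E d} (hQ : fil n Q) :
    fil n (P + Q) ↔ fil n P := by
  refine ⟨fun hPQ => ?_, fun hP => fil_add h hP hQ⟩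
  have := fil_sub h hPQ hQ
  rwa [add_sub_cancel_right] at this

/-! ### the parameter `t = x/y` -/

/-- local parameter at infinity -/
noncomputable def tt {d : ℚ_[p]} (P : E d) : ℚ_[p] := xc P / yc P

omit [DecidableEq ℚ_[p]] in
theorem tt_zero {d : ℚ_[p]} : tt (0 : E d) = 0 := by simp [tt]

omit [DecidableEq ℚ_[p]] in
theorem tt_neg {d : ℚ_[p]} (P : E d) : tt (-P) = - tt P := by
  rw [tt, tt, xc_neg, yc_neg, div_neg]

omit [DecidableEq ℚ_[p]] in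
theorem fil_props {d : ℚ_[p]} {n : ℕ} (h : okl d n) {P : E d} (hP : fil n P) (hP0 : P ≠ 0) :
    ‖d‖ < ‖xc P‖ ∧ xc P ≠ 0 ∧ yc P ≠ 0 ∧ ‖tt P‖ ^ 2 * ‖xc P‖ = 1 := by
  have h1 : ‖d‖ < ‖xc P‖ := by
    rcases hP with hP | hP
    · exact absurd hP hP0
    · exact lt_of_lt_of_le (okl_lt h) hP
  have hx : xc P ≠ 0 := by
    intro h0
    rw [h0, norm_zero] at h1
    exact absurd h1 (not_lt.2 (norm_nonneg _))
  have hy2 := norm_yc_sq h1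
  have hxn : 0 < ‖xc P‖ := norm_pos_iff.2 hx
  have hy : yc P ≠ 0 := by
    intro h0
    rw [h0, norm_zero] at hy2
    have : 0 < ‖xc P‖ ^ 3 := by positivity
    rw [← hy2] at this
    norm_num at this
  refine ⟨h1, hx, hy, ?_⟩
  rw [tt, norm_div, div_pow, hy2]
  field_simp

theorem norm_tt_le {d : ℚ_[p]} {n : ℕ} (h : okl d n) {P : E d} (hP : fil n P) :
    ‖tt P‖ ≤ ((p : ℝ) ^ n)⁻¹ := by
  have hp1 := one_lt_p (p := p)
  have hpos : 0 < (p : ℝ) ^ n := by positivity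
  by_cases hP0 : P = 0
  · rw [hP0, tt_zero, norm_zero]; positivity
  obtain ⟨h1, hx, hy, ht⟩ := fil_props h hP hP0
  have h2 : (p : ℝ) ^ (2 * n) ≤ ‖xc P‖ := by
    rcases hP with hP | hP
    · exact absurd hP hP0
    · exact hP
  apply le_of_sq_le_sq _ (by positivity)
  rw [inv_pow, ← pow_mul, mul_comm n 2]
  have hxn : 0 < ‖xc P‖ := norm_pos_iff.2 hx
  have : ‖tt P‖ ^ 2 = ‖xc P‖⁻¹ := by field_simp; linarith
  rw [this]
  exact inv_anti₀ (by positivity) h2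

theorem fil_of_tt {d : ℚ_[p]} {n m : ℕ} (h : okl d n) {P : E d} (hP : fil n P)
    (ht : ‖tt P‖ ≤ ((p : ℝ) ^ m)⁻¹) : fil m P := by
  by_cases hP0 : P = 0
  · exact Or.inl hP0
  obtain ⟨h1, hx, hy, ht'⟩ := fil_props h hP hP0
  right
  have hxn : 0 < ‖xc P‖ := norm_pos_iff.2 hx
  have e : ‖tt P‖ ^ 2 = ‖xc P‖⁻¹ := by field_simp; linarith
  have h3 : ‖xc P‖⁻¹ ≤ ((p : ℝ) ^ (2 * m))⁻¹ := by
    rw [← e, mul_comm 2 m, pow_mul, ← inv_pow]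
    exact pow_le_pow_left₀ (norm_nonneg _) ht 2
  have hpos : 0 < (p : ℝ) ^ (2 * m) := pow_pos (p_pos (p := p)) _
  exact (inv_le_inv₀ hxn hpos).1 h3

/-! ### additivity of `tt` -/

theorem tt_sum {d : ℚ_[p]} {n : ℕ} (h : okl d n) {P Q R : E d} (hP : fil n P) (hQ : fil n Q)
    (hR : fil n R) (hP0 : P ≠ 0) (hQ0 : Q ≠ 0) (hR0 : R ≠ 0) (hs : P + Q + R = 0) :
    ∃ e : ℚ_[p], ‖e‖ ≤ ‖d‖ ^ 2 * ((p : ℝ) ^ n)⁻¹ ^ 5 ∧
      tt P + tt Q + tt R = e - 4 * d * (tt P * tt Q * tt R) := by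
  obtain ⟨L, c, h1, h2, h3, h4, h5, h6⟩ := line_of_add_eq_zero hP0 hQ0 hR0 hs
  obtain ⟨p1, p2, p3, p4⟩ := fil_props h hP hP0
  obtain ⟨q1, q2, q3, q4⟩ := fil_props h hQ hQ0
  obtain ⟨r1, r2, r3, r4⟩ := fil_props h hR hR0
  have hc : c ≠ 0 := by
    rintro rfl
    have : xc P * xc Q * xc R = 0 := by linear_combination h6
    exact mul_ne_zero (mul_ne_zero p2 q2) r2 this
  have key : tt P + tt Q + tt R = (4 * d ^ 2 * (L / c) - 4 * d) * (tt P * tt Q * tt R) := by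
    have hy : yc P * yc Q * yc R ≠ 0 := mul_ne_zero (mul_ne_zero p3 q3) r3
    rw [tt, tt, tt]
    field_simp
    rw [h1, h2, h3]
    linear_combination (-c^3) * h4 * (-1) + (2 * L * c^2) * h5 + (3 * L^2 * c) * h6 + (- 4 * d * (d * L - c)) * h6
  set r : ℝ := (p : ℝ) ^ (2 * n) with hr
  have hrpos : 0 < r := pow_pos (p_pos (p := p)) _
  have hrP : r ≤ ‖xc P‖ := hP.resolve_left hP0
  have hrQ : r ≤ ‖xc Q‖ := hQ.resolve_left hQ0
  have hrR : r ≤ ‖xc R‖ := hR.resolve_left hR0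
  have hcn : 0 < ‖c‖ := norm_pos_iff.2 hc
  have hc2 : ‖c‖ ^ 2 = ‖xc P‖ * ‖xc Q‖ * ‖xc R‖ := by
    rw [← norm_pow, ← h6, norm_mul, norm_mul]
  have bP : ‖xc P‖ ≤ ‖c‖ ^ 2 / r ^ 2 := by
    rw [le_div_iff₀ (by positivity), hc2]
    have : r * r ≤ ‖xc Q‖ * ‖xc R‖ := mul_le_mul hrQ hrR hrpos.le (norm_nonneg _)
    nlinarith [norm_nonneg (xc P)]
  have bQ : ‖xc Q‖ ≤ ‖c‖ ^ 2 / r ^ 2 := by
    rw [le_div_iff₀ (by positivity), hc2]
    have : r * r ≤ ‖xc P‖ * ‖xc R‖ := mul_le_mul hrP hrR hrpos.le (norm_nonneg _)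
    nlinarith [norm_nonneg (xc Q)]
  have bR : ‖xc R‖ ≤ ‖c‖ ^ 2 / r ^ 2 := by
    rw [le_div_iff₀ (by positivity), hc2]
    have : r * r ≤ ‖xc P‖ * ‖xc Q‖ := mul_le_mul hrP hrQ hrpos.le (norm_nonneg _)
    nlinarith [norm_nonneg (xc R)]
  have bd : ‖4 * d‖ ≤ ‖c‖ ^ 2 / r ^ 2 := (norm_nat_mul_le 4 d).trans (p1.le.trans bP)
  have bL : ‖L‖ ^ 2 ≤ ‖c‖ ^ 2 / r ^ 2 := by
    rw [← norm_pow]
    have : L ^ 2 = xc P + xc Q + xc R + 4 * d := by linear_combination -h4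
    rw [this]
    exact nadd_le (nadd_le (nadd_le bP bQ) bR) bd
  have bLc : ‖L / c‖ ≤ r⁻¹ := by
    rw [norm_div, div_le_iff₀ hcn]
    apply le_of_sq_le_sq _ (by positivity)
    refine bL.trans (le_of_eq ?_)
    field_simp
  refine ⟨4 * d ^ 2 * (L / c) * (tt P * tt Q * tt R), ?_, ?_⟩
  · have b1 : ‖4 * d ^ 2 * (L / c) * (tt P * tt Q * tt R)‖ ≤
        ‖d‖ ^ 2 * r⁻¹ * (((p : ℝ) ^ n)⁻¹ * ((p : ℝ) ^ n)⁻¹ * ((p : ℝ) ^ n)⁻¹) := by
      have e : 4 * d ^ 2 * (L / c) * (tt P * tt Q * tt R) =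
          4 * (d ^ 2 * (L / c) * (tt P * tt Q * tt R)) := by ring
      rw [e]
      refine (norm_nat_mul_le 4 _).trans ?_
      rw [norm_mul (d ^ 2 * (L / c)), norm_mul (d ^ 2), norm_pow, norm_mul (tt P * tt Q),
        norm_mul (tt P)]
      have hn := norm_tt_le h hP
      have hn2 := norm_tt_le h hQ
      have hn3 := norm_tt_le h hR
      gcongr
    refine b1.trans (le_of_eq ?_)
    rw [hr]
    have : (p : ℝ) ≠ 0 := (p_pos (p := p)).ne'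
    field_simp
    ring
  · rw [key]; ring

omit [DecidableEq ℚ_[p]] in
theorem norm_d_sq_le {d : ℚ_[p]} {n : ℕ} (h : okl d n) :
    ‖d‖ ^ 2 * ((p : ℝ) ^ n)⁻¹ ^ 5 ≤ ((p : ℝ) ^ (n + 2))⁻¹ := by
  have hp1 := one_lt_p (p := p)
  rcases h.2 with h' | h'
  · calc ‖d‖ ^ 2 * ((p : ℝ) ^ n)⁻¹ ^ 5 ≤ 1 * ((p : ℝ) ^ n)⁻¹ ^ 5 := by
          gcongr; exact pow_le_one₀ (norm_nonneg _) h.1
      _ = ((p : ℝ) ^ (n * 5))⁻¹ := by rw [one_mul, inv_pow, ← pow_mul]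
      _ ≤ ((p : ℝ) ^ (n + 2))⁻¹ := by
          apply inv_anti₀ (by positivity)
          exact pow_le_pow_right₀ hp1.le (by omega)
  · calc ‖d‖ ^ 2 * ((p : ℝ) ^ n)⁻¹ ^ 5 ≤ (p : ℝ)⁻¹ ^ 2 * ((p : ℝ) ^ n)⁻¹ ^ 5 := by
          gcongr
      _ = ((p : ℝ) ^ (n * 5 + 2))⁻¹ := by
          rw [inv_pow, inv_pow, ← pow_mul, ← mul_inv, ← pow_add]
          congr 2; ring
      _ ≤ ((p : ℝ) ^ (n + 2))⁻¹ := by
          apply inv_anti₀ (by positivity)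
          exact pow_le_pow_right₀ hp1.le (by omega)

omit [DecidableEq ℚ_[p]] in
theorem norm_d_ttt_le {d : ℚ_[p]} {n : ℕ} (h : okl d n) {a b c : ℚ_[p]}
    (ha : ‖a‖ ≤ ((p : ℝ) ^ n)⁻¹) (hb : ‖b‖ ≤ ((p : ℝ) ^ n)⁻¹) (hc : ‖c‖ ≤ ((p : ℝ) ^ n)⁻¹) :
    ‖4 * d * (a * b * c)‖ ≤ ((p : ℝ) ^ (n + 1))⁻¹ := by
  have hp1 := one_lt_p (p := p)
  rw [mul_assoc]
  refine (norm_nat_mul_le 4 _).trans ?_
  rw [norm_mul, norm_mul, norm_mul]
  have h3 : ‖a‖ * ‖b‖ * ‖c‖ ≤ ((p : ℝ) ^ (n * 3))⁻¹ := by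
    calc ‖a‖ * ‖b‖ * ‖c‖ ≤ ((p : ℝ) ^ n)⁻¹ * ((p : ℝ) ^ n)⁻¹ * ((p : ℝ) ^ n)⁻¹ := by gcongr
      _ = ((p : ℝ) ^ (n * 3))⁻¹ := by
        rw [pow_mul, ← mul_inv, ← mul_inv]; congr 1; ring
  rcases h.2 with h' | h'
  · calc ‖d‖ * (‖a‖ * ‖b‖ * ‖c‖) ≤ 1 * ((p : ℝ) ^ (n * 3))⁻¹ := by
          have := h.1
          gcongr
      _ ≤ ((p : ℝ) ^ (n + 1))⁻¹ := by
          rw [one_mul]
          apply inv_anti₀ (by positivity)
          exact pow_le_pow_right₀ hp1.le (by omega)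
  · calc ‖d‖ * (‖a‖ * ‖b‖ * ‖c‖) ≤ (p : ℝ)⁻¹ * ((p : ℝ) ^ (n * 3))⁻¹ := by gcongr
      _ = ((p : ℝ) ^ (n * 3 + 1))⁻¹ := by
          rw [← mul_inv, pow_succ, mul_comm]
      _ ≤ ((p : ℝ) ^ (n + 1))⁻¹ := by
          apply inv_anti₀ (by positivity)
          exact pow_le_pow_right₀ hp1.le (by omega)

/-- refined additivity of `tt` -/
theorem tt_add {d : ℚ_[p]} {n : ℕ} (h : okl d n) {P Q : E d} (hP : fil n P) (hQ : fil n Q) :
    ‖tt (P + Q) - (tt P + tt Q - 4 * d * (tt P * tt Q * (tt P + tt Q)))‖ ≤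
      ((p : ℝ) ^ (n + 2))⁻¹ := by
  have hp1 := one_lt_p (p := p)
  have hpos : 0 ≤ ((p : ℝ) ^ (n + 2))⁻¹ := by positivity
  by_cases hP0 : P = 0
  · rw [hP0, zero_add, tt_zero]
    have : tt Q - (0 + tt Q - 4 * d * (0 * tt Q * (0 + tt Q))) = 0 := by ring
    rw [this, norm_zero]; exact hpos
  by_cases hQ0 : Q = 0
  · rw [hQ0, add_zero, tt_zero]
    have : tt P - (tt P + 0 - 4 * d * (tt P * 0 * (tt P + 0))) = 0 := by ring
    rw [this, norm_zero]; exact hpos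
  by_cases hPQ : P + Q = 0
  · have hQP : Q = -P := (neg_eq_of_add_eq_zero_right hPQ).symm
    rw [hPQ, hQP, tt_zero, tt_neg]
    have : (0 : ℚ_[p]) - (tt P + -tt P - 4 * d * (tt P * -tt P * (tt P + -tt P))) = 0 := by ring
    rw [this, norm_zero]; exact hpos
  have hR := fil_add h hP hQ
  obtain ⟨e, he, hsum⟩ := tt_sum h hP hQ (fil_neg hR) hP0 hQ0 (neg_ne hPQ) (add_neg_cancel _)
  rw [tt_neg] at hsum
  have hP' := norm_tt_le h hP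
  have hQ' := norm_tt_le h hQ
  have hR' := norm_tt_le h hR
  have he' := he.trans (norm_d_sq_le h)
  -- S - (P + Q) = -e - 4 d P Q S
  have e1 : tt (P + Q) - (tt P + tt Q) = -e - 4 * d * (tt P * tt Q * tt (P + Q)) := by
    linear_combination -hsum
  have e2 : ‖tt (P + Q) - (tt P + tt Q)‖ ≤ ((p : ℝ) ^ (n + 1))⁻¹ := by
    rw [e1]
    apply nsub_le
    · rw [norm_neg]
      refine he'.trans ?_
      apply inv_anti₀ (by positivity)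
      exact pow_le_pow_right₀ hp1.le (by omega)
    · exact norm_d_ttt_le h hP' hQ' hR'
  have e3 : tt (P + Q) - (tt P + tt Q - 4 * d * (tt P * tt Q * (tt P + tt Q))) =
      -e - 4 * d * (tt P * tt Q * (tt (P + Q) - (tt P + tt Q))) := by
    linear_combination e1
  rw [e3]
  apply nsub_le
  · rwa [norm_neg]
  · -- smallness of the correction
    rcases h.2 with h' | h'
    · rw [mul_assoc]
      refine (norm_nat_mul_le 4 _).trans ?_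
      rw [norm_mul, norm_mul, norm_mul]
      calc ‖d‖ * (‖tt P‖ * ‖tt Q‖ * ‖tt (P + Q) - (tt P + tt Q)‖)
          ≤ 1 * (((p : ℝ) ^ n)⁻¹ * ((p : ℝ) ^ n)⁻¹ * ((p : ℝ) ^ (n + 1))⁻¹) := by
            have := h.1
            gcongr
        _ = ((p : ℝ) ^ (n + n + (n + 1)))⁻¹ := by
            rw [one_mul, pow_add _ (n + n), pow_add _ n n, mul_inv, mul_inv]
        _ ≤ ((p : ℝ) ^ (n + 2))⁻¹ := by
            apply inv_anti₀ (by positivity)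
            exact pow_le_pow_right₀ hp1.le (by omega)
    · rw [mul_assoc]
      refine (norm_nat_mul_le 4 _).trans ?_
      rw [norm_mul, norm_mul, norm_mul]
      calc ‖d‖ * (‖tt P‖ * ‖tt Q‖ * ‖tt (P + Q) - (tt P + tt Q)‖)
          ≤ (p : ℝ)⁻¹ * (((p : ℝ) ^ n)⁻¹ * ((p : ℝ) ^ n)⁻¹ * ((p : ℝ) ^ (n + 1))⁻¹) := by
            gcongr
        _ = ((p : ℝ) ^ (1 + (n + n + (n + 1))))⁻¹ := by
            rw [pow_add _ 1, pow_add _ (n + n), pow_add _ n n, mul_inv, mul_inv, mul_inv, pow_one]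
        _ ≤ ((p : ℝ) ^ (n + 2))⁻¹ := by
            apply inv_anti₀ (by positivity)
            exact pow_le_pow_right₀ hp1.le (by omega)

/-- rough additivity of `tt` -/
theorem tt_add' {d : ℚ_[p]} {n : ℕ} (h : okl d n) {P Q : E d} (hP : fil n P) (hQ : fil n Q) :
    ‖tt (P + Q) - (tt P + tt Q)‖ ≤ ((p : ℝ) ^ (n + 1))⁻¹ := by
  have hp1 := one_lt_p (p := p)
  have h1 := tt_add h hP hQ
  have hP' := norm_tt_le h hP
  have hQ' := norm_tt_le h hQ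
  have e : tt (P + Q) - (tt P + tt Q) =
      (tt (P + Q) - (tt P + tt Q - 4 * d * (tt P * tt Q * (tt P + tt Q)))) -
        4 * d * (tt P * tt Q * (tt P + tt Q)) := by ring
  rw [e]
  apply nsub_le
  · refine h1.trans ?_
    apply inv_anti₀ (by positivity)
    exact pow_le_pow_right₀ hp1.le (by omega)
  · exact norm_d_ttt_le h hP' hQ' (nadd_le hP' hQ')

theorem tt_sub' {d : ℚ_[p]} {n : ℕ} (h : okl d n) {P Q : E d} (hP : fil n P) (hQ : fil n Q) :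
    ‖tt (P - Q) - (tt P - tt Q)‖ ≤ ((p : ℝ) ^ (n + 1))⁻¹ := by
  have := tt_add' h hP (fil_neg hQ)
  rwa [tt_neg, ← sub_eq_add_neg, ← sub_eq_add_neg] at this

end KumWA
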