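import Pool.Agent.Helper9.KumWA.Ends
import Pool.Agent.Helper38.KumWA_H1

/-!
# The final theorem
-/

namespace KumWA

open Topology

/-- density at finitely many primes -/
theorem near_all {ι : Type*} [Fintype ι] (q : ι → ℕ) [hq : ∀ i, Fact (q i).Prime]
    (hinj : Function.Injective q) (h8 : ∀ i, q i % 8 = 5)
    (hco : ∀ i j, i ≠ j → Nat.Coprime (q i * (q i + 1) / 2) (q j * (q j + 1) / 2))
    (v : ∀ i, Pt ℚ_[q i]) : Near q v :=
  Hyp.near ⟨h8, hco, near_diag q hinj⟩ v

/-- density in the product over a set of primes -/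
theorem dense_all (S : Set Nat.Primes) (h8 : ∀ p ∈ S, (p : ℕ) % 8 = 5)
    (hco : S.Pairwise fun p r => Nat.Coprime ((p : ℕ) * (p + 1) / 2) ((r : ℕ) * (r + 1) / 2)) :
    DenseRange (fun (u : Pt ℚ) (p : S) => Pt.map (emb ((p : Nat.Primes) : ℕ)) u) := by
  apply dense_of_near
  intro F v
  apply near_all
  · intro p r h
    exact Subtype.ext (Subtype.ext (Subtype.ext h))
  · intro p
    exact h8 _ (p : S).2
  · intro p r hpr
    apply hco (p : S).2 (r : S).2
    intro h
    exact hpr (Subtype.ext (Subtype.ext h))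

end KumWA
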