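import Pool.Agent.Helper9.KumWA.App

/-!
# Global approximation
-/

namespace KumWA

open Topology

variable {ι : Type*} (q : ι → ℕ) [hq : ∀ i, Fact (q i).Prime]

/-- the embedding of ℚ -/
noncomputable abbrev emb (p : ℕ) [Fact p.Prime] : ℚ →+* ℚ_[p] := Rat.castHom ℚ_[p]

/-- a family of local points which is a limit of rational points -/
def Near (v : ∀ i, Pt ℚ_[q i]) : Prop :=
  ∀ U : ∀ i, Set (Pt ℚ_[q i]), (∀ i, U i ∈ 𝓝 (v i)) → ∃ u : Pt ℚ, ∀ i, Pt.map (emb (q i)) u ∈ U i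

variable [hdec : ∀ i, DecidableEq ℚ_[q i]]

/-- approximable systems -/
def App (d : ∀ i, ℚ_[q i]) (P Q : ∀ i, E (d i)) : Prop :=
  ∀ n : ℕ, ∃ (e : ℚ) (A B : E e), e ≠ 0 ∧ ∀ i, ∃ (c : ℚ_[q i]) (hc : c ≠ 0) (hd : d i ≠ 0)
    (h : emb (q i) e = d i * c ^ 2),
    fil n (tr (emb (q i)) hc hd h A - P i) ∧ fil n (tr (emb (q i)) hc hd h B - Q i)

variable {q}

theorem App.lin {d : ∀ i, ℚ_[q i]} (hok : ∀ i, okl (d i) 0) {P Q : ∀ i, E (d i)} (h : App q d P Q)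
    (α β γ δ : ℤ) : App q d (fun i => α • P i + β • Q i) (fun i => γ • P i + δ • Q i) := by
  intro n
  obtain ⟨e, A, B, he, H⟩ := h n
  refine ⟨e, α • A + β • B, γ • A + δ • B, he, fun i => ?_⟩
  obtain ⟨c, hc, hd, hce, hA, hB⟩ := H i
  have hn := okl_mono (hok i) (Nat.zero_le n)
  refine ⟨c, hc, hd, hce, ?_, ?_⟩
  · have e1 : tr (emb (q i)) hc hd hce (α • A + β • B) - (α • P i + β • Q i) =
        α • (tr (emb (q i)) hc hd hce A - P i) + β • (tr (emb (q i)) hc hd hce B - Q i) := by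
      rw [map_add, map_zsmul, map_zsmul, zsmul_sub, zsmul_sub]; abel
    rw [e1]
    exact fil_add hn (fil_zsmul hn hA _) (fil_zsmul hn hB _)
  · have e1 : tr (emb (q i)) hc hd hce (γ • A + δ • B) - (γ • P i + δ • Q i) =
        γ • (tr (emb (q i)) hc hd hce A - P i) + δ • (tr (emb (q i)) hc hd hce B - Q i) := by
      rw [map_add, map_zsmul, map_zsmul, zsmul_sub, zsmul_sub]; abel
    rw [e1]
    exact fil_add hn (fil_zsmul hn hA _) (fil_zsmul hn hB _)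

theorem App.closed {d : ∀ i, ℚ_[q i]} (hok : ∀ i, okl (d i) 0) {P Q : ∀ i, E (d i)}
    (h : ∀ n : ℕ, ∃ P' Q' : ∀ i, E (d i), App q d P' Q' ∧ ∀ i, fil n (P i - P' i) ∧
      fil n (Q i - Q' i)) : App q d P Q := by
  intro n
  obtain ⟨P', Q', h', hPQ⟩ := h n
  obtain ⟨e, A, B, he, H⟩ := h' n
  refine ⟨e, A, B, he, fun i => ?_⟩
  obtain ⟨c, hc, hd, hce, hA, hB⟩ := H i
  have hn := okl_mono (hok i) (Nat.zero_le n)
  refine ⟨c, hc, hd, hce, ?_, ?_⟩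
  · have := fil_sub hn hA (hPQ i).1
    rwa [sub_sub_sub_cancel_right] at this
  · have := fil_sub hn hB (hPQ i).2
    rwa [sub_sub_sub_cancel_right] at this

omit hq hdec in
theorem int_crt [Fintype ι] (N : ι → ℕ) (hN : ∀ i, N i ≠ 0)
    (hco : ∀ i j, i ≠ j → Nat.Coprime (N i) (N j)) (a : ι → ℤ) :
    ∃ x : ℤ, ∀ i, (N i : ℤ) ∣ x - a i := by
  obtain ⟨k, hk⟩ := Nat.chineseRemainderOfFinset (fun i => (a i % N i).toNat) N Finset.univ
    (fun i _ => hN i) (fun i _ j _ hij => hco i j hij)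
  refine ⟨k, fun i => ?_⟩
  have h1 := hk i (Finset.mem_univ i)
  have h2 : ((a i % N i).toNat : ℤ) = a i % N i :=
    Int.toNat_of_nonneg (Int.emod_nonneg _ (by exact_mod_cast hN i))
  have h3 : (k : ℤ) ≡ a i % N i [ZMOD N i] := by
    rw [← h2]; exact_mod_cast h1
  have h4 : (k : ℤ) ≡ a i [ZMOD N i] := h3.trans (Int.mod_modEq _ _)
  exact (Int.modEq_iff_dvd.1 h4.symm)

/-- exponent property -/
def Expo {p : ℕ} [Fact p.Prime] [DecidableEq ℚ_[p]] (d : ℚ_[p]) : Prop :=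
  ∀ (P : E d) (n : ℕ), fil n (((p + 1) * p ^ n) • P)

theorem fil_of_expo {p : ℕ} [Fact p.Prime] [DecidableEq ℚ_[p]] {d : ℚ_[p]} (hok : okl d 0)
    (hex : Expo d) (P : E d) {n : ℕ} {m : ℤ} (hm : (((p + 1) * p ^ n : ℕ) : ℤ) ∣ m) :
    fil n (m • P) := by
  obtain ⟨k, rfl⟩ := hm
  rw [mul_comm, mul_zsmul, natCast_zsmul]
  exact fil_zsmul (okl_mono hok (Nat.zero_le n)) (hex P n) k

/-- the key CRT move -/
theorem App.crt [Fintype ι] {d : ∀ i, ℚ_[q i]} (hok : ∀ i, okl (d i) 0) (hex : ∀ i, Expo (d i))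
    (h8 : ∀ i, q i % 8 = 5)
    (hco : ∀ i j, i ≠ j → Nat.Coprime (q i * (q i + 1) / 2) (q j * (q j + 1) / 2))
    {P Q : ∀ i, E (d i)} (h : App q d P Q) (α β γ δ : ι → ℤ) (α₀ β₀ γ₀ δ₀ : ℤ)
    (hα : ∀ i, (2 : ℤ) ∣ α i - α₀) (hβ : ∀ i, (2 : ℤ) ∣ β i - β₀) (hγ : ∀ i, (2 : ℤ) ∣ γ i - γ₀)
    (hδ : ∀ i, (2 : ℤ) ∣ δ i - δ₀) :
    App q d (fun i => α i • P i + β i • Q i) (fun i => γ i • P i + δ i • Q i) := by
  apply App.closed hok
  intro n
  -- moduli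
  set N : ι → ℕ := fun i => (q i + 1) / 2 * q i ^ n with hNdef
  have hodd : ∀ i, q i + 1 = 2 * ((q i + 1) / 2) := fun i => by have := h8 i; omega
  have hN : ∀ i, N i ≠ 0 := fun i => by
    have := h8 i
    exact Nat.mul_ne_zero (by omega) (pow_ne_zero _ (by omega))
  have hfac : ∀ i, q i * (q i + 1) / 2 = q i * ((q i + 1) / 2) := fun i => by
    rw [Nat.mul_div_assoc]; have := h8 i; omega
  have hNco : ∀ i j, i ≠ j → Nat.Coprime (N i) (N j) := by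
    intro i j hij
    have h1 := hco i j hij
    rw [hfac, hfac] at h1
    have a1 := (Nat.Coprime.coprime_mul_left h1)
    have h2 : Nat.Coprime (q i) (q j) := (h1.coprime_mul_right).coprime_mul_right_right
    have h3 : Nat.Coprime (q i) ((q j + 1) / 2) := (h1.coprime_mul_right).coprime_mul_left_right
    have h4 : Nat.Coprime ((q i + 1) / 2) (q j) := (h1.coprime_mul_left).coprime_mul_right_right
    have h5 : Nat.Coprime ((q i + 1) / 2) ((q j + 1) / 2) := (h1.coprime_mul_left).coprime_mul_left_right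
    exact Nat.Coprime.mul_left (Nat.Coprime.mul_right h5 (h4.pow_right n))
      (Nat.Coprime.mul_right (h3.pow_left n) (Nat.Coprime.pow n n h2))
  have solve : ∀ (a : ι → ℤ) (a₀ : ℤ), (∀ i, (2 : ℤ) ∣ a i - a₀) →
      ∃ x : ℤ, ∀ i, (((q i + 1) * q i ^ n : ℕ) : ℤ) ∣ x - a i := by
    intro a a₀ ha
    choose b hb using ha
    obtain ⟨y, hy⟩ := int_crt N hN hNco b
    refine ⟨a₀ + 2 * y, fun i => ?_⟩
    obtain ⟨k, hk⟩ := hy i
    refine ⟨k, ?_⟩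
    have e1 : ((((q i + 1) * q i ^ n : ℕ)) : ℤ) = 2 * (N i : ℤ) := by
      have h6 : (q i + 1) * q i ^ n = 2 * N i := by
        simp only [hNdef]
        rw [← mul_assoc, ← hodd i]
      rw [h6]; push_cast; ring
    rw [e1]
    linear_combination 2 * hk - hb i
  obtain ⟨α', hα'⟩ := solve α α₀ hα
  obtain ⟨β', hβ'⟩ := solve β β₀ hβ
  obtain ⟨γ', hγ'⟩ := solve γ γ₀ hγ
  obtain ⟨δ', hδ'⟩ := solve δ δ₀ hδ
  refine ⟨_, _, h.lin hok α' β' γ' δ', fun i => ?_⟩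
  have hn := okl_mono (hok i) (Nat.zero_le n)
  constructor
  · have e1 : α i • P i + β i • Q i - (α' • P i + β' • Q i) =
        -((α' - α i) • P i) - (β' - β i) • Q i := by
      rw [sub_zsmul, sub_zsmul]; abel
    rw [e1]
    exact fil_sub hn (fil_neg (fil_of_expo (hok i) (hex i) _ (hα' i)))
      (fil_of_expo (hok i) (hex i) _ (hβ' i))
  · have e1 : γ i • P i + δ i • Q i - (γ' • P i + δ' • Q i) =
        -((γ' - γ i) • P i) - (δ' - δ i) • Q i := by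
      rw [sub_zsmul, sub_zsmul]; abel
    rw [e1]
    exact fil_sub hn (fil_neg (fil_of_expo (hok i) (hex i) _ (hγ' i)))
      (fil_of_expo (hok i) (hex i) _ (hδ' i))

theorem tr_T {K L : Type*} [Field K] [Field L] [DecidableEq K] [DecidableEq L] [CharZero K]
    [CharZero L] (φ : K →+* L) {c : L} (hc : c ≠ 0) {d : K} {e : L} (hd : d ≠ 0) (he : e ≠ 0)
    (h : φ d = e * c ^ 2) : tr φ hc he h (T hd) = T he := by
  apply eq_T_of_xc he (tr_ne φ hc he h (T_ne hd))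
  rw [xc_tr, xc_T]; simp

theorem App.addT {d : ∀ i, ℚ_[q i]} (hd0 : ∀ i, d i ≠ 0) {P Q : ∀ i, E (d i)}
    (h : App q d P Q) : App q d (fun i => P i + T (hd0 i)) Q := by
  intro n
  obtain ⟨e, A, B, he, H⟩ := h n
  refine ⟨e, A + T he, B, he, fun i => ?_⟩
  obtain ⟨c, hc, hd, hce, hA, hB⟩ := H i
  refine ⟨c, hc, hd, hce, ?_, hB⟩
  rw [map_add, tr_T _ hc he hd hce, add_sub_add_right_eq_sub]
  exact hA

theorem App.addT' {d : ∀ i, ℚ_[q i]} (hd0 : ∀ i, d i ≠ 0) {P Q : ∀ i, E (d i)}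
    (h : App q d P Q) : App q d P (fun i => Q i + T (hd0 i)) := by
  intro n
  obtain ⟨e, A, B, he, H⟩ := h n
  refine ⟨e, A, B + T he, he, fun i => ?_⟩
  obtain ⟨c, hc, hd, hce, hA, hB⟩ := H i
  refine ⟨c, hc, hd, hce, hA, ?_⟩
  rw [map_add, tr_T _ hc he hd hce, add_sub_add_right_eq_sub]
  exact hB

/-- f1 -/
theorem near_of_app [Fintype ι] {d : ∀ i, ℚ_[q i]} (hok : ∀ i, okl (d i) 0) {P Q : ∀ i, E (d i)}
    (h : App q d P Q) {v : ∀ i, Pt ℚ_[q i]} (hv : ∀ i, Rep (v i) (d i) (P i) (Q i)) :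
    Near q v := by
  intro U hU
  rcases isEmpty_or_nonempty ι with hι | ⟨⟨i₀⟩⟩
  · exact ⟨⟨(1, 1, 7), by norm_num [ff]⟩, fun i => (hι.false i).elim⟩
  choose n hn using fun i => loc_f1 (hok i) (hv i) (hU i)
  obtain ⟨e, A, B, he, H⟩ := h (Finset.univ.sup n)
  have key : ∀ i, ∃ (c : ℚ_[q i]) (hc : c ≠ 0) (hd : d i ≠ 0) (hce : emb (q i) e = d i * c ^ 2),
      yc (tr (emb (q i)) hc hd hce A) ≠ 0 ∧ yc (tr (emb (q i)) hc hd hce B) ≠ 0 ∧
      ∀ u : Pt ℚ_[q i], Rep u (d i) (tr (emb (q i)) hc hd hce A) (tr (emb (q i)) hc hd hce B) →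
        u ∈ U i := by
    intro i
    obtain ⟨c, hc, hd, hce, hA, hB⟩ := H i
    have hle : n i ≤ Finset.univ.sup n := Finset.le_sup (Finset.mem_univ i)
    obtain ⟨h1, h2, h3, h4, h5⟩ := hn i _ _ (fil_mono hle hA) (fil_mono hle hB)
    exact ⟨c, hc, hd, hce, h3, h4, h5⟩
  have hyA : yc A ≠ 0 := by
    obtain ⟨c, hc, hd, hce, h1, -⟩ := key i₀
    rintro h0
    apply h1
    rw [yc_tr, h0]; simp
  have hyB : yc B ≠ 0 := by
    obtain ⟨c, hc, hd, hce, -, h1, -⟩ := key i₀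
    rintro h0
    apply h1
    rw [yc_tr, h0]; simp
  refine ⟨mkPt he A B hyA hyB, fun i => ?_⟩
  obtain ⟨c, hc, hd, hce, h1, h2, h3⟩ := key i
  apply h3
  obtain ⟨-, g1, g2, g3, g4, g5⟩ := rep_mkPt he hyA hyB
  have f3 := congrArg (emb (q i)) g3
  have f4 := congrArg (emb (q i)) g4
  have f5 := congrArg (emb (q i)) g5
  rw [map_mul, hce] at f3 f4
  rw [map_mul, map_mul, map_pow, hce] at f5
  refine ⟨hd, tr_ne _ hc hd hce g1, tr_ne _ hc hd hce g2, ?_, ?_, ?_⟩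
  · rw [Pt.map_x, xc_tr, ← f3]; field_simp
  · rw [Pt.map_y, xc_tr, ← f4]; field_simp
  · rw [Pt.map_z, yc_tr, yc_tr]
    field_simp
    linear_combination f5

/-- f2 -/
theorem app_of_near {v : ∀ i, Pt ℚ_[q i]} (hne : ∀ i, q i ≠ 2) (hv : Near q v)
    {d : ∀ i, ℚ_[q i]} {P Q : ∀ i, E (d i)} (hrep : ∀ i, Rep (v i) (d i) (P i) (Q i)) :
    App q d P Q := by
  intro n
  obtain ⟨u, hu⟩ := hv _ (fun i => loc_f2 (hne i) (hrep i) n)
  have he : ff u.x ≠ 0 := u.hfx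
  set e := ff u.x with hedef
  have hAeq : (e ^ 2) ^ 2 = (e * u.x) ^ 3 + 4 * e * (e * u.x) ^ 2 + 2 * e ^ 2 * (e * u.x) := by
    have : e = u.x ^ 3 + 4 * u.x ^ 2 + 2 * u.x := rfl
    linear_combination e ^ 3 * this
  have hBeq : (e * u.z) ^ 2 = (e * u.y) ^ 3 + 4 * e * (e * u.y) ^ 2 + 2 * e ^ 2 * (e * u.y) := by
    have h1 := u.eqn
    have : ff u.y = u.y ^ 3 + 4 * u.y ^ 2 + 2 * u.y := rfl
    rw [mul_pow, h1, ← hedef, this]; ring
  refine ⟨e, mkP he (e * u.x) (e ^ 2) hAeq, mkP he (e * u.y) (e * u.z) hBeq, he, fun i => ?_⟩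
  obtain ⟨c, hc, hce, H⟩ := hu i
  have hd : d i ≠ 0 := (hrep i).1
  have hce' : emb (q i) e = d i * c ^ 2 := by
    rw [← hce, hedef, map_ff]; rfl
  refine ⟨c, hc, hd, hce', ?_⟩
  apply H
  · exact tr_ne _ hc hd hce' (mkP_ne _ _ _ _)
  · exact tr_ne _ hc hd hce' (mkP_ne _ _ _ _)
  · rw [xc_tr, xc_mkP, map_mul, hce', Pt.map_x]; field_simp
  · rw [yc_tr, yc_mkP, map_pow, hce']; field_simp
  · rw [xc_tr, xc_mkP, map_mul, hce', Pt.map_y]; field_simp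
  · rw [yc_tr, yc_mkP, map_mul, hce', Pt.map_z]; field_simp

end KumWA
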