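import Pool.Agent.Helper9.KumWA.Global

/-!
# The birational involution `(x, y, z) ↦ (ρ x, ρ y, κ z)`
-/

namespace KumWA

open Topology

section field

variable {K : Type*} [Field K]

/-- denominator of the involution -/
def Dn (x y : K) : K := 4 * x * y + 2 * (x + y)

/-- the quadratic form of the involution -/
def qn (x y : K) : K := 2 * (x ^ 2 - 6 * x * y + y ^ 2)

/-- the quadratic factor of `ff` -/
def gg (x : K) : K := x ^ 2 + 4 * x + 2

theorem ff_eq (x : K) : ff x = x * gg x := by unfold ff gg; ring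

/-- domain of the involution -/
def IOK (u : Pt K) : Prop := Dn u.x u.y ≠ 0 ∧ u.x + u.y + 4 ≠ 0 ∧ qn u.x u.y ≠ 0

/-- scaling factor -/
def rho (x y : K) : K := -2 * (x + y + 4) / Dn x y

/-- scaling factor of z -/
def kap (x y : K) : K := -4 * (x + y + 4) * qn x y / Dn x y ^ 3

theorem Dn_comm (x y : K) : Dn x y = Dn y x := by unfold Dn; ring

theorem qn_comm (x y : K) : qn x y = qn y x := by unfold qn; ring

theorem rho_comm (x y : K) : rho x y = rho y x := by
  unfold rho; rw [Dn_comm, add_comm x y]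

theorem kap_comm (x y : K) : kap x y = kap y x := by
  unfold kap; rw [Dn_comm, qn_comm, add_comm x y]

theorem ff_rho {x y : K} (hD : Dn x y ≠ 0) : ff (rho x y * x) = kap x y * ff x := by
  unfold rho kap
  have h1 : Dn x y = 4 * x * y + 2 * (x + y) := rfl
  have h2 : qn x y = 2 * (x ^ 2 - 6 * x * y + y ^ 2) := rfl
  generalize hDD : Dn x y = D at *
  unfold ff
  field_simp
  rw [h2]
  have hy : 2 * (x + y) = D - 4 * x * y := by rw [h1]; ring
  subst h1
  ring

theorem ff_rho' {x y : K} (hD : Dn x y ≠ 0) : ff (rho x y * y) = kap x y * ff y := by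
  rw [rho_comm, kap_comm]
  exact ff_rho (by rwa [Dn_comm])

theorem gg_rho {x y : K} (hD : Dn x y ≠ 0) :
    gg (rho x y * x) = 2 * qn x y * gg x / Dn x y ^ 2 := by
  unfold rho
  have h1 : Dn x y = 4 * x * y + 2 * (x + y) := rfl
  have h2 : qn x y = 2 * (x ^ 2 - 6 * x * y + y ^ 2) := rfl
  generalize hDD : Dn x y = D at *
  unfold gg
  field_simp
  rw [h2]
  subst h1
  ring

theorem gg_rho' {x y : K} (hD : Dn x y ≠ 0) :
    gg (rho x y * y) = 2 * qn x y * gg y / Dn x y ^ 2 := by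
  rw [rho_comm, gg_rho (by rwa [Dn_comm]), Dn_comm, qn_comm]

theorem Dn_rho {x y : K} (hD : Dn x y ≠ 0) :
    Dn (rho x y * x) (rho x y * y) = rho x y * (2 * qn x y / Dn x y) := by
  have h1 : Dn (rho x y * x) (rho x y * y) = rho x y * (4 * rho x y * x * y + 2 * (x + y)) := by
    unfold Dn; ring
  rw [h1]
  congr 1
  unfold rho
  have h1 : Dn x y = 4 * x * y + 2 * (x + y) := rfl
  have h2 : qn x y = 2 * (x ^ 2 - 6 * x * y + y ^ 2) := rfl
  generalize hDD : Dn x y = D at *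
  field_simp
  rw [h2]
  subst h1
  ring

theorem sum_rho {x y : K} (hD : Dn x y ≠ 0) :
    rho x y * x + rho x y * y + 4 = - qn x y / Dn x y := by
  unfold rho
  have h1 : Dn x y = 4 * x * y + 2 * (x + y) := rfl
  have h2 : qn x y = 2 * (x ^ 2 - 6 * x * y + y ^ 2) := rfl
  generalize hDD : Dn x y = D at *
  field_simp
  rw [h2]
  subst h1
  ring

theorem qn_rho (r x y : K) : qn (r * x) (r * y) = r ^ 2 * qn x y := by
  unfold qn; ring

variable [CharZero K]

theorem rho_ne {x y : K} (hD : Dn x y ≠ 0) (hs : x + y + 4 ≠ 0) : rho x y ≠ 0 :=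
  div_ne_zero (mul_ne_zero (by norm_num) hs) hD

theorem kap_ne {x y : K} (hD : Dn x y ≠ 0) (hs : x + y + 4 ≠ 0) (hq : qn x y ≠ 0) :
    kap x y ≠ 0 :=
  div_ne_zero (mul_ne_zero (mul_ne_zero (by norm_num) hs) hq) (pow_ne_zero _ hD)

theorem rho_rho {x y : K} (hD : Dn x y ≠ 0) (hs : x + y + 4 ≠ 0) (hq : qn x y ≠ 0) :
    rho (rho x y * x) (rho x y * y) * rho x y = 1 := by
  have hr := rho_ne hD hs
  have h1 : rho (rho x y * x) (rho x y * y) =
      -2 * (rho x y * x + rho x y * y + 4) / Dn (rho x y * x) (rho x y * y) := rfl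
  rw [h1, sum_rho hD, Dn_rho hD]
  field_simp

theorem kap_kap {x y : K} (hD : Dn x y ≠ 0) (hs : x + y + 4 ≠ 0) (hq : qn x y ≠ 0) :
    kap (rho x y * x) (rho x y * y) * kap x y = 1 := by
  have hr := rho_ne hD hs
  have h1 : kap (rho x y * x) (rho x y * y) =
      -4 * (rho x y * x + rho x y * y + 4) * qn (rho x y * x) (rho x y * y) /
        Dn (rho x y * x) (rho x y * y) ^ 3 := rfl
  rw [h1, sum_rho hD, Dn_rho hD, qn_rho]
  have h2 : kap x y = -4 * (x + y + 4) * qn x y / Dn x y ^ 3 := rfl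
  have h3 : rho x y * Dn x y = -2 * (x + y + 4) := by
    unfold rho; field_simp
  rw [h2]
  field_simp
  linear_combination (-8) * h3

/-- the involution -/
def iota (u : Pt K) (h : IOK u) : Pt K :=
  ⟨(rho u.x u.y * u.x, rho u.x u.y * u.y, kap u.x u.y * u.z), by
    refine ⟨?_, mul_ne_zero (kap_ne h.1 h.2.1 h.2.2) u.hz⟩
    change (kap u.x u.y * u.z) ^ 2 = ff (rho u.x u.y * u.x) * ff (rho u.x u.y * u.y)
    rw [ff_rho h.1, ff_rho' h.1, mul_pow, u.eqn]; ring⟩

@[simp] theorem iota_x (u : Pt K) (h : IOK u) : (iota u h).x = rho u.x u.y * u.x := rfl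

@[simp] theorem iota_y (u : Pt K) (h : IOK u) : (iota u h).y = rho u.x u.y * u.y := rfl

@[simp] theorem iota_z (u : Pt K) (h : IOK u) : (iota u h).z = kap u.x u.y * u.z := rfl

theorem IOK_iota (u : Pt K) (h : IOK u) : IOK (iota u h) := by
  refine ⟨?_, ?_, ?_⟩
  · rw [iota_x, iota_y, Dn_rho h.1]
    exact mul_ne_zero (rho_ne h.1 h.2.1) (div_ne_zero (mul_ne_zero two_ne_zero h.2.2) h.1)
  · rw [iota_x, iota_y, sum_rho h.1]
    exact div_ne_zero (neg_ne_zero.2 h.2.2) h.1
  · rw [iota_x, iota_y, qn_rho]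
    exact mul_ne_zero (pow_ne_zero _ (rho_ne h.1 h.2.1)) h.2.2

theorem iota_iota (u : Pt K) (h : IOK u) : iota (iota u h) (IOK_iota u h) = u := by
  have h1 := rho_rho h.1 h.2.1 h.2.2
  have h2 := kap_kap h.1 h.2.1 h.2.2
  apply Pt.ext
  · rw [iota_x, iota_x, iota_y, ← mul_assoc, h1, one_mul]
  · rw [iota_y, iota_x, iota_y, ← mul_assoc, h1, one_mul]
  · rw [iota_z, iota_x, iota_y, iota_z, ← mul_assoc, h2, one_mul]

end field

/-! ### compatibility with field homomorphisms -/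

section map

variable {K L : Type*} [Field K] [Field L] [CharZero K] [CharZero L] (φ : K →+* L)

omit [CharZero K] [CharZero L] in
theorem map_Dn (x y : K) : φ (Dn x y) = Dn (φ x) (φ y) := by simp [Dn, map_ofNat]

omit [CharZero K] [CharZero L] in
theorem map_qn (x y : K) : φ (qn x y) = qn (φ x) (φ y) := by simp [qn, map_ofNat]

omit [CharZero K] [CharZero L] in
theorem map_rho (x y : K) : φ (rho x y) = rho (φ x) (φ y) := by
  simp [rho, map_Dn, map_ofNat]

omit [CharZero K] [CharZero L] in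
theorem map_kap (x y : K) : φ (kap x y) = kap (φ x) (φ y) := by
  simp [kap, map_Dn, map_qn, map_ofNat]

omit [CharZero K] [CharZero L] in
theorem IOK_map (u : Pt K) : IOK (Pt.map φ u) ↔ IOK u := by
  unfold IOK
  rw [Pt.map_x, Pt.map_y, ← map_Dn, ← map_qn, ← map_ofNat φ 4, ← map_add, ← map_add,
    map_ne_zero, map_ne_zero, map_ne_zero]

theorem iota_map (u : Pt K) (h : IOK u) :
    Pt.map φ (iota u h) = iota (Pt.map φ u) ((IOK_map φ u).2 h) := by
  apply Pt.ext
  · simp [map_rho]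
  · simp [map_rho]
  · simp [map_kap]

end map

/-! ### continuity -/

theorem iota_nhds {p : ℕ} [Fact p.Prime] {w : Pt ℚ_[p]} (hw : IOK w) {U : Set (Pt ℚ_[p])}
    (hU : U ∈ 𝓝 (iota w hw)) : ∀ᶠ u in 𝓝 w, ∃ h : IOK u, iota u h ∈ U := by
  obtain ⟨ε, hε, H⟩ := pt_nhds hU
  have cx := continuous_ptx (p := p)
  have cy := continuous_pty (p := p)
  have cz := continuous_ptz (p := p)
  have cD : Continuous (fun u : Pt ℚ_[p] => Dn u.x u.y) := by
    unfold Dn; fun_prop
  have cs : Continuous (fun u : Pt ℚ_[p] => u.x + u.y + 4) := by fun_prop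
  have cq : Continuous (fun u : Pt ℚ_[p] => qn u.x u.y) := by
    unfold qn; fun_prop
  have e1 : ∀ᶠ u in 𝓝 w, Dn u.x u.y ≠ 0 := cD.continuousAt.eventually_ne hw.1
  have e2 : ∀ᶠ u in 𝓝 w, u.x + u.y + 4 ≠ 0 := cs.continuousAt.eventually_ne hw.2.1
  have e3 : ∀ᶠ u in 𝓝 w, qn u.x u.y ≠ 0 := cq.continuousAt.eventually_ne hw.2.2
  have crho : ContinuousAt (fun u : Pt ℚ_[p] => rho u.x u.y) w := by
    unfold rho
    exact (continuous_const.mul cs).continuousAt.div cD.continuousAt hw.1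
  have ckap : ContinuousAt (fun u : Pt ℚ_[p] => kap u.x u.y) w := by
    unfold kap
    exact ((continuous_const.mul cs).mul cq).continuousAt.div (cD.pow 3).continuousAt
      (pow_ne_zero _ hw.1)
  have f1 : ∀ᶠ u in 𝓝 w, ‖rho u.x u.y * u.x - rho w.x w.y * w.x‖ < ε := by
    have : ContinuousAt (fun u : Pt ℚ_[p] => ‖rho u.x u.y * u.x - rho w.x w.y * w.x‖) w :=
      ((crho.mul cx.continuousAt).sub continuousAt_const).norm
    exact this.eventually_lt continuousAt_const (by simpa using hε)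
  have f2 : ∀ᶠ u in 𝓝 w, ‖rho u.x u.y * u.y - rho w.x w.y * w.y‖ < ε := by
    have : ContinuousAt (fun u : Pt ℚ_[p] => ‖rho u.x u.y * u.y - rho w.x w.y * w.y‖) w :=
      ((crho.mul cy.continuousAt).sub continuousAt_const).norm
    exact this.eventually_lt continuousAt_const (by simpa using hε)
  have f3 : ∀ᶠ u in 𝓝 w, ‖kap u.x u.y * u.z - kap w.x w.y * w.z‖ < ε := by
    have : ContinuousAt (fun u : Pt ℚ_[p] => ‖kap u.x u.y * u.z - kap w.x w.y * w.z‖) w :=
      ((ckap.mul cz.continuousAt).sub continuousAt_const).norm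
    exact this.eventually_lt continuousAt_const (by simpa using hε)
  filter_upwards [e1, e2, e3, f1, f2, f3] with u h1 h2 h3 g1 g2 g3
  exact ⟨⟨h1, h2, h3⟩, H _ g1 g2 g3⟩

/-- f3 : the involution preserves limits of rational points -/
theorem near_iota {ι : Type*} {q : ι → ℕ} [∀ i, Fact (q i).Prime] {w : ∀ i, Pt ℚ_[q i]}
    (h : Near q w) (hw : ∀ i, IOK (w i)) : Near q (fun i => iota (w i) (hw i)) := by
  intro U hU
  obtain ⟨u, hu⟩ := h _ (fun i => iota_nhds (hw i) (hU i))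
  rcases isEmpty_or_nonempty ι with hι | ⟨⟨i₀⟩⟩
  · exact ⟨u, fun i => (hι.false i).elim⟩
  obtain ⟨hI, -⟩ := hu i₀
  have hI' : IOK u := (IOK_map _ u).1 hI
  refine ⟨iota u hI', fun i => ?_⟩
  obtain ⟨h1, h2⟩ := hu i
  rw [iota_map]
  exact h2

theorem near_of_iota {ι : Type*} {q : ι → ℕ} [∀ i, Fact (q i).Prime] {w : ∀ i, Pt ℚ_[q i]}
    (hw : ∀ i, IOK (w i)) (h : Near q (fun i => iota (w i) (hw i))) : Near q w := by
  have := near_iota h (fun i => IOK_iota (w i) (hw i))
  simp only [iota_iota] at this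
  exact this

end KumWA
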