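import Pool.Agent.Helper9.KumWA.Iota
import Pool.Agent.Helper10.K3.LocalFinal

/-!
# Colours, normalised representations and the special pairs
-/

namespace KumWA

open Topology

section field

variable {K : Type*} [Field K] [CharZero K]

omit [CharZero K] in
theorem yc_sq_gg {d : K} (hd : d ≠ 0) (P : E d) : yc P ^ 2 = d ^ 2 * xc P * gg (xc P / d) := by
  rw [curve_eq, gg]; field_simp

omit [CharZero K] in
theorem xc_ne_of_yc {d : K} {P : E d} (hy : yc P ≠ 0) : xc P ≠ 0 := by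
  intro h
  apply hy
  have := curve_eq P
  rw [h] at this
  have h2 : yc P ^ 2 = 0 := by linear_combination this
  exact pow_eq_zero_iff two_ne_zero |>.1 h2

omit [CharZero K] in
theorem ne_zero_of_yc {d : K} {P : E d} (hy : yc P ≠ 0) : P ≠ 0 := by
  rintro rfl; exact hy yc_zero

omit [CharZero K] in
theorem par_iff_gg {d : K} (hd : d ≠ 0) {P : E d} (hy : yc P ≠ 0) :
    par P ↔ IsSquare (gg (xc P / d)) := by
  have hx := xc_ne_of_yc hy
  have h := yc_sq_gg hd P
  have hg : gg (xc P / d) ≠ 0 := by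
    intro h0
    rw [h0, mul_zero] at h
    exact hy (pow_eq_zero_iff two_ne_zero |>.1 h)
  constructor
  · rintro (h0 | ⟨-, h1⟩)
    · exact absurd h0 (ne_zero_of_yc hy)
    · have e : gg (xc P / d) = yc P ^ 2 / (d ^ 2 * xc P) := by
        rw [eq_div_iff (mul_ne_zero (pow_ne_zero _ hd) hx)]; linear_combination -h
      rw [e]
      exact (IsSquare.sq _).div ((IsSquare.sq _).mul h1)
  · intro h1
    right
    refine ⟨hx, ?_⟩
    have e : xc P = yc P ^ 2 / (d ^ 2 * gg (xc P / d)) := by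
      rw [eq_div_iff (mul_ne_zero (pow_ne_zero _ hd) hg)]; linear_combination -h
    rw [e]
    exact (IsSquare.sq _).div ((IsSquare.sq _).mul h1)

omit [CharZero K] in
/-- colour of a point of the surface (first coordinate) -/
theorem Rep.par₁ {u : Pt K} {d : K} {P Q : E d} (h : Rep u d P Q) :
    par P ↔ IsSquare (gg u.x) := by
  rw [par_iff_gg h.1 h.yc_ne.1, ← h.2.2.2.1, mul_div_cancel_right₀ _ h.1]

omit [CharZero K] in
theorem Rep.par₂ {u : Pt K} {d : K} {P Q : E d} (h : Rep u d P Q) :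
    par Q ↔ IsSquare (gg u.y) := by
  rw [par_iff_gg h.1 h.yc_ne.2, ← h.2.2.2.2.1, mul_div_cancel_right₀ _ h.1]

omit [CharZero K] in
theorem gg_ne_x (u : Pt K) : gg u.x ≠ 0 := by
  intro h; apply u.hfx; rw [ff_eq, h, mul_zero]

omit [CharZero K] in
theorem gg_ne_y (u : Pt K) : gg u.y ≠ 0 := by
  intro h; apply u.hfy; rw [ff_eq, h, mul_zero]

omit [CharZero K] in
theorem isSquare_mul_iff {a b : K} (ha : a ≠ 0) (h : IsSquare a) : IsSquare (a * b) ↔ IsSquare b := by
  constructor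
  · intro h1
    have := h1.div h
    rwa [mul_div_cancel_left₀ _ ha] at this
  · intro h1; exact h.mul h1

omit [CharZero K] in
/-- a colour is flipped by a nonsquare factor -/
theorem flip_iff (hK : KHyp K) {a g : K} (ha : a ≠ 0) (hsq : IsSquare a) (hg : g ≠ 0)
    (hg2 : IsSquare g ∨ IsSquare (2 * g)) : IsSquare (2 * a * g) ↔ ¬ IsSquare g := by
  have e : 2 * a * g = a * (2 * g) := by ring
  rw [e, isSquare_mul_iff ha hsq]
  constructor
  · intro h1 h2
    exact hK.not_both hg h2 h1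
  · intro h1
    exact hg2.resolve_left h1

omit [CharZero K] in
theorem KHyp.gg_cases (hK : KHyp K) (x : K) : IsSquare (gg x) ∨ IsSquare (2 * gg x) := by
  have := hK.nrm (x + 2) 1
  have e : (x + 2) ^ 2 - 2 * 1 ^ 2 = gg x := by unfold gg; ring
  rwa [e] at this

omit [CharZero K] in
theorem KHyp.gg_ne (hK : KHyp K) (x : K) : gg x ≠ 0 := by
  have := hK.norm_ne (u := x + 2) (v := 1) one_ne_zero
  have e : (x + 2) ^ 2 - 2 * 1 ^ 2 = gg x := by unfold gg; ring
  rwa [e] at this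

variable [DecidableEq K]

/-- kappa = 1 pairs, starting from any point outside `Par` -/
theorem kappa1 (hK : KHyp K) (hm : IsSquare (-1 : K)) {d : K} (hd : d ≠ 0) {Q : E d}
    (hQ : ¬ par Q) (hy : yc Q ≠ 0) : ∃ R : E d, yc R ≠ 0 ∧
      Dn (xc Q / d) (xc R / d) ≠ 0 ∧ xc Q / d + xc R / d + 4 ≠ 0 ∧
      qn (xc Q / d) (xc R / d) ≠ 0 ∧ IsSquare (qn (xc Q / d) (xc R / d)) := by
  have hx := xc_ne_of_yc hy
  have hQ0 := ne_zero_of_yc hy
  have hQT : Q ≠ T hd := by rintro rfl; exact hx (xc_T hd)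
  obtain ⟨-, h1 | ⟨-, h2x⟩⟩ := not_par_cases hK hd hQ
  · exact absurd h1 hQT
  set x := xc Q / d with hxdef
  have hxd : xc Q = x * d := by rw [hxdef]; field_simp
  have hx0 : x ≠ 0 := div_ne_zero hx hd
  have hg : ¬ IsSquare (gg x) := by rwa [← par_iff_gg hd hy]
  have hg2 : IsSquare (2 * gg x) := (hK.gg_cases x).resolve_left hg
  have hgx := hK.gg_ne x
  have hgmx := hK.gg_ne (-x)
  rcases hK.gg_cases (-x) with hs | hs
  · -- R = Q + T
    obtain ⟨h1, -, h3, h4⟩ := add_T hd hQ0 hQT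
    have hR : xc (Q + T hd) / d = 2 / x := by
      rw [h3, hxd]; field_simp
    refine ⟨Q + T hd, ?_, ?_, ?_, ?_, ?_⟩
    · rw [h4]
      exact div_ne_zero (mul_ne_zero (neg_ne_zero.2 (mul_ne_zero two_ne_zero (pow_ne_zero _ hd))) hy)
        (pow_ne_zero _ hx)
    · rw [hR]
      have e : Dn x (2 / x) = 2 * gg x / x := by unfold Dn gg; field_simp; ring
      rw [e]
      exact div_ne_zero (mul_ne_zero two_ne_zero hgx) hx0
    · rw [hR]
      have e : x + 2 / x + 4 = gg x / x := by unfold gg; field_simp; ring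
      rw [e]
      exact div_ne_zero hgx hx0
    · rw [hR]
      have e : qn x (2 / x) = 2 * gg x * gg (-x) / x ^ 2 := by unfold qn gg; field_simp; ring
      rw [e]
      exact div_ne_zero (mul_ne_zero (mul_ne_zero two_ne_zero hgx) hgmx) (pow_ne_zero _ hx0)
    · rw [hR]
      have e : qn x (2 / x) = 2 * gg x * gg (-x) / x ^ 2 := by unfold qn gg; field_simp; ring
      rw [e]
      exact (hg2.mul hs).div (IsSquare.sq _)
  · -- x(R) = -x(Q)
    have hsq : IsSquare (d ^ 3 * ff (-x)) := by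
      have e : d ^ 3 * ff (-x) = -1 * (d ^ 2 / 4) * ((2 * xc Q) * (2 * gg (-x))) := by
        rw [ff_eq, hxd]; field_simp; ring
      rw [e]
      refine (hm.mul ?_).mul (h2x.mul hs)
      refine ⟨d / 2, ?_⟩
      field_simp; norm_num
    obtain ⟨Y, hY⟩ := hsq
    have hYeq : Y ^ 2 = (-x * d) ^ 3 + 4 * d * (-x * d) ^ 2 + 2 * d ^ 2 * (-x * d) := by
      rw [sq, ← hY]; unfold ff; ring
    have hY0 : Y ≠ 0 := by
      rintro rfl
      rw [mul_zero, ff_eq] at hY
      exact mul_ne_zero (pow_ne_zero 3 hd) (mul_ne_zero (neg_ne_zero.2 hx0) hgmx) hY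
    have hR : xc (mkP hd (-x * d) Y hYeq) / d = -x := by
      rw [xc_mkP]; field_simp
    refine ⟨mkP hd (-x * d) Y hYeq, hY0, ?_, ?_, ?_, ?_⟩
    · rw [hR]
      have e : Dn x (-x) = -4 * x ^ 2 := by unfold Dn; ring
      rw [e]
      exact mul_ne_zero (by norm_num) (pow_ne_zero _ hx0)
    · rw [hR]
      have e : x + -x + 4 = 4 := by ring
      rw [e]; norm_num
    · rw [hR]
      have e : qn x (-x) = (4 * x) ^ 2 := by unfold qn; ring
      rw [e]
      exact pow_ne_zero _ (mul_ne_zero (by norm_num) hx0)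
    · rw [hR]
      have e : qn x (-x) = (4 * x) ^ 2 := by unfold qn; ring
      rw [e]
      exact IsSquare.sq _

end field

section padic

open Classical

variable {p : ℕ} [hp : Fact p.Prime]

/-- conditions satisfied by `y` large or by `2/y` -/
theorem kappa0_aux (h8 : p % 8 = 5) {x : ℚ_[p]} (hx : x ≠ 0) : ∃ B : ℝ, 0 < B ∧ ∀ y : ℚ_[p], B < ‖y‖ →
    (Dn x y ≠ 0 ∧ x + y + 4 ≠ 0 ∧ qn x y ≠ 0 ∧ IsSquare (2 * qn x y)) ∧
    (Dn x (2 / y) ≠ 0 ∧ x + 2 / y + 4 ≠ 0 ∧ qn x (2 / y) ≠ 0 ∧ IsSquare (2 * qn x (2 / y))) := by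
  have h2 := p_ne_two h8
  refine ⟨1 + ‖x‖ + ‖2 * x / (4 * x + 2)‖ + ‖x + 4‖ + ‖(4 * x + 2) / x‖ + ‖2 / (x + 4)‖ + ‖1 / x‖,
    by positivity, ?_⟩
  intro y hy
  have n1 := norm_nonneg x
  have n2 := norm_nonneg (2 * x / (4 * x + 2))
  have n3 := norm_nonneg (x + 4)
  have n4 := norm_nonneg ((4 * x + 2) / x)
  have n5 := norm_nonneg (2 / (x + 4))
  have n6 := norm_nonneg (1 / x)
  have hyn : 0 < ‖y‖ := by linarith
  have hy0 : y ≠ 0 := norm_pos_iff.1 hyn
  have hxy : ‖x‖ < ‖y‖ := by linarith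
  have h4 := norm_four (p := p) h2
  have hxn : 0 < ‖x‖ := norm_pos_iff.2 hx
  refine ⟨⟨?_, ?_, ?_⟩, ⟨?_, ?_, ?_⟩⟩
  · intro h
    by_cases h0 : 4 * x + 2 = 0
    · have : 2 * x = 0 := by unfold Dn at h; linear_combination h - y * h0
      exact hx (by simpa using this)
    · have : y = -(2 * x / (4 * x + 2)) := by
        rw [← neg_div, eq_div_iff h0]; unfold Dn at h; linear_combination h
      rw [this, norm_neg] at hy
      linarith
  · intro h
    have : y = -(x + 4) := by linear_combination h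
    rw [this, norm_neg] at hy
    linarith
  · have hclose : ‖2 * qn x y - 4 * y ^ 2‖ < ‖4 * y ^ 2‖ := by
      have e : 2 * qn x y - 4 * y ^ 2 = 4 * (x * (x - 6 * y)) := by unfold qn; ring
      rw [e, norm_mul 4, norm_mul 4, h4, one_mul, one_mul, norm_mul, norm_pow, sq]
      have h6 : ‖x - 6 * y‖ ≤ ‖y‖ := nsub_le hxy.le (norm_nat_mul_le 6 y)
      exact mul_lt_mul hxy h6 (by
        rw [norm_pos_iff]
        intro h0
        have : x = 6 * y := by linear_combination h0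
        -- norm contradiction not immediate; use 6 unit
        have h6' : ‖(6 : ℚ_[p])‖ = 1 := by
          have e6 : (6 : ℚ_[p]) = 2 * 3 := by norm_num
          rw [e6, norm_mul, norm_two h2, norm_three (by omega), one_mul]
        rw [this, norm_mul, h6', one_mul] at hxy
        exact lt_irrefl _ hxy) hyn.le
    have hs : IsSquare (2 * qn x y) := isSquare_of_close h2 hclose (by
      have : 4 * y ^ 2 = (2 * y) ^ 2 := by ring
      rw [this]; exact IsSquare.sq _)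
    refine ⟨?_, hs⟩
    intro h0
    rw [h0, mul_zero, zero_sub, norm_neg] at hclose
    exact lt_irrefl _ hclose
  · intro h
    have : y = -((4 * x + 2) / x) := by
      unfold Dn at h
      field_simp at h ⊢
      linear_combination h / 2
    rw [this, norm_neg] at hy
    linarith
  · intro h
    by_cases h0 : x + 4 = 0
    · have : (2 : ℚ_[p]) / y = 0 := by linear_combination h - h0
      exact div_ne_zero two_ne_zero hy0 this
    · have : y = -(2 / (x + 4)) := by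
        field_simp at h ⊢
        linear_combination h
      rw [this, norm_neg] at hy
      linarith
  · have hty : ‖2 / y‖ < ‖x‖ := by
      rw [norm_div, norm_two h2, div_lt_iff₀ hyn]
      have : ‖1 / x‖ < ‖y‖ := by linarith
      rw [norm_div, norm_one, div_lt_iff₀ hxn] at this
      linarith
    set t := 2 / y with ht
    have ht0 : t ≠ 0 := div_ne_zero two_ne_zero hy0
    have htn : 0 < ‖t‖ := norm_pos_iff.2 ht0
    have hclose : ‖2 * qn x t - 4 * x ^ 2‖ < ‖4 * x ^ 2‖ := by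
      have e : 2 * qn x t - 4 * x ^ 2 = 4 * (t * (t - 6 * x)) := by unfold qn; ring
      rw [e, norm_mul 4, norm_mul 4, h4, one_mul, one_mul, norm_mul, norm_pow, sq]
      have h6 : ‖t - 6 * x‖ ≤ ‖x‖ := nsub_le hty.le (norm_nat_mul_le 6 x)
      exact mul_lt_mul hty h6 (by
        rw [norm_pos_iff]
        intro h0
        have : t = 6 * x := by linear_combination h0
        have h6' : ‖(6 : ℚ_[p])‖ = 1 := by
          have e6 : (6 : ℚ_[p]) = 2 * 3 := by norm_num
          rw [e6, norm_mul, norm_two h2, norm_three (by omega), one_mul]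
        rw [this, norm_mul, h6', one_mul] at hty
        exact lt_irrefl _ hty) hxn.le
    have hs : IsSquare (2 * qn x t) := isSquare_of_close h2 hclose (by
      have : 4 * x ^ 2 = (2 * x) ^ 2 := by ring
      rw [this]; exact IsSquare.sq _)
    refine ⟨?_, hs⟩
    intro h0
    rw [h0, mul_zero, zero_sub, norm_neg] at hclose
    exact lt_irrefl _ hclose

/-- elements of arbitrary exact level -/
theorem exists_lev (h8 : p % 8 = 5) {d : ℚ_[p]} (hd : nd d) (n : ℕ) :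
    ∃ R : E d, lev n R := by
  obtain ⟨h₀, hlev, -, -⟩ := exists_lev_zero h8 hd
  induction n with
  | zero => exact ⟨h₀, hlev⟩
  | succ n ih =>
    obtain ⟨R, hR⟩ := ih
    exact ⟨p • R, lev_p (by omega) (nd_okl hd n) hR⟩

theorem lev_norm {d : ℚ_[p]} (hd : nd d) {n : ℕ} {R : E d} (hR : lev n R) :
    R ≠ 0 ∧ yc R ≠ 0 ∧ ‖xc R‖ = (p : ℝ) ^ (2 * n) := by
  have hpp := p_pos (p := p)
  have hR0 : R ≠ 0 := by
    rintro rfl
    have := hR.2
    rw [tt_zero, norm_zero] at this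
    have h2 : (0 : ℝ) < ((p : ℝ) ^ n)⁻¹ := by positivity
    rw [← this] at h2
    exact lt_irrefl _ h2
  obtain ⟨-, h2, h3, h4⟩ := fil_props (nd_okl hd n) hR.1 hR0
  refine ⟨hR0, h3, ?_⟩
  rw [hR.2, inv_pow, ← pow_mul] at h4
  have : (p : ℝ) ^ (n * 2) ≠ 0 := by positivity
  field_simp at h4
  rw [h4, mul_comm]

/-- kappa = 0 pairs -/
theorem kappa0 (h8 : p % 8 = 5) {d : ℚ_[p]} (hd : nd d) {Q : E d} (hy : yc Q ≠ 0) (c : Prop) :
    ∃ R : E d, (par R ↔ c) ∧ yc R ≠ 0 ∧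
      Dn (xc Q / d) (xc R / d) ≠ 0 ∧ xc Q / d + xc R / d + 4 ≠ 0 ∧
      qn (xc Q / d) (xc R / d) ≠ 0 ∧ IsSquare (2 * qn (xc Q / d) (xc R / d)) := by
  have hd0 := nd_ne hd
  have hx : xc Q / d ≠ 0 := div_ne_zero (xc_ne_of_yc hy) hd0
  obtain ⟨B, hB, H⟩ := kappa0_aux h8 hx
  obtain ⟨n, hn⟩ := pow_unbounded_of_one_lt B (one_lt_p (p := p))
  obtain ⟨R, hR⟩ := exists_lev h8 hd n
  obtain ⟨hR0, hyR, hxR⟩ := lev_norm hd hR
  have hparR : par R := par_of_fil h8 hd (fil_mono (Nat.zero_le n) hR.1)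
  have hbig : B < ‖xc R / d‖ := by
    rw [norm_div, hxR]
    have h1 : (p : ℝ) ^ n ≤ (p : ℝ) ^ (2 * n) :=
      pow_le_pow_right₀ (one_lt_p (p := p)).le (by omega)
    have h2 : (p : ℝ) ^ (2 * n) ≤ (p : ℝ) ^ (2 * n) / ‖d‖ := by
      rw [le_div_iff₀ (norm_pos_iff.2 hd0)]
      exact mul_le_of_le_one_right (by positivity) (nd_lt hd).le
    linarith
  obtain ⟨H1, H2⟩ := H _ hbig
  by_cases hc : c
  · exact ⟨R, by simp [hc, hparR], hyR, H1⟩
  · have hRT : R ≠ T hd0 := by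
      rintro rfl
      exact not_par_T hd0 hparR
    obtain ⟨h1, h2, h3, h4⟩ := add_T hd0 hR0 hRT
    have hxRT : xc (R + T hd0) / d = 2 / (xc R / d) := by
      rw [h3]; field_simp
    refine ⟨R + T hd0, ?_, ?_, ?_⟩
    · rw [par_add_T_iff (kHyp_padic h8) hd0]
      simp [hc, hparR]
    · rw [h4]
      exact div_ne_zero (mul_ne_zero (neg_ne_zero.2 (mul_ne_zero two_ne_zero (pow_ne_zero _ hd0)))
        hyR) (pow_ne_zero _ h2)
    · rw [hxRT]; exact H2

/-- normalised representations -/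
theorem exists_rep (v : Pt ℚ_[p]) : ∃ (d : ℚ_[p]) (P Q : E d), nd d ∧ Rep v d P Q := by
  have hf := v.hfx
  have hp0 : (p : ℚ_[p]) ≠ 0 := by exact_mod_cast hp.1.ne_zero
  have hpr : (p : ℝ) ≠ 0 := by exact_mod_cast hp.1.ne_zero
  obtain ⟨j, hj⟩ : ∃ j : ℤ, (ff v.x).valuation + 2 * j = 1 ∨ (ff v.x).valuation + 2 * j = 2 := by
    rcases Int.even_or_odd' (ff v.x).valuation with ⟨k, hk | hk⟩
    · exact ⟨1 - k, Or.inr (by omega)⟩
    · exact ⟨-k, Or.inl (by omega)⟩
  set c : ℚ_[p] := (p : ℚ_[p]) ^ j with hc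
  have hc0 : c ≠ 0 := zpow_ne_zero _ hp0
  set d := ff v.x * c ^ 2 with hd
  have hd0 : d ≠ 0 := mul_ne_zero hf (pow_ne_zero _ hc0)
  have hdn : ‖d‖ = (p : ℝ) ^ (-((ff v.x).valuation + 2 * j)) := by
    rw [hd, norm_mul, norm_pow, hc, Padic.norm_p_zpow, Padic.norm_eq_zpow_neg_valuation hf,
      ← zpow_natCast, ← zpow_mul, ← zpow_add₀ hpr]
    congr 1; push_cast; ring
  have hnd : nd d := by
    rcases hj with hj | hj
    · left; rw [hdn, hj]; simp
    · right; rw [hdn, hj, zpow_neg]; norm_cast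
  have hx : ff v.x = v.x ^ 3 + 4 * v.x ^ 2 + 2 * v.x := rfl
  have hy : ff v.y = v.y ^ 3 + 4 * v.y ^ 2 + 2 * v.y := rfl
  have hdc : ff v.x = d / c ^ 2 := by rw [hd]; field_simp
  have h1 : (d ^ 2 / c) ^ 2 = (d * v.x) ^ 3 + 4 * d * (d * v.x) ^ 2 + 2 * d ^ 2 * (d * v.x) := by
    have e : (d * v.x) ^ 3 + 4 * d * (d * v.x) ^ 2 + 2 * d ^ 2 * (d * v.x) = d ^ 3 * ff v.x := by
      rw [hx]; ring
    rw [e, hdc]; field_simp
  have h2 : (d * v.z * c) ^ 2 = (d * v.y) ^ 3 + 4 * d * (d * v.y) ^ 2 + 2 * d ^ 2 * (d * v.y) := by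
    have e : (d * v.y) ^ 3 + 4 * d * (d * v.y) ^ 2 + 2 * d ^ 2 * (d * v.y) = d ^ 3 * ff v.y := by
      rw [hy]; ring
    have e2 := v.eqn
    have e3 : (d * v.z * c) ^ 2 = d ^ 2 * c ^ 2 * v.z ^ 2 := by ring
    rw [e, e3, e2, hdc]; field_simp
  refine ⟨d, mkP hd0 (d * v.x) (d ^ 2 / c) h1, mkP hd0 (d * v.y) (d * v.z * c) h2, hnd, hd0,
    mkP_ne _ _ _ _, mkP_ne _ _ _ _, ?_, ?_, ?_⟩
  · rw [xc_mkP]; ring
  · rw [xc_mkP]; ring
  · rw [yc_mkP, yc_mkP]; field_simp

end padic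

end KumWA
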