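import Pool.Agent.Helper9.KumWA.Curve

/-!
# The index two subgroup `Par d`
-/

namespace KumWA

/-- hypotheses on the field: 2 is not a square and norms from `K(√2)` are squares up to `2`. -/
structure KHyp (K : Type*) [Field K] : Prop where
  two : ¬ IsSquare (2 : K)
  nrm : ∀ u v : K, IsSquare (u ^ 2 - 2 * v ^ 2) ∨ IsSquare (2 * (u ^ 2 - 2 * v ^ 2))

variable {K : Type*} [Field K]

theorem KHyp.norm_ne (hK : KHyp K) {u v : K} (hv : v ≠ 0) : u ^ 2 - 2 * v ^ 2 ≠ 0 := by
  intro h
  apply hK.two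
  refine ⟨u / v, ?_⟩
  field_simp
  linear_combination -h

theorem KHyp.not_both (hK : KHyp K) {x : K} (hx : x ≠ 0) (h1 : IsSquare x)
    (h2 : IsSquare (2 * x)) : False := by
  apply hK.two
  have := h2.div h1
  rwa [mul_div_assoc, div_self hx, mul_one] at this

theorem KHyp.yc_ne (hK : KHyp K) {d : K} (hd : d ≠ 0) {P : E d} (hx : xc P ≠ 0) : yc P ≠ 0 := by
  intro hy
  have e := curve_eq P
  rw [hy] at e
  have h1 : xc P * ((xc P + 2 * d) ^ 2 - 2 * d ^ 2) = 0 := by linear_combination -e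
  exact hK.norm_ne hd ((mul_eq_zero.1 h1).resolve_left hx)

theorem KHyp.xc_cases (hK : KHyp K) {d : K} (hd : d ≠ 0) {P : E d} :
    IsSquare (xc P) ∨ IsSquare (2 * xc P) := by
  have hn := hK.norm_ne (u := xc P + 2 * d) hd
  have e := curve_eq P
  have e2 : xc P = yc P ^ 2 / ((xc P + 2 * d) ^ 2 - 2 * d ^ 2) := by
    rw [eq_div_iff hn]; linear_combination -e
  rcases hK.nrm (xc P + 2 * d) d with h | h
  · left
    rw [e2]
    exact (IsSquare.sq _).div h
  · right
    obtain ⟨s, hs⟩ := h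
    have hs0 : s ≠ 0 := by
      rintro rfl
      have : 2 * ((xc P + 2 * d) ^ 2 - 2 * d ^ 2) = 0 := by rw [hs, mul_zero]
      rcases mul_eq_zero.1 this with h | h
      · apply hK.two
        rw [h]
        exact IsSquare.zero
      · exact hn h
    refine ⟨2 * yc P / s, ?_⟩
    have h3 : 2 * ((xc P + 2 * d) ^ 2 - 2 * d ^ 2) * xc P = 2 * yc P ^ 2 := by
      linear_combination -2 * e
    rw [hs] at h3
    field_simp
    linear_combination 2 * h3

/-- membership in the index two subgroup -/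
def par {d : K} (P : E d) : Prop := P = 0 ∨ (xc P ≠ 0 ∧ IsSquare (xc P))

theorem par_zero {d : K} : par (0 : E d) := Or.inl rfl

theorem par_neg {d : K} {P : E d} (h : par P) : par (-P) := by
  rcases h with h | h
  · left; rw [h]; rfl
  · right; rwa [xc_neg]

theorem par_neg_iff {d : K} {P : E d} : par (-P) ↔ par P := by
  refine ⟨fun h => ?_, par_neg⟩
  have := par_neg h
  rwa [neg_neg] at this

variable [CharZero K]

theorem not_par_T {d : K} (hd : d ≠ 0) : ¬ par (T hd) := by
  rintro (h | h)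
  · exact T_ne hd h
  · exact h.1 (xc_T hd)

theorem not_par_cases (hK : KHyp K) {d : K} (hd : d ≠ 0) {P : E d} (h : ¬ par P) :
    P ≠ 0 ∧ (P = T hd ∨ (xc P ≠ 0 ∧ IsSquare (2 * xc P))) := by
  have hP : P ≠ 0 := fun h' => h (Or.inl h')
  refine ⟨hP, ?_⟩
  by_cases hx : xc P = 0
  · left; exact eq_T_of_xc hd hP hx
  · right
    refine ⟨hx, ?_⟩
    rcases hK.xc_cases (P := P) hd with h' | h'
    · exact absurd (Or.inr ⟨hx, h'⟩) h
    · exact h'

omit [CharZero K] in
theorem not_par_of (hK : KHyp K) {d : K} {P : E d} (hP : P ≠ 0)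
    (h2 : IsSquare (2 * xc P)) : ¬ par P := by
  rintro (h | ⟨h, h'⟩)
  · exact hP h
  · exact hK.not_both h h' h2

variable [DecidableEq K]

theorem par_add_T_iff (hK : KHyp K) {d : K} (hd : d ≠ 0) (P : E d) :
    par (P + T hd) ↔ ¬ par P := by
  by_cases hP : P = 0
  · rw [hP, zero_add]
    exact ⟨fun h => absurd h (not_par_T hd), fun h => absurd par_zero h⟩
  by_cases hPT : P = T hd
  · rw [hPT, T_add_T]
    exact ⟨fun _ => not_par_T hd, fun _ => par_zero⟩
  obtain ⟨h1, h2, h3, -⟩ := add_T hd hP hPT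
  constructor
  · rintro (h | ⟨h, h'⟩)
    · exact absurd h h1
    · rintro (h4 | ⟨h4, h5⟩)
      · exact hP h4
      · rw [h3] at h'
        have := (h'.mul h5).div (IsSquare.sq d)
        apply hK.two
        have e : 2 * d ^ 2 / xc P * xc P / d ^ 2 = 2 := by field_simp
        rwa [e] at this
  · intro h
    obtain ⟨_, h4 | ⟨h4, h5⟩⟩ := not_par_cases hK hd h
    · exact absurd h4 hPT
    · right
      rw [h3]
      refine ⟨div_ne_zero (mul_ne_zero two_ne_zero (pow_ne_zero _ hd)) h2, ?_⟩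
      have := (IsSquare.sq (2 * d)).div h5
      have e : (2 * d) ^ 2 / (2 * xc P) = 2 * d ^ 2 / xc P := by field_simp
      rwa [e] at this

theorem par_add (hK : KHyp K) {d : K} (hd : d ≠ 0) {P Q : E d} (hP : par P) (hQ : par Q) :
    par (P + Q) := by
  rcases hP with hP | ⟨hxP, hsP⟩
  · rw [hP, zero_add]; exact hQ
  rcases hQ with hQ | ⟨hxQ, hsQ⟩
  · rw [hQ, add_zero]; exact Or.inr ⟨hxP, hsP⟩
  by_cases hPQ : P + Q = 0
  · exact Or.inl hPQ
  have hP0 : P ≠ 0 := by rintro rfl; exact hxP xc_zero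
  have hQ0 : Q ≠ 0 := by rintro rfl; exact hxQ xc_zero
  by_cases hx : xc (P + Q) = 0
  · exfalso
    have hT := eq_T_of_xc hd hPQ hx
    have hQ' : Q = -P + T hd := by rw [← hT]; abel
    have h1 : ¬ par (-P) := by
      rw [← par_add_T_iff hK hd, ← hQ']
      exact Or.inr ⟨hxQ, hsQ⟩
    exact h1 (par_neg (Or.inr ⟨hxP, hsP⟩))
  · right
    refine ⟨hx, ?_⟩
    obtain ⟨L, c, -, -, -, -, -, h6⟩ := line_add hP0 hQ0 hPQ
    have : xc (P + Q) = c ^ 2 / (xc P * xc Q) := by
      rw [eq_div_iff (mul_ne_zero hxP hxQ)]; linear_combination h6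
    rw [this]
    exact (IsSquare.sq _).div (hsP.mul hsQ)

theorem par_add_of_not (hK : KHyp K) {d : K} (hd : d ≠ 0) {P Q : E d} (hP : ¬ par P)
    (hQ : ¬ par Q) : par (P + Q) := by
  have h1 := (par_add_T_iff hK hd P).2 hP
  have h2 := (par_add_T_iff hK hd Q).2 hQ
  have h3 := par_add hK hd h1 h2
  have : P + T hd + (Q + T hd) = P + Q + (T hd + T hd) := by abel
  rwa [this, T_add_T, add_zero] at h3

/-- the index two subgroup -/
def Par (hK : KHyp K) {d : K} (hd : d ≠ 0) : AddSubgroup (E d) where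
  carrier := {P | par P}
  zero_mem' := par_zero
  add_mem' := par_add hK hd
  neg_mem' := par_neg

theorem par_add_iff (hK : KHyp K) {d : K} (hd : d ≠ 0) (P Q : E d) :
    par (P + Q) ↔ (par P ↔ par Q) := by
  constructor
  · intro h
    constructor
    · intro hP
      have : Q = P + Q + -P := by abel
      rw [this]
      exact par_add hK hd h (par_neg hP)
    · intro hQ
      have : P = P + Q + -Q := by abel
      rw [this]
      exact par_add hK hd h (par_neg hQ)
  · intro h
    by_cases hP : par P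
    · exact par_add hK hd hP (h.1 hP)
    · exact par_add_of_not hK hd hP (fun hQ => hP (h.2 hQ))

theorem par_sub_iff (hK : KHyp K) {d : K} (hd : d ≠ 0) (P Q : E d) :
    par (P - Q) ↔ (par P ↔ par Q) := by
  rw [sub_eq_add_neg, par_add_iff hK hd, par_neg_iff]

theorem par_two_zsmul (hK : KHyp K) {d : K} (hd : d ≠ 0) (P : E d) (j : ℤ) :
    par ((2 * j) • P) := by
  have : (2 * j) • P = j • P + j • P := by rw [two_mul, add_zsmul]
  rw [this, par_add_iff hK hd]

theorem par_zsmul_odd (hK : KHyp K) {d : K} (hd : d ≠ 0) (P : E d) {j : ℤ} (hj : Odd j) :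
    par (j • P) ↔ par P := by
  obtain ⟨k, rfl⟩ := hj
  rw [add_zsmul, one_zsmul, par_add_iff hK hd]
  exact ⟨fun h => h.1 (par_two_zsmul hK hd P k), fun h => ⟨fun _ => h, fun _ => par_two_zsmul hK hd P k⟩⟩

theorem par_zsmul_even (hK : KHyp K) {d : K} (hd : d ≠ 0) (P : E d) {j : ℤ} (hj : Even j) :
    par (j • P) := by
  obtain ⟨k, rfl⟩ := hj
  have := par_two_zsmul hK hd P k
  rwa [two_mul] at this

end KumWA
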