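import Pool.Agent.Helper9.KumWA.Level

/-!
# Group closeness versus coordinate closeness
-/

namespace KumWA

open IsUltrametricDist

variable {p : ℕ} [hp : Fact p.Prime] [DecidableEq ℚ_[p]]

omit [DecidableEq ℚ_[p]] in
theorem norm_four (h2 : p ≠ 2) : ‖(4 : ℚ_[p])‖ = 1 := by
  have : (4 : ℚ_[p]) = 2 * 2 := by norm_num
  rw [this, norm_mul, norm_two h2, one_mul]

/-- coordinate-close implies group-close -/
theorem fil_of_close (h2 : p ≠ 2) {d : ℚ_[p]} {P : E d} (hP : P ≠ 0) (hy : yc P ≠ 0) (n : ℕ) :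
    ∃ ε : ℝ, 0 < ε ∧ ∀ P' : E d, P' ≠ 0 → ‖xc P' - xc P‖ < ε → ‖yc P' - yc P‖ < ε →
      fil n (P' - P) := by
  set B : ℝ := 1 + ‖xc P‖ + ‖d‖ with hB
  have hB1 : 1 ≤ B := by
    have := norm_nonneg (xc P); have := norm_nonneg d; linarith
  have hBx : ‖xc P‖ ≤ B := by
    have := norm_nonneg d; linarith
  have hBd : ‖d‖ ≤ B := by
    have := norm_nonneg (xc P); linarith
  have hyp : 0 < ‖yc P‖ := norm_pos_iff.2 hy
  have hpn : 0 < (p : ℝ) ^ n := pow_pos (p_pos (p := p)) _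
  refine ⟨min (min 1 (‖yc P‖)) (min (‖yc P‖ ^ 2 / B ^ 2) (‖yc P‖ / (p : ℝ) ^ n)), ?_, ?_⟩
  · refine lt_min (lt_min one_pos hyp) (lt_min ?_ ?_) <;> positivity
  intro P' hP' hx' hy'
  have hx1 : ‖xc P' - xc P‖ < 1 := lt_of_lt_of_le hx' ((min_le_left _ _).trans (min_le_left _ _))
  have hx3 : ‖xc P' - xc P‖ < ‖yc P‖ ^ 2 / B ^ 2 :=
    lt_of_lt_of_le hx' ((min_le_right _ _).trans (min_le_left _ _))
  have hx4 : ‖xc P' - xc P‖ < ‖yc P‖ / (p : ℝ) ^ n :=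
    lt_of_lt_of_le hx' ((min_le_right _ _).trans (min_le_right _ _))
  have hy1 : ‖yc P' - yc P‖ < ‖yc P‖ := lt_of_lt_of_le hy' ((min_le_left _ _).trans (min_le_right _ _))
  by_cases hxx : xc P' = xc P
  · rcases (xc_eq_iff hP' hP).1 hxx with h | h
    · left; rw [h, sub_self]
    · exfalso
      rw [h, yc_neg] at hy1
      have : -yc P - yc P = -(2 * yc P) := by ring
      rw [this, norm_neg, norm_mul, norm_two h2, one_mul] at hy1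
      exact lt_irrefl _ hy1
  · obtain ⟨h3, h4⟩ := xc_sub_mul hP' hP hxx
    right
    have hBx' : ‖xc P'‖ ≤ B := by
      have : xc P' = (xc P' - xc P) + xc P := by ring
      rw [this]
      exact nadd_le (hx1.le.trans hB1) hBx
    have e := curve_eq P
    have key : (xc P' * xc P + 2 * d ^ 2) * (xc P' + xc P) + 8 * d * (xc P' * xc P) +
        2 * yc P' * yc P - 4 * yc P ^ 2 =
        (xc P' - xc P) * (xc P * (xc P' + xc P) + xc P ^ 2 + 2 * d ^ 2 + 8 * (d * xc P)) +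
          2 * (yc P * (yc P' - yc P)) := by
      linear_combination (-2) * e
    have hclose : ‖(xc P' * xc P + 2 * d ^ 2) * (xc P' + xc P) + 8 * d * (xc P' * xc P) +
        2 * yc P' * yc P - 4 * yc P ^ 2‖ < ‖4 * yc P ^ 2‖ := by
      rw [key, norm_mul 4, norm_four h2, one_mul, norm_pow]
      apply nadd_lt
      · rw [norm_mul]
        have hb : ‖xc P * (xc P' + xc P) + xc P ^ 2 + 2 * d ^ 2 + 8 * (d * xc P)‖ ≤ B ^ 2 := by
          have b1 : ‖xc P * (xc P' + xc P)‖ ≤ B ^ 2 := by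
            rw [norm_mul, sq]
            exact mul_le_mul hBx (nadd_le hBx' hBx) (norm_nonneg _) (by linarith)
          have b2 : ‖xc P ^ 2‖ ≤ B ^ 2 := by
            rw [norm_pow]; exact pow_le_pow_left₀ (norm_nonneg _) hBx 2
          have b3 : ‖2 * d ^ 2‖ ≤ B ^ 2 := by
            refine (norm_nat_mul_le 2 _).trans ?_
            rw [norm_pow]; exact pow_le_pow_left₀ (norm_nonneg _) hBd 2
          have b4 : ‖8 * (d * xc P)‖ ≤ B ^ 2 := by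
            refine (norm_nat_mul_le 8 _).trans ?_
            rw [norm_mul, sq]
            exact mul_le_mul hBd hBx (norm_nonneg _) (by linarith)
          exact nadd_le (nadd_le (nadd_le b1 b2) b3) b4
        calc ‖xc P' - xc P‖ * ‖xc P * (xc P' + xc P) + xc P ^ 2 + 2 * d ^ 2 + 8 * (d * xc P)‖
            ≤ ‖xc P' - xc P‖ * B ^ 2 := by gcongr
          _ < ‖yc P‖ ^ 2 / B ^ 2 * B ^ 2 := by
              apply mul_lt_mul_of_pos_right hx3; positivity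
          _ = ‖yc P‖ ^ 2 := by field_simp
      · refine lt_of_le_of_lt (norm_nat_mul_le 2 _) ?_
        rw [norm_mul, sq]
        exact mul_lt_mul_of_pos_left hy1 hyp
    have hnorm := neq_of_sub_lt hclose
    rw [← h4, norm_mul, norm_mul, norm_four h2, one_mul, norm_pow, norm_pow] at hnorm
    have hxp : 0 < ‖xc P' - xc P‖ := norm_pos_iff.2 (sub_ne_zero.2 hxx)
    have h5 : ‖xc P' - xc P‖ * (p : ℝ) ^ n < ‖yc P‖ := by
      rwa [lt_div_iff₀ hpn] at hx4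
    have h6 : (‖xc P' - xc P‖ * (p : ℝ) ^ n) ^ 2 ≤ ‖yc P‖ ^ 2 :=
      pow_le_pow_left₀ (by positivity) h5.le 2
    rw [← hnorm] at h6
    have h7 : (p : ℝ) ^ (2 * n) * ‖xc P' - xc P‖ ^ 2 ≤ ‖xc (P' - P)‖ * ‖xc P' - xc P‖ ^ 2 := by
      refine le_trans (le_of_eq ?_) h6
      rw [mul_comm 2 n, pow_mul]; ring
    exact le_of_mul_le_mul_right h7 (by positivity)

/-- group-close implies coordinate-close -/
theorem close_of_fil {d : ℚ_[p]} (hd : okl d 0) {P : E d} (hP : P ≠ 0) {ε : ℝ} (hε : 0 < ε) :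
    ∃ n : ℕ, ∀ P' : E d, fil n (P' - P) → P' ≠ 0 ∧ ‖xc P' - xc P‖ < ε ∧ ‖yc P' - yc P‖ < ε := by
  set B : ℝ := 1 + ‖xc P‖ + ‖yc P‖ + ‖d‖ with hB
  have nx := norm_nonneg (xc P)
  have ny := norm_nonneg (yc P)
  have nd' := norm_nonneg d
  have hB1 : 1 ≤ B := by linarith
  have hBx : ‖xc P‖ ≤ B := by linarith
  have hBy : ‖yc P‖ ≤ B := by linarith
  have hBd : ‖d‖ ≤ B := by linarith
  have hp1 := one_lt_p (p := p)
  obtain ⟨n, hn⟩ := pow_unbounded_of_one_lt (max (B ^ 4 / ε) B) hp1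
  refine ⟨n, ?_⟩
  intro P' hF
  obtain ⟨F, hFdef⟩ : ∃ F, F = P' - P := ⟨_, rfl⟩
  rw [← hFdef] at hF
  have hP' : P' = P + F := by rw [hFdef]; abel
  rw [hP']
  by_cases hF0 : F = 0
  · rw [hF0, add_zero, sub_self, sub_self, norm_zero]
    exact ⟨hP, hε, hε⟩
  have hRX : (p : ℝ) ^ (2 * n) ≤ ‖xc F‖ := hF.resolve_left hF0
  have hpn : B < (p : ℝ) ^ n := lt_of_le_of_lt (le_max_right _ _) hn
  have hpnε : B ^ 4 / ε < (p : ℝ) ^ n := lt_of_le_of_lt (le_max_left _ _) hn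
  have hpn1 : (p : ℝ) ^ n ≤ (p : ℝ) ^ (2 * n) := pow_le_pow_right₀ hp1.le (by omega)
  have hBX : B < ‖xc F‖ := lt_of_lt_of_le hpn (hpn1.trans hRX)
  have hokn : okl d n := okl_mono hd (by omega)
  obtain ⟨f1, f2, f3, f4⟩ := fil_props hokn hF hF0
  have htle := norm_tt_le hokn hF
  have hY2 := norm_yc_sq f1
  set X := xc F with hX
  set Y := yc F with hY
  have hXp : 0 < ‖X‖ := norm_pos_iff.2 f2
  have hYp : 0 < ‖Y‖ := norm_pos_iff.2 f3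
  have hX1 : 1 ≤ ‖X‖ := hB1.trans hBX.le
  have hXY : ‖X‖ ≤ ‖Y‖ := by
    apply le_of_sq_le_sq _ hYp.le
    rw [hY2]
    exact pow_le_pow_right₀ hX1 (by norm_num)
  have hne : xc P ≠ X := by
    intro h
    rw [h] at hBx
    exact absurd hBX (not_lt.2 hBx)
  obtain ⟨g1, g2⟩ := xc_add_mul hP hF0 hne
  refine ⟨g1, ?_⟩
  have hsub : ‖xc P - X‖ = ‖X‖ := nsub_eq' (lt_of_le_of_lt hBx hBX)
  have htY : ‖Y‖ / ‖X‖ ^ 2 = ‖tt F‖ := by
    rw [tt, norm_div, div_eq_div_iff (by positivity) hYp.ne']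
    rw [← sq, hY2]; ring
  set x := xc P with hx
  set y := yc P with hy
  have hB0 : 0 ≤ B := by linarith
  have hBX' : B ≤ ‖X‖ := hBX.le
  -- bounds
  have hxd : (xc (P + F) - x) * (x - X) ^ 2 =
      3 * (x ^ 2 * X) + 2 * (d ^ 2 * (x + X)) + 8 * (d * x * X) - 2 * (y * Y) - x ^ 3 := by
    linear_combination g2
  have hxX : ‖x + X‖ ≤ ‖X‖ := nadd_le (hBx.trans hBX') le_rfl
  have m1 : ‖3 * (x ^ 2 * X)‖ ≤ B ^ 2 * ‖Y‖ := by
    refine (norm_nat_mul_le 3 _).trans ?_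
    rw [norm_mul, norm_pow]; gcongr
  have m2 : ‖2 * (d ^ 2 * (x + X))‖ ≤ B ^ 2 * ‖Y‖ := by
    refine (norm_nat_mul_le 2 _).trans ?_
    rw [norm_mul, norm_pow]
    have := hxX.trans hXY
    gcongr
  have m3 : ‖8 * (d * x * X)‖ ≤ B ^ 2 * ‖Y‖ := by
    refine (norm_nat_mul_le 8 _).trans ?_
    rw [norm_mul, norm_mul, sq B]; gcongr
  have m4 : ‖2 * (y * Y)‖ ≤ B ^ 2 * ‖Y‖ := by
    refine (norm_nat_mul_le 2 _).trans ?_
    rw [norm_mul]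
    have : ‖y‖ ≤ B ^ 2 := hBy.trans (le_self_pow₀ hB1 two_ne_zero)
    gcongr
  have m5 : ‖x ^ 3‖ ≤ B ^ 2 * ‖Y‖ := by
    rw [norm_pow, pow_succ]
    have := hBx.trans (hBX'.trans hXY)
    gcongr
  have hNx : ‖3 * (x ^ 2 * X) + 2 * (d ^ 2 * (x + X)) + 8 * (d * x * X) - 2 * (y * Y) - x ^ 3‖ ≤
      B ^ 2 * ‖Y‖ := nsub_le (nsub_le (nadd_le (nadd_le m1 m2) m3) m4) m5
  have hX' : ‖xc (P + F) - x‖ ≤ B ^ 2 * ‖tt F‖ := by
    rw [← htY]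
    have : ‖xc (P + F) - x‖ * ‖X‖ ^ 2 ≤ B ^ 2 * ‖Y‖ := by
      rw [← hsub, ← norm_pow, ← norm_mul, hxd]; exact hNx
    rw [← mul_div_assoc, le_div_iff₀ (by positivity)]
    exact this
  -- y-coordinate
  obtain ⟨L, c, l1, l2, l3, -, -, -⟩ := line_add hP hF0 g1
  have hL : L * (x - X) = y - Y := by linear_combination l2 - l1
  have hyd : (yc (P + F) - y) * (x - X) ^ 3 =
      - 2 * y * (x - X) ^ 3 - (y - Y) * (3 * (x ^ 2 * X) + 2 * (d ^ 2 * (x + X)) + 8 * (d * x * X)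
        - 2 * (y * Y) - x ^ 3) := by
    have e1 : yc (P + F) = - y - L * (xc (P + F) - x) := by
      linear_combination l3 + l1
    rw [e1, ← hxd, ← hL]; ring
  have eF := curve_eq F
  have hyd2 : (yc (P + F) - y) * (x - X) ^ 3 =
      Y * (3 * (x ^ 2 * X) + 2 * (d ^ 2 * (x + X)) + 8 * (d * x * X) - x ^ 3)
      - y * (3 * (x ^ 2 * X) + 2 * (d ^ 2 * (x + X)) + 8 * (d * x * X) - 2 * (y * Y) - x ^ 3)
      - 8 * (y * d * X ^ 2) - 4 * (y * d ^ 2 * X) - 6 * (y * x * X ^ 2) + 6 * (y * x ^ 2 * X)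
      - 2 * (y * x ^ 3) := by
    rw [hyd]
    linear_combination (- 2 * y) * eF
  have hBB : B ^ 3 = B * B ^ 2 := by ring
  have hXX : ‖X‖ ^ 2 ≤ ‖X‖ * ‖Y‖ := by rw [sq]; gcongr
  have n1 : ‖Y * (3 * (x ^ 2 * X) + 2 * (d ^ 2 * (x + X)) + 8 * (d * x * X) - x ^ 3)‖ ≤
      B ^ 3 * (‖X‖ * ‖Y‖) := by
    rw [norm_mul]
    have : ‖3 * (x ^ 2 * X) + 2 * (d ^ 2 * (x + X)) + 8 * (d * x * X) - x ^ 3‖ ≤ B ^ 3 * ‖X‖ := by
      have q1 : ‖3 * (x ^ 2 * X)‖ ≤ B ^ 3 * ‖X‖ := by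
        refine (norm_nat_mul_le 3 _).trans ?_
        rw [norm_mul, norm_pow]
        have : ‖x‖ ^ 2 ≤ B ^ 3 := (pow_le_pow_left₀ (norm_nonneg _) hBx 2).trans
          (pow_le_pow_right₀ hB1 (by norm_num))
        gcongr
      have q2 : ‖2 * (d ^ 2 * (x + X))‖ ≤ B ^ 3 * ‖X‖ := by
        refine (norm_nat_mul_le 2 _).trans ?_
        rw [norm_mul, norm_pow]
        have : ‖d‖ ^ 2 ≤ B ^ 3 := (pow_le_pow_left₀ (norm_nonneg _) hBd 2).trans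
          (pow_le_pow_right₀ hB1 (by norm_num))
        gcongr
      have q3 : ‖8 * (d * x * X)‖ ≤ B ^ 3 * ‖X‖ := by
        refine (norm_nat_mul_le 8 _).trans ?_
        rw [norm_mul, norm_mul]
        have h1 : ‖d‖ * ‖x‖ ≤ B * B := by gcongr
        have h2 : B * B ≤ B ^ 3 := by
          rw [← sq]; exact pow_le_pow_right₀ hB1 (by norm_num)
        have := h1.trans h2
        gcongr
      have q4 : ‖x ^ 3‖ ≤ B ^ 3 * ‖X‖ := by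
        rw [norm_pow]
        have h1 : ‖x‖ ^ 3 ≤ B ^ 3 := pow_le_pow_left₀ (norm_nonneg _) hBx 3
        have h2 : B ^ 3 ≤ B ^ 3 * ‖X‖ := le_mul_of_one_le_right (by positivity) hX1
        exact h1.trans h2
      exact nsub_le (nadd_le (nadd_le q1 q2) q3) q4
    calc ‖Y‖ * ‖3 * (x ^ 2 * X) + 2 * (d ^ 2 * (x + X)) + 8 * (d * x * X) - x ^ 3‖
        ≤ ‖Y‖ * (B ^ 3 * ‖X‖) := by gcongr
      _ = B ^ 3 * (‖X‖ * ‖Y‖) := by ring
  have n2 : ‖y * (3 * (x ^ 2 * X) + 2 * (d ^ 2 * (x + X)) + 8 * (d * x * X) - 2 * (y * Y) - x ^ 3)‖ ≤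
      B ^ 3 * (‖X‖ * ‖Y‖) := by
    rw [norm_mul]
    have : ‖Y‖ ≤ ‖X‖ * ‖Y‖ := le_mul_of_one_le_left hYp.le hX1
    calc ‖y‖ * ‖3 * (x ^ 2 * X) + 2 * (d ^ 2 * (x + X)) + 8 * (d * x * X) - 2 * (y * Y) - x ^ 3‖
        ≤ B * (B ^ 2 * ‖Y‖) := by gcongr
      _ ≤ B * (B ^ 2 * (‖X‖ * ‖Y‖)) := by gcongr
      _ = B ^ 3 * (‖X‖ * ‖Y‖) := by ring
  have hB13 : B * B ≤ B ^ 3 := by
    rw [← sq]; exact pow_le_pow_right₀ hB1 (by norm_num)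
  have n3 : ‖8 * (y * d * X ^ 2)‖ ≤ B ^ 3 * (‖X‖ * ‖Y‖) := by
    refine (norm_nat_mul_le 8 _).trans ?_
    rw [norm_mul, norm_mul, norm_pow]
    have : ‖y‖ * ‖d‖ ≤ B ^ 3 := (mul_le_mul hBy hBd (norm_nonneg _) hB0).trans hB13
    gcongr
  have hXXY : ‖X‖ ≤ ‖X‖ * ‖Y‖ := le_mul_of_one_le_right hXp.le (hX1.trans hXY)
  have n4 : ‖4 * (y * d ^ 2 * X)‖ ≤ B ^ 3 * (‖X‖ * ‖Y‖) := by
    refine (norm_nat_mul_le 4 _).trans ?_
    rw [norm_mul, norm_mul, norm_pow]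
    have : ‖y‖ * ‖d‖ ^ 2 ≤ B * B ^ 2 := by gcongr
    rw [hBB]
    gcongr
  have n5 : ‖6 * (y * x * X ^ 2)‖ ≤ B ^ 3 * (‖X‖ * ‖Y‖) := by
    refine (norm_nat_mul_le 6 _).trans ?_
    rw [norm_mul, norm_mul, norm_pow]
    have : ‖y‖ * ‖x‖ ≤ B ^ 3 := (mul_le_mul hBy hBx (norm_nonneg _) hB0).trans hB13
    gcongr
  have n6 : ‖6 * (y * x ^ 2 * X)‖ ≤ B ^ 3 * (‖X‖ * ‖Y‖) := by
    refine (norm_nat_mul_le 6 _).trans ?_
    rw [norm_mul, norm_mul, norm_pow]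
    have : ‖y‖ * ‖x‖ ^ 2 ≤ B * B ^ 2 := by gcongr
    rw [hBB]
    gcongr
  have n7 : ‖2 * (y * x ^ 3)‖ ≤ B ^ 3 * (‖X‖ * ‖Y‖) := by
    refine (norm_nat_mul_le 2 _).trans ?_
    rw [norm_mul, norm_pow]
    calc ‖y‖ * ‖x‖ ^ 3 ≤ B * (B ^ 2 * ‖X‖) := by
          have : ‖x‖ ^ 3 ≤ B ^ 2 * ‖X‖ := by
            rw [pow_succ]
            have := hBx.trans hBX'
            gcongr
          gcongr
      _ = B ^ 3 * ‖X‖ := by ring
      _ ≤ B ^ 3 * (‖X‖ * ‖Y‖) := by gcongr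
  have hY' : ‖yc (P + F) - y‖ ≤ B ^ 3 * ‖tt F‖ := by
    rw [← htY]
    have h1 : ‖yc (P + F) - y‖ * ‖X‖ ^ 3 ≤ B ^ 3 * (‖X‖ * ‖Y‖) := by
      rw [← hsub, ← norm_pow, ← norm_mul, hyd2]
      rw [hsub]
      exact nsub_le (nadd_le (nsub_le (nsub_le (nsub_le (nsub_le n1 n2) n3) n4) n5) n6) n7
    rw [← mul_div_assoc, le_div_iff₀ (by positivity)]
    have h2 : (‖yc (P + F) - y‖ * ‖X‖ ^ 2) * ‖X‖ ≤ (B ^ 3 * ‖Y‖) * ‖X‖ := by
      calc (‖yc (P + F) - y‖ * ‖X‖ ^ 2) * ‖X‖ = ‖yc (P + F) - y‖ * ‖X‖ ^ 3 := by ring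
        _ ≤ B ^ 3 * (‖X‖ * ‖Y‖) := h1
        _ = (B ^ 3 * ‖Y‖) * ‖X‖ := by ring
    exact le_of_mul_le_mul_right h2 hXp
  have hfin : B ^ 3 * ‖tt F‖ < ε := by
    have h1 : B ^ 3 * ‖tt F‖ ≤ B ^ 4 * ((p : ℝ) ^ n)⁻¹ := by
      have : B ^ 3 ≤ B ^ 4 := pow_le_pow_right₀ hB1 (by norm_num)
      gcongr
    refine lt_of_le_of_lt h1 ?_
    rw [← div_eq_mul_inv, div_lt_iff₀ (by positivity)]
    rw [div_lt_iff₀ hε] at hpnε
    linarith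
  refine ⟨?_, lt_of_le_of_lt hY' hfin⟩
  refine lt_of_le_of_lt (hX'.trans ?_) hfin
  have : B ^ 2 ≤ B ^ 3 := pow_le_pow_right₀ hB1 (by norm_num)
  gcongr

end KumWA
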